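import Mathlib

/-! Definitions and toolbox for the disproof of the colourful Tverberg conjecture of Barany and Larman. -/

set_option autoImplicit false

namespace Pool.Agent.P.MP_9ca318_co.BL

open Finset

noncomputable section

/-! ### Weight tuples -/

/-- Total weight of a column. Classes are indexed by `ι`, the points of a class by `Fin r`. -/
def tot {ι : Type} [Fintype ι] {r : ℕ} (x : ι → Fin r → ℝ) : ℝ := ∑ j, ∑ i, x j i

/-- Unnormalised weights of `r` parts (columns `c`): nonnegative, rainbow, disjoint. -/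
structure Raw {ι : Type} {r : ℕ} (y : Fin r → ι → Fin r → ℝ) : Prop where
  nn : ∀ c j i, 0 ≤ y c j i
  rb : ∀ c j i i', y c j i ≠ 0 → y c j i' ≠ 0 → i = i'
  dj : ∀ c c' j i, y c j i ≠ 0 → y c' j i ≠ 0 → c = c'

/-- Normalised weights of `r` parts. -/
def Tup {ι : Type} [Fintype ι] {r : ℕ} (y : Fin r → ι → Fin r → ℝ) : Prop :=
  Raw y ∧ ∀ c, tot (y c) = 1

/-- A continuous counterexample. -/
def TopCex (r : ℕ) (ι : Type) [Fintype ι] (A : Type) [TopologicalSpace A] : Prop :=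
  ∃ f : (ι → Fin r → ℝ) → A, Continuous f ∧ ∀ y, Tup y → ∃ c c', f (y c) ≠ f (y c')

/-- A linear counterexample (indexed points, repetitions allowed). -/
def AffCex (r : ℕ) (ι : Type) [Fintype ι] (A : Type) [AddCommGroup A] [Module ℝ A] : Prop :=
  ∃ f : (ι → Fin r → ℝ) →ₗ[ℝ] A, ∀ y, Tup y → ∃ c c', f (y c) ≠ f (y c')

/-- A counterexample in which the map may depend on the common value. -/
def ImpCex (r : ℕ) (ι : Type) [Fintype ι] (A : Type) [NormedAddCommGroup A] : Prop :=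
  ∃ (h : A → (ι → Fin r → ℝ) → A) (R : ℝ),
    Continuous (fun q : A × (ι → Fin r → ℝ) => h q.1 q.2) ∧
    (∀ Y x, (∀ j i, 0 ≤ x j i ∧ x j i ≤ 1) → ‖h Y x‖ ≤ R) ∧
    ∀ y Y, Tup y → ∃ c, h Y (y c) ≠ Y

/-- A counterexample in which the map may also depend on a fixed point of a bounded map. -/
def SusCex (r : ℕ) (ι : Type) [Fintype ι] (A : Type) [NormedAddCommGroup A] (μ : Type) [Fintype μ] : Prop :=
  ∃ (F : A → (μ → ℝ) → (ι → Fin r → ℝ) → A) (φ : A → (μ → ℝ) → (μ → ℝ)) (R : ℝ),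
    Continuous (fun q : A × (μ → ℝ) × (ι → Fin r → ℝ) => F q.1 q.2.1 q.2.2) ∧
    Continuous (fun q : A × (μ → ℝ) => φ q.1 q.2) ∧
    (∀ a ζ x, (∀ j i, 0 ≤ x j i ∧ x j i ≤ 1) → ‖F a ζ x‖ ≤ R) ∧
    (∀ a ζ, ‖φ a ζ‖ ≤ R) ∧
    ∀ y a ζ, Tup y → φ a ζ = ζ → ∃ c, F a ζ (y c) ≠ a

/-- Weight on the two rows of index `< 2`. -/
def sgP {r : ℕ} (v : Fin r → ℝ) : ℝ := ∑ i, if i.val < 2 then v i else 0
/-- Weight on the rows of index `≥ 2`. -/
def sgN {r : ℕ} (v : Fin r → ℝ) : ℝ := ∑ i, if i.val < 2 then 0 else v i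
/-- Signed weight of a class. -/
def sg {r : ℕ} (v : Fin r → ℝ) : ℝ := sgP v - sgN v

/-! ### Gates -/

/-- Functions computed by admissible networks of rectifiers. -/
inductive Net {ι : Type} {r : ℕ} : ((ι → Fin r → ℝ) → ℝ) → Prop
  | zero : Net (fun _ => 0)
  | coord (j : ι) (i : Fin r) : Net (fun x => x j i)
  | add {g g' : (ι → Fin r → ℝ) → ℝ} : Net g → Net g' → Net (fun x => g x + g' x)
  | smul (a : ℝ) {g : (ι → Fin r → ℝ) → ℝ} : Net g → Net (fun x => a * g x)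
  | relu {g : (ι → Fin r → ℝ) → ℝ} (j : ι) (i : Fin r) (j' : ι) (i' : Fin r) : Net g →
      (∀ x, (∀ k l, 0 ≤ x k l) → 0 < g x → 0 < x j i) →
      (∀ x, (∀ k l, 0 ≤ x k l) → g x < 0 → 0 < x j' i') → Net (fun x => max (g x) 0)

/-- `g` is realised by additional classes `σ` and as many additional coordinates. -/
def Realz {ι : Type} [Fintype ι] {r : ℕ} {E : Type} [NormedAddCommGroup E] [NormedSpace ℝ E]
    (g : (ι → Fin r → ℝ) → E) : Prop :=
  ∃ (σ : Type) (_ : Fintype σ) (A : (ι → Fin r → ℝ) →ₗ[ℝ] (σ → ℝ)) (B : (σ → Fin r → ℝ) →ₗ[ℝ] (σ → ℝ))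
    (a : (ι → Fin r → ℝ) →ₗ[ℝ] E) (b : (σ → Fin r → ℝ) →ₗ[ℝ] E) (C : ℝ), 0 ≤ C ∧
    ∀ (x : Fin r → ι → Fin r → ℝ) (z : Fin r → σ → Fin r → ℝ), Raw x → Raw z →
      (∀ c c', A (x c) + B (z c) = A (x c') + B (z c')) →
      ∀ c, a (x c) + b (z c) = g (x c) ∧ tot (z c) ≤ C * tot (x c) ∧ ‖g (x c)‖ ≤ C * tot (x c)

/-! ### Blocks of three classes -/

/-- Type of a row: 45 rows of type `true`, 46 rows of type `false`. -/
def ty (i : Fin 91) : Bool := decide (i.val < 45)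

/-- Coordinates of a block: centres, rows, triples of rows. -/
abbrev Wd : Type := (Fin 3 → Bool) ⊕ (Fin 3 × Fin 91) ⊕ (Fin 3 → Fin 91)

/-- Parity of a triple of types. -/
def odd3 (e : Fin 3 → Bool) : Bool := xor (e 0) (xor (e 1) (e 2))

/-- Weight of class `j` on rows of type `β`. -/
def TT (v : Fin 3 → Fin 91 → ℝ) (j : Fin 3) (β : Bool) : ℝ := ∑ i, if ty i = β then v j i else 0

/-- The map of one block. -/
def psiB (v : Fin 3 → Fin 91 → ℝ) : Wd → ℝ
  | .inl e => if odd3 e = true then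
      max 0 (max (min (TT v 0 (e 0)) (TT v 1 (e 1)))
          (max (min (TT v 0 (e 0)) (TT v 2 (e 2))) (min (TT v 1 (e 1)) (TT v 2 (e 2))))
        - max (TT v 0 (!e 0)) (max (TT v 1 (!e 1)) (TT v 2 (!e 2)))) else 0
  | .inr (.inl p) => max 0 (v p.1 p.2 - max (∑ i, v (p.1 + 1) i) (∑ i, v (p.1 + 2) i))
  | .inr (.inr τ) => if odd3 (fun j => ty (τ j)) = true then 0
      else min (v 0 (τ 0)) (min (v 1 (τ 1)) (v 2 (τ 2)))

/-- The map of `n` blocks. -/
def psi {n : ℕ} (x : Fin n × Fin 3 → Fin 91 → ℝ) : Fin n × Wd → ℝ :=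
  fun p => psiB (fun j => x (p.1, j)) p.2

/-- Nonnegative rainbow weights on one block. -/
def BlockOK (v : Fin 3 → Fin 91 → ℝ) : Prop :=
  (∀ j i, 0 ≤ v j i) ∧ ∀ j i i', v j i ≠ 0 → v j i' ≠ 0 → i = i'

/-- No triple coordinate of block `b` is used. -/
def NoH {n : ℕ} (x : Fin n × Wd → ℝ) (b : Fin n) : Prop := ∀ τ, x (b, .inr (.inr τ)) = 0

/-- Points of the cube with at most one centre, one row, one triple per block and at least `k` blocks
without triple. -/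
def Sig (n k : ℕ) : Set (Fin n × Wd → ℝ) :=
  {x | (∀ p, 0 ≤ x p ∧ x p ≤ 1) ∧
    (∀ b e e', x (b, .inl e) ≠ 0 → x (b, .inl e') ≠ 0 → e = e') ∧
    (∀ b p p', x (b, .inr (.inl p)) ≠ 0 → x (b, .inr (.inl p')) ≠ 0 → p = p') ∧
    (∀ b τ τ', x (b, .inr (.inr τ)) ≠ 0 → x (b, .inr (.inr τ')) ≠ 0 → τ = τ') ∧
    ∃ s : Finset (Fin n), k ≤ s.card ∧ ∀ b ∈ s, NoH x b}

/-- Row `i` of class `j` of block `b` is visible in `x`. -/
def Vis {n : ℕ} (x : Fin n × Wd → ℝ) (b : Fin n) (j : Fin 3) (i : Fin 91) : Prop :=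
  x (b, .inr (.inl (j, i))) ≠ 0 ∨ ∃ τ : Fin 3 → Fin 91, τ j = i ∧ x (b, .inr (.inr τ)) ≠ 0

/-- No row is visible in both points. -/
def Cmp {n : ℕ} (x x' : Fin n × Wd → ℝ) : Prop := ∀ b j i, ¬ (Vis x b j i ∧ Vis x' b j i)

open Classical in
/-- Size of the support. -/
def sp {V : Type} [Fintype V] (x : V → ℝ) : ℕ := (univ.filter (fun v => x v ≠ 0)).card

/-- A generic map of the cube. -/
def GenOK {V : Type} [Fintype V] (D Q : ℕ) (f : (V → ℝ) → Fin D → ℝ) : Prop :=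
  Continuous f ∧
  (∀ x x', (∀ v, 0 ≤ x v ∧ x v ≤ 1) → (∀ v, 0 ≤ x' v ∧ x' v ≤ 1) → sp (x - x') ≤ D → f x = f x' → x = x') ∧
  ∀ (S : Finset (V → ℝ)) (z : Fin D → ℝ), S.card ≤ Q → (∀ x ∈ S, f x = z) →
    D * S.card ≤ ∑ x ∈ S, sp x + D

/-! ### Labelings of finite graphs -/

/-- The labeling is non constant on every non constant `r`-tuple of pairwise related vertices. -/
def Adm (r : ℕ) {m : ℕ} (G0 : Fin m → Fin m → Prop) (l : Fin m → Fin m) : Prop :=
  ∀ w : Fin r → Fin m, (∀ c c', c ≠ c' → G0 (w c) (w c')) → (∃ c c', w c ≠ w c') →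
    ∃ c c', l (w c) ≠ l (w c')

/-- Invariant integer weights of total one on admissible labelings. -/
def HasW (r : ℕ) {m : ℕ} (G0 : Fin m → Fin m → Prop) : Prop :=
  ∃ W : (Fin m → Fin m) → ℤ, (∀ l, W l ≠ 0 → Adm r G0 l) ∧
    (∀ g : Fin m → Fin m, Function.Bijective g → (∀ a b, G0 (g a) (g b) ↔ G0 a b) →
      ∀ l, W (l ∘ g) = W l) ∧ ∑ l, W l = 1

/-- The combinatorial property of the fibres. -/
def Gam {m : ℕ} (G0 : Fin m → Fin m → Prop) : Prop :=
  m ≤ 273 ∧ (∀ a b, G0 a a → G0 b b → a = b) ∧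
    ∀ O : Finset (Fin m), ∃ I : Finset (Fin m), I ⊆ O ∧
      (∀ a ∈ I, ∀ b ∈ I, a ≠ b → ¬ G0 a b) ∧ O.card ≤ 91 * I.card + 3

open Classical in
/-- Number of vertices plus number of related pairs. -/
def rk {m : ℕ} (G0 : Fin m → Fin m → Prop) : ℕ :=
  m + (univ.filter (fun p : Fin m × Fin m => G0 p.1 p.2)).card

/-! ### Separating systems -/

/-- The tuples in `K` are separated by `u` functions which may depend on the common value and on a
fixed point of a bounded map. -/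
def PP {X Y : Type} [MetricSpace X] [MetricSpace Y] {r : ℕ} (f : X → Y) (u : ℕ)
    (K : Set (Fin r → X)) : Prop :=
  ∃ (μ υ : Type) (_ : Fintype μ) (_ : Fintype υ) (φ : Y → (μ → ℝ) → (μ → ℝ))
    (p : Y → (μ → ℝ) → X → (υ → ℝ)) (R : ℝ), Fintype.card υ ≤ u ∧
    Continuous (fun q : Y × (μ → ℝ) => φ q.1 q.2) ∧
    Continuous (fun q : Y × (μ → ℝ) × X => p q.1 q.2.1 q.2.2) ∧
    (∀ z ζ, ‖φ z ζ‖ ≤ R) ∧ (∀ z ζ x, ‖p z ζ x‖ ≤ R) ∧
    ∀ w ∈ K, ∀ z ζ, (∀ c, f (w c) = z) → φ z ζ = ζ → ∃ c c', p z ζ (w c) ≠ p z ζ (w c')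

/-- `x` enumerates the fibre of `f` on `Q` over `z`, and identifies `G` with `G0`. -/
def Frame {X Y : Type} (f : X → Y) (Q : Set X) (G : X → X → Prop) (z : Y) {m : ℕ}
    (G0 : Fin m → Fin m → Prop) (x : Fin m → X) : Prop :=
  Function.Injective x ∧ (∀ a, x a ∈ Q ∧ f (x a) = z) ∧ (∀ y ∈ Q, f y = z → ∃ a, x a = y) ∧
    ∀ a b, G (x a) (x b) ↔ G0 a b

/-- `f` is locally injective on `Q`. -/
def LocInj {X Y : Type} [MetricSpace X] (f : X → Y) (Q : Set X) : Prop :=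
  ∀ x ∈ Q, ∃ ε : ℝ, 0 < ε ∧ ∀ x' ∈ Q, ∀ x'' ∈ Q, dist x' x < ε → dist x'' x < ε → f x' = f x'' → x' = x''

/-- A non constant tuple of pairwise related points of `Sg` in one fibre. -/
def Wit {X Y : Type} {r : ℕ} (f : X → Y) (Sg : Set X) (G : X → X → Prop) (w : Fin r → X) : Prop :=
  (∀ c, w c ∈ Sg) ∧ (∀ c c', f (w c) = f (w c')) ∧ (∀ c c', c ≠ c' → G (w c) (w c')) ∧
    ∃ c c', w c ≠ w c'

/-- A locally constant cocycle on `Z` for the sets `U t`, with values in the self maps of `Ω`. -/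
structure Cocy {Y T Ω : Type} [TopologicalSpace Y] (Z : Set Y) (U : T → Set Y)
    (g : T → T → Y → Ω → Ω) : Prop where
  refl : ∀ t, ∀ z ∈ Z, z ∈ U t → ∀ ω, g t t z ω = ω
  trans : ∀ t t' t'', ∀ z ∈ Z, z ∈ U t → z ∈ U t' → z ∈ U t'' → ∀ ω,
    g t' t'' z (g t t' z ω) = g t t'' z ω
  lc : ∀ t t', ∀ z ∈ Z, z ∈ U t → z ∈ U t' → ∀ ω, ∀ᶠ z' in nhdsWithin z Z, g t t' z' ω = g t t' z ω

/-- A continuous choice of a branch on the set `Fix`, read in the charts `U t`. -/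
structure Branch {Y P T Ω : Type} [TopologicalSpace Y] [TopologicalSpace P] (U : T → Set Y)
    (g : T → T → Y → Ω → Ω) (Fix : Set (Y × P)) (β : T → Y × P → Ω) : Prop where
  eqv : ∀ q ∈ Fix, ∀ t t', q.1 ∈ U t → q.1 ∈ U t' → β t' q = g t t' q.1 (β t q)
  lc : ∀ q ∈ Fix, ∀ t, q.1 ∈ U t → ∀ᶠ q' in nhdsWithin q Fix, β t q' = β t q

/-! ### Toolbox -/

theorem Cocy.bij {Y T Ω : Type} [TopologicalSpace Y] {Z : Set Y} {U : T → Set Y}
    {g : T → T → Y → Ω → Ω} (h : Cocy Z U g) {t t' : T} {z : Y} (hz : z ∈ Z) (ht : z ∈ U t)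
    (ht' : z ∈ U t') : Function.Bijective (g t t' z) := by
  refine Function.bijective_iff_has_inverse.2 ⟨g t' t z, fun ω => ?_, fun ω => ?_⟩
  · rw [h.trans t t' t z hz ht ht' ht, h.refl t z hz ht]
  · rw [h.trans t' t t' z hz ht' ht ht', h.refl t' z hz ht']

theorem Raw.comp {ι ι' : Type} {r : ℕ} {y : Fin r → ι → Fin r → ℝ} (h : Raw y) (k : ι' → ι) :
    Raw (fun c j => y c (k j)) :=
  ⟨fun c j i => h.nn c (k j) i, fun c j i i' => h.rb c (k j) i i', fun c c' j i => h.dj c c' (k j) i⟩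

theorem Raw.scale {ι : Type} {r : ℕ} {y : Fin r → ι → Fin r → ℝ} (h : Raw y) (a : Fin r → ℝ)
    (ha : ∀ c, 0 ≤ a c) : Raw (fun c => a c • y c) := by
  refine ⟨fun c j i => ?_, fun c j i i' h1 h2 => ?_, fun c c' j i h1 h2 => ?_⟩
  · exact mul_nonneg (ha c) (h.nn c j i)
  · exact h.rb c j i i' (right_ne_zero_of_mul h1) (right_ne_zero_of_mul h2)
  · exact h.dj c c' j i (right_ne_zero_of_mul h1) (right_ne_zero_of_mul h2)

theorem tot_sum {ι σ : Type} [Fintype ι] [Fintype σ] {r : ℕ} (x : ι ⊕ σ → Fin r → ℝ) :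
    tot x = tot (fun j => x (.inl j)) + tot (fun s => x (.inr s)) := by
  simp only [tot, Fintype.sum_sum_type]

theorem tot_smul {ι : Type} [Fintype ι] {r : ℕ} (a : ℝ) (x : ι → Fin r → ℝ) :
    tot (a • x) = a * tot x := by
  simp only [tot, Pi.smul_apply, smul_eq_mul, Finset.mul_sum]

theorem tot_nonneg {ι : Type} [Fintype ι] {r : ℕ} {x : ι → Fin r → ℝ} (h : ∀ j i, 0 ≤ x j i) :
    0 ≤ tot x := Finset.sum_nonneg fun j _ => Finset.sum_nonneg fun i _ => h j i

theorem row_le_tot {ι : Type} [Fintype ι] {r : ℕ} {x : ι → Fin r → ℝ} (h : ∀ j i, 0 ≤ x j i)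
    (j : ι) : ∑ i, x j i ≤ tot x :=
  Finset.single_le_sum (f := fun j => ∑ i, x j i)
    (fun j _ => Finset.sum_nonneg fun i _ => h j i) (Finset.mem_univ j)

theorem le_tot {ι : Type} [Fintype ι] {r : ℕ} {x : ι → Fin r → ℝ} (h : ∀ j i, 0 ≤ x j i)
    (j : ι) (i : Fin r) : x j i ≤ tot x :=
  (Finset.single_le_sum (f := fun i => x j i) (fun i _ => h j i) (Finset.mem_univ i)).trans
    (row_le_tot h j)

theorem continuous_tot {ι : Type} [Fintype ι] {r : ℕ} :
    Continuous (tot : (ι → Fin r → ℝ) → ℝ) := by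
  unfold tot; fun_prop

theorem norm_le_tot {ι : Type} [Fintype ι] {r : ℕ} {x : ι → Fin r → ℝ} (h : ∀ j i, 0 ≤ x j i) :
    ‖x‖ ≤ tot x := by
  refine (pi_norm_le_iff_of_nonneg (tot_nonneg h)).2 fun j => ?_
  refine (pi_norm_le_iff_of_nonneg (tot_nonneg h)).2 fun i => ?_
  rw [Real.norm_eq_abs, abs_of_nonneg (h j i)]
  exact le_tot h j i

theorem Tup.mem_cube {ι : Type} [Fintype ι] {r : ℕ} {y : Fin r → ι → Fin r → ℝ} (h : Tup y)
    (c : Fin r) (j : ι) (i : Fin r) : 0 ≤ y c j i ∧ y c j i ≤ 1 :=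
  ⟨h.1.nn c j i, (le_tot (h.1.nn c) j i).trans (h.2 c).le⟩

/-- Pigeonhole: columns which use a row of `Rw` in class `j` are at most as many as these rows. -/
theorem Raw.card_le {ι : Type} {r : ℕ} {y : Fin r → ι → Fin r → ℝ} (h : Raw y) (j : ι)
    (Cs Rw : Finset (Fin r)) (hc : ∀ c ∈ Cs, ∃ i ∈ Rw, y c j i ≠ 0) : Cs.card ≤ Rw.card := by
  classical
  choose! k hk hk' using hc
  refine Finset.card_le_card_of_injOn k (fun c hcs => hk c hcs) fun c hcs c' hcs' e => ?_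
  exact h.dj c c' j (k c) (hk' c hcs) (by rw [e]; exact hk' c' hcs')

theorem continuous_sgP {r : ℕ} : Continuous (sgP : (Fin r → ℝ) → ℝ) := by
  unfold sgP
  refine continuous_finsetSum _ fun i _ => ?_
  split_ifs <;> fun_prop

theorem continuous_sgN {r : ℕ} : Continuous (sgN : (Fin r → ℝ) → ℝ) := by
  unfold sgN
  refine continuous_finsetSum _ fun i _ => ?_
  split_ifs <;> fun_prop

theorem continuous_sg {r : ℕ} : Continuous (sg : (Fin r → ℝ) → ℝ) :=
  continuous_sgP.sub continuous_sgN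

theorem sgP_add_sgN {r : ℕ} (v : Fin r → ℝ) : sgP v + sgN v = ∑ i, v i := by
  rw [sgP, sgN, ← Finset.sum_add_distrib]
  refine Finset.sum_congr rfl fun i _ => ?_
  split_ifs <;> simp

theorem sgP_nonneg {r : ℕ} {v : Fin r → ℝ} (h : ∀ i, 0 ≤ v i) : 0 ≤ sgP v :=
  Finset.sum_nonneg fun i _ => by split_ifs; exacts [h i, le_rfl]

theorem sgN_nonneg {r : ℕ} {v : Fin r → ℝ} (h : ∀ i, 0 ≤ v i) : 0 ≤ sgN v :=
  Finset.sum_nonneg fun i _ => by split_ifs; exacts [le_rfl, h i]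

theorem exists_of_sgP_ne {r : ℕ} {v : Fin r → ℝ} (h : sgP v ≠ 0) : ∃ i : Fin r, i.val < 2 ∧ v i ≠ 0 := by
  obtain ⟨i, -, hi⟩ := Finset.exists_ne_zero_of_sum_ne_zero h
  by_cases h2 : i.val < 2
  · exact ⟨i, h2, by simpa [h2] using hi⟩
  · simp [h2] at hi

theorem exists_of_sgN_ne {r : ℕ} {v : Fin r → ℝ} (h : sgN v ≠ 0) : ∃ i : Fin r, ¬ i.val < 2 ∧ v i ≠ 0 := by
  obtain ⟨i, -, hi⟩ := Finset.exists_ne_zero_of_sum_ne_zero h
  by_cases h2 : i.val < 2
  · simp [h2] at hi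
  · exact ⟨i, h2, by simpa [h2] using hi⟩

theorem sgP_or_sgN {r : ℕ} {v : Fin r → ℝ} (hrb : ∀ i i', v i ≠ 0 → v i' ≠ 0 → i = i') :
    sgP v = 0 ∨ sgN v = 0 := by
  by_contra hcon
  push Not at hcon
  obtain ⟨i, hi, hv⟩ := exists_of_sgP_ne hcon.1
  obtain ⟨i', hi', hv'⟩ := exists_of_sgN_ne hcon.2
  exact hi' (hrb i i' hv hv' ▸ hi)

/-- In a rainbow column the weight of a class is the absolute value of its signed weight. -/
theorem sum_eq_abs_sg {r : ℕ} {v : Fin r → ℝ} (h : ∀ i, 0 ≤ v i)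
    (hrb : ∀ i i', v i ≠ 0 → v i' ≠ 0 → i = i') : ∑ i, v i = |sg v| := by
  rw [← sgP_add_sgN, sg]
  rcases sgP_or_sgN hrb with h0 | h0
  · rw [h0, zero_add, zero_sub, abs_neg, abs_of_nonneg (sgN_nonneg h)]
  · rw [h0, add_zero, sub_zero, abs_of_nonneg (sgP_nonneg h)]

theorem sgN_eq_max {r : ℕ} {v : Fin r → ℝ} (h : ∀ i, 0 ≤ v i)
    (hrb : ∀ i i', v i ≠ 0 → v i' ≠ 0 → i = i') : sgN v = max (- sg v) 0 := by
  rw [sg]
  rcases sgP_or_sgN hrb with h0 | h0
  · rw [h0, zero_sub, neg_neg, max_eq_left (sgN_nonneg h)]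
  · rw [h0, sub_zero, max_eq_right (neg_nonpos.2 (sgP_nonneg h))]

theorem card_lt_two_le (r : ℕ) : (univ.filter (fun i : Fin r => i.val < 2)).card ≤ 2 := by
  calc _ ≤ (Finset.range 2).card := by
        refine Finset.card_le_card_of_injOn (fun i => i.val) (fun i hi => ?_) fun i _ i' _ e => Fin.ext e
        simpa using hi
    _ = 2 := Finset.card_range 2

theorem card_not_lt_two (r : ℕ) (hr : 2 ≤ r) :
    (univ.filter (fun i : Fin r => ¬ i.val < 2)).card + 2 ≤ r := by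
  have h1 := Finset.card_filter_add_card_filter_not (s := (univ : Finset (Fin r))) (fun i : Fin r => i.val < 2)
  have h2 : 2 ≤ (univ.filter (fun i : Fin r => i.val < 2)).card := by
    have : ({⟨0, by omega⟩, ⟨1, by omega⟩} : Finset (Fin r)) ⊆ univ.filter (fun i : Fin r => i.val < 2) := by
      intro i hi
      simp only [Finset.mem_insert, Finset.mem_singleton] at hi
      rcases hi with rfl | rfl <;> simp
    refine le_trans (le_of_eq ?_) (Finset.card_le_card this)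
    rw [Finset.card_pair]
    simp [Fin.ext_iff]
  simp only [Finset.card_univ, Fintype.card_fin] at h1
  omega

/-- The signed weight of a class cannot be positive in all columns but one. -/
theorem Raw.pin_pos {ι : Type} {r : ℕ} (hr : 4 ≤ r) {y : Fin r → ι → Fin r → ℝ} (h : Raw y) (j : ι)
    (c0 : Fin r) (hp : ∀ c, c ≠ c0 → 0 < sg (y c j)) : False := by
  have h1 := h.card_le j (univ.erase c0) (univ.filter (fun i : Fin r => i.val < 2)) (fun c hc => by
    have h2 := hp c (Finset.ne_of_mem_erase hc)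
    have h3 := sgN_nonneg (h.nn c j)
    obtain ⟨i, hi, hv⟩ := exists_of_sgP_ne (v := y c j) (by rw [sg] at h2; intro h0; linarith)
    exact ⟨i, by simpa using hi, hv⟩)
  have h4 := card_lt_two_le r
  rw [Finset.card_erase_of_mem (Finset.mem_univ _), Finset.card_univ, Fintype.card_fin] at h1
  omega

/-- The signed weight of a class cannot be negative in all columns but one. -/
theorem Raw.pin_neg {ι : Type} {r : ℕ} (hr : 4 ≤ r) {y : Fin r → ι → Fin r → ℝ} (h : Raw y) (j : ι)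
    (c0 : Fin r) (hp : ∀ c, c ≠ c0 → sg (y c j) < 0) : False := by
  have h1 := h.card_le j (univ.erase c0) (univ.filter (fun i : Fin r => ¬ i.val < 2)) (fun c hc => by
    have h2 := hp c (Finset.ne_of_mem_erase hc)
    have h3 := sgP_nonneg (h.nn c j)
    obtain ⟨i, hi, hv⟩ := exists_of_sgN_ne (v := y c j) (by rw [sg] at h2; intro h0; linarith)
    exact ⟨i, by simpa using hi, hv⟩)
  have h4 := card_not_lt_two r (by omega)
  rw [Finset.card_erase_of_mem (Finset.mem_univ _), Finset.card_univ, Fintype.card_fin] at h1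
  omega

/-- For a row `(j, i)` there is a column `c0` such that all other columns vanish on it. -/
theorem Raw.exists_col {ι : Type} {r : ℕ} {y : Fin r → ι → Fin r → ℝ} (h : Raw y) (j : ι) (i : Fin r) :
    ∃ c0, ∀ c, c ≠ c0 → y c j i = 0 := by
  by_cases h1 : ∃ c0, y c0 j i ≠ 0
  · obtain ⟨c0, hc0⟩ := h1
    exact ⟨c0, fun c hc => by by_contra h2; exact hc (h.dj c c0 j i h2 hc0)⟩
  · push Not at h1
    exact ⟨i, fun c _ => h1 c⟩

theorem isClosed_raw {ι : Type} {r : ℕ} : IsClosed {y : Fin r → ι → Fin r → ℝ | Raw y} := by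
  have e : {y : Fin r → ι → Fin r → ℝ | Raw y} =
      (⋂ c, ⋂ j, ⋂ i, {y | 0 ≤ y c j i}) ∩
      ((⋂ c, ⋂ j, ⋂ i, ⋂ i', ⋂ (_ : i ≠ i'), {y | y c j i * y c j i' = 0}) ∩
      (⋂ c, ⋂ c', ⋂ j, ⋂ i, ⋂ (_ : c ≠ c'), {y | y c j i * y c' j i = 0})) := by
    ext y
    simp only [Set.mem_ofPred_eq, Set.mem_inter_iff, Set.mem_iInter, mul_eq_zero]
    constructor
    · intro h
      refine ⟨h.nn, fun c j i i' hne => ?_, fun c c' j i hne => ?_⟩
      · by_contra h0; push Not at h0; exact hne (h.rb c j i i' h0.1 h0.2)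
      · by_contra h0; push Not at h0; exact hne (h.dj c c' j i h0.1 h0.2)
    · rintro ⟨h1, h2, h3⟩
      refine ⟨h1, fun c j i i' a b => ?_, fun c c' j i a b => ?_⟩
      · by_contra hne; rcases h2 c j i i' hne with h0 | h0; exacts [a h0, b h0]
      · by_contra hne; rcases h3 c c' j i hne with h0 | h0; exacts [a h0, b h0]
  rw [e]
  refine IsClosed.inter ?_ (IsClosed.inter ?_ ?_)
  · exact isClosed_iInter fun c => isClosed_iInter fun j => isClosed_iInter fun i =>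
      isClosed_le continuous_const (by fun_prop)
  · exact isClosed_iInter fun c => isClosed_iInter fun j => isClosed_iInter fun i =>
      isClosed_iInter fun i' => isClosed_iInter fun _ => isClosed_eq (by fun_prop) continuous_const
  · exact isClosed_iInter fun c => isClosed_iInter fun c' => isClosed_iInter fun j =>
      isClosed_iInter fun i => isClosed_iInter fun _ => isClosed_eq (by fun_prop) continuous_const

theorem isCompact_tup {ι : Type} [Fintype ι] {r : ℕ} :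
    IsCompact {y : Fin r → ι → Fin r → ℝ | Tup y} := by
  have hc : IsClosed {y : Fin r → ι → Fin r → ℝ | Tup y} := by
    have e : {y : Fin r → ι → Fin r → ℝ | Tup y} = {y | Raw y} ∩ ⋂ c, {y | tot (y c) = 1} := by
      ext y; simp [Tup]
    rw [e]
    exact isClosed_raw.inter (isClosed_iInter fun c =>
      isClosed_eq (continuous_tot.comp (continuous_apply c)) continuous_const)
  refine (isCompact_closedBall (0 : Fin r → ι → Fin r → ℝ) 1).of_isClosed_subset hc fun y hy => ?_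
  rw [mem_closedBall_zero_iff]
  refine (pi_norm_le_iff_of_nonneg zero_le_one).2 fun c => ?_
  exact (norm_le_tot (hy.1.nn c)).trans (hy.2 c).le

/-- A continuous counterexample has a margin. -/
theorem margin {ι : Type} [Fintype ι] {r : ℕ} {A : Type} [NormedAddCommGroup A]
    (f : (ι → Fin r → ℝ) → A) (hf : Continuous f) (h : ∀ y, Tup y → ∃ c c', f (y c) ≠ f (y c')) :
    ∃ η : ℝ, 0 < η ∧ ∀ y, Tup y → ∃ c c', η ≤ ‖f (y c) - f (y c')‖ := by
  have hF : Continuous (fun y : Fin r → ι → Fin r → ℝ =>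
      ‖(fun p : Fin r × Fin r => f (y p.1) - f (y p.2))‖) := by fun_prop
  obtain ⟨η, hη, hle⟩ := isCompact_tup.exists_forall_le' (hF.continuousOn) (a := 0) (fun y hy => by
    obtain ⟨c, c', hne⟩ := h y hy
    rw [norm_pos_iff]
    intro h0
    exact hne (sub_eq_zero.1 (congrFun h0 (c, c'))))
  refine ⟨η, hη, fun y hy => ?_⟩
  by_contra hcon
  push Not at hcon
  have := (pi_norm_lt_iff (x := fun p : Fin r × Fin r => f (y p.1) - f (y p.2)) hη).2
    (fun p => hcon p.1 p.2)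
  exact absurd (hle y hy) (not_le.2 this)

/-- Tietze extension with a bound. -/
theorem tietze {X E : Type} [MetricSpace X] [NormedAddCommGroup E] [NormedSpace ℝ E]
    [FiniteDimensional ℝ E] {s : Set X} (hs : IsClosed s) (f : X → E) (hf : ContinuousOn f s)
    (R : ℝ) (hR : 0 ≤ R) (hb : ∀ x ∈ s, ‖f x‖ ≤ R) :
    ∃ g : X → E, Continuous g ∧ (∀ x, ‖g x‖ ≤ R) ∧ ∀ x ∈ s, g x = f x := by
  let f0 : BoundedContinuousFunction s E :=
    BoundedContinuousFunction.ofNormedAddCommGroup (fun x : s => f x) hf.domRestrict R (fun x => hb x x.2)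
  obtain ⟨g, hg, hge⟩ := BoundedContinuousFunction.exists_norm_eq_domRestrict_eq hs ℝ f0
  refine ⟨g, g.continuous, fun x => ?_, fun x hx => ?_⟩
  · refine (g.norm_coe_le_norm x).trans ?_
    rw [hg]
    exact BoundedContinuousFunction.norm_ofNormedAddCommGroup_le _ hR _
  · have := congrArg (fun k : BoundedContinuousFunction s E => k ⟨x, hx⟩) hge
    simpa [f0] using this

/-- `sgP` as a linear map. -/
def sgPL (r : ℕ) : (Fin r → ℝ) →ₗ[ℝ] ℝ := ∑ i : Fin r, if i.val < 2 then LinearMap.proj i else 0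
/-- `sgN` as a linear map. -/
def sgNL (r : ℕ) : (Fin r → ℝ) →ₗ[ℝ] ℝ := ∑ i : Fin r, if i.val < 2 then 0 else LinearMap.proj i

theorem sgPL_apply {r : ℕ} (v : Fin r → ℝ) : sgPL r v = sgP v := by
  rw [sgPL, sgP, LinearMap.sum_apply]
  refine Finset.sum_congr rfl fun i _ => ?_
  split_ifs <;> simp

theorem sgNL_apply {r : ℕ} (v : Fin r → ℝ) : sgNL r v = sgN v := by
  rw [sgNL, sgN, LinearMap.sum_apply]
  refine Finset.sum_congr rfl fun i _ => ?_
  split_ifs <;> simp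

theorem PP.empty {X Y : Type} [MetricSpace X] [MetricSpace Y] {r : ℕ} (f : X → Y) (u : ℕ) :
    PP f u (∅ : Set (Fin r → X)) :=
  ⟨Empty, Empty, inferInstance, inferInstance, fun _ _ => 0, fun _ _ _ => 0, 0, by simp,
    continuous_const, continuous_const, by simp, by simp, fun w hw => absurd hw (Set.notMem_empty w)⟩

theorem PP.mono {X Y : Type} [MetricSpace X] [MetricSpace Y] {r : ℕ} {f : X → Y} {u u' : ℕ}
    {K K' : Set (Fin r → X)} (h : PP f u K) (hu : u ≤ u') (hK : K' ⊆ K) : PP f u' K' := by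
  obtain ⟨μ, υ, i1, i2, φ, p, R, h1, h2, h3, h4, h5, h6⟩ := h
  exact ⟨μ, υ, i1, i2, φ, p, R, h1.trans hu, h2, h3, h4, h5, fun w hw => h6 w (hK hw)⟩

open Classical in
theorem sp_def {V : Type} [Fintype V] (x : V → ℝ) :
    sp x = (univ.filter (fun v => x v ≠ 0)).card := rfl

/-- Supports grow near a point. -/
theorem eventually_ne_zero {V : Type} [Fintype V] (x : V → ℝ) :
    ∀ᶠ x' in nhds x, ∀ v, x v ≠ 0 → x' v ≠ 0 := by
  refine Filter.eventually_all.2 fun v => ?_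
  by_cases h : x v = 0
  · exact Filter.Eventually.of_forall fun _ h' => absurd h h'
  · exact ((continuous_apply v).continuousAt.eventually_ne h).mono fun _ h' _ => h'

theorem isClosed_sp_le {V : Type} [Fintype V] (k : ℕ) : IsClosed {x : V → ℝ | sp x ≤ k} := by
  rw [← isOpen_compl_iff, isOpen_iff_mem_nhds]
  intro x hx
  refine (eventually_ne_zero x).mono fun x' h hx' => hx ?_
  have hx'' : sp x' ≤ k := hx'
  refine le_trans (b := sp x') ?_ hx''
  rw [sp_def, sp_def]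
  refine Finset.card_le_card fun v hv => ?_
  simp only [Finset.mem_filter, Finset.mem_univ, true_and] at hv ⊢
  exact h v hv

end

end Pool.Agent.P.MP_9ca318_co.BL
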