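import Pool.Agent.P.MP_9ca318_co.BL.Iface

/-! A realised homogeneous approximation of a continuous map. -/

set_option autoImplicit false

namespace Pool.Agent.P.MP_9ca318_co.BL

open Finset

namespace TAPPROXA

theorem net_realz (h1 : S_RZLIN) (h2 : S_RZADD) (h3 : S_RZMAP) (h4 : S_RELU) {r : ℕ} {ι : Type}
    [Fintype ι] (hr : 4 ≤ r) {g : (ι → Fin r → ℝ) → ℝ} (hg : Net g) : Realz g := by
  induction hg with
  | zero => exact h1 r ι ℝ 0
  | coord j i =>
    exact h1 r ι ℝ ((LinearMap.proj i : (Fin r → ℝ) →ₗ[ℝ] ℝ).comp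
      (LinearMap.proj j : (ι → Fin r → ℝ) →ₗ[ℝ] (Fin r → ℝ)))
  | add _ _ ih ih' => exact h2 r ι ℝ _ _ ih ih'
  | smul a _ ih => exact h3 r ι ℝ ℝ (a • ContinuousLinearMap.id ℝ ℝ) _ ih
  | relu j i j' i' _ a b ih => exact h4 r ι _ j i j' i' hr ih a b

theorem net_hom {r : ℕ} {ι : Type} {g : (ι → Fin r → ℝ) → ℝ} (hg : Net g) {t : ℝ} (ht : 0 ≤ t)
    (x : ι → Fin r → ℝ) : g (t • x) = t * g x := by
  induction hg with
  | zero => simp
  | coord j i => rfl
  | add _ _ ih ih' => beta_reduce; rw [ih, ih', mul_add]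
  | smul a _ ih => beta_reduce; rw [ih]; ring
  | relu j i j' i' _ a b ih => beta_reduce; rw [ih, mul_max_of_nonneg _ _ ht, mul_zero]

theorem realz_sum (h1 : S_RZLIN) (h2 : S_RZADD) {r : ℕ} {ι : Type} [Fintype ι] {A : Type}
    [NormedAddCommGroup A] [NormedSpace ℝ A] {K : Type} (s : Finset K)
    (g : K → (ι → Fin r → ℝ) → A) (hg : ∀ k, Realz (g k)) : Realz fun x => ∑ k ∈ s, g k x := by
  classical
  induction s using Finset.induction_on with
  | empty => exact h1 r ι A 0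
  | insert k s hk ih =>
    simp only [Finset.sum_insert hk]
    exact h2 r ι A _ _ (hg k) ih

end TAPPROXA

open TAPPROXA in
theorem s_approx (h1 : S_RZLIN) (h2 : S_RZADD) (h3 : S_RZMAP) (h4 : S_RELU) (h5 : S_DENS) :
    S_APPROX := by
  intro r ι _ A _ _ _ f ε hr hf hε
  let b := Module.finBasis ℝ A
  have hS : 0 ≤ ∑ k, ‖b k‖ := Finset.sum_nonneg fun k _ => norm_nonneg _
  have hS1 : 0 < ∑ k, ‖b k‖ + 1 := by linarith
  have hd := fun k => h5 r ι (fun x => b.coord k (f x)) (ε / (∑ k, ‖b k‖ + 1))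
    ((LinearMap.continuous_of_finiteDimensional (b.coord k)).comp hf) (div_pos hε hS1)
  choose g hg hg' using hd
  refine ⟨fun x => ∑ k, g k x • b k, realz_sum h1 h2 _ (fun k x => g k x • b k) fun k => ?_,
    fun t x ht => ?_, fun x hx hx1 => ?_⟩
  · exact h3 r ι ℝ A (ContinuousLinearMap.toSpanSingleton ℝ (b k)) _
      (net_realz h1 h2 h3 h4 hr (hg k))
  · rw [Finset.smul_sum]
    exact Finset.sum_congr rfl fun k _ => by rw [net_hom (hg k) ht, mul_smul]
  · have e : (∑ k, g k x • b k) - f x = ∑ k, (g k x - b.coord k (f x)) • b k := by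
      conv_lhs => rw [← b.sum_repr (f x)]
      rw [← Finset.sum_sub_distrib]
      exact Finset.sum_congr rfl fun k _ => by rw [sub_smul]; rfl
    rw [e]
    calc ‖∑ k, (g k x - b.coord k (f x)) • b k‖
        ≤ ∑ k, ε / (∑ k, ‖b k‖ + 1) * ‖b k‖ := by
          refine norm_sum_le_of_le _ fun k _ => ?_
          rw [norm_smul, Real.norm_eq_abs]
          exact mul_le_mul_of_nonneg_right (hg' k x hx hx1) (norm_nonneg _)
      _ = ε / (∑ k, ‖b k‖ + 1) * ∑ k, ‖b k‖ := by rw [Finset.mul_sum]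
      _ ≤ ε / (∑ k, ‖b k‖ + 1) * (∑ k, ‖b k‖ + 1) :=
          mul_le_mul_of_nonneg_left (by linarith) (div_pos hε hS1).le
      _ = ε := div_mul_cancel₀ _ hS1.ne'

end Pool.Agent.P.MP_9ca318_co.BL
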