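import Pool.Agent.P.MP_9ca318_co.BL.Iface

set_option autoImplicit false

namespace Pool.Agent.P.MP_9ca318_co.BL

open Finset

namespace TBANDA

theorem ev_le {X : Type} [TopologicalSpace X] (band : X → ℕ) (hb : ∀ b, IsClosed {x | band x ≤ b})
    (x0 : X) : ∀ᶠ x in nhds x0, band x0 ≤ band x := by
  rcases Nat.eq_zero_or_pos (band x0) with h0 | h0
  · exact Filter.Eventually.of_forall fun x => by omega
  · have : x0 ∈ {x | band x ≤ band x0 - 1}ᶜ := by
      simp only [Set.mem_compl_iff, Set.mem_ofPred_eq]; omega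
    refine Filter.mem_of_superset ((hb _).isOpen_compl.mem_nhds this) fun x hx => ?_
    simp only [Set.mem_compl_iff, Set.mem_ofPred_eq] at hx ⊢
    omega

end TBANDA

open TBANDA in
theorem s_band : S_BAND := by
  intro X Y _ r f Sg band s L hb hloc hL hLs
  have hev : ∀ w0 ∈ L, ∀ᶠ w in nhdsWithin w0 L, ∀ c, band (w c) = band (w0 c) := by
    intro w0 hw0
    have h1 : ∀ᶠ w in nhds w0, ∀ c, band (w0 c) ≤ band (w c) :=
      Filter.eventually_all.2 fun c => (continuous_apply c).continuousAt.eventually (ev_le band hb (w0 c))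
    filter_upwards [nhdsWithin_le_nhds h1, self_mem_nhdsWithin] with w h2 hw c
    exact ((Finset.sum_eq_sum_iff_of_le (s := univ) (fun c _ => h2 c)).1
      ((hLs w0 hw0).2.trans (hLs w hw).2.symm) c (Finset.mem_univ c)).symm
  have hcl : ∀ c b, IsCompact {w | w ∈ L ∧ band (w c) ≠ b} := by
    intro c b
    refine hL.of_isClosed_subset ?_ fun w hw => hw.1
    rw [← closure_subset_iff_isClosed]
    intro w hw
    have hwL : w ∈ L := hL.isClosed.closure_subset (closure_mono (fun w hw => hw.1) hw)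
    refine ⟨hwL, fun h0 => ?_⟩
    rw [mem_closure_iff_frequently] at hw
    have h3 := eventually_nhdsWithin_iff.1 (hev w hwL)
    obtain ⟨w', h4, h5⟩ := (hw.and_eventually h3).exists
    exact h4.2 ((h5 h4.1 c).trans h0)
  constructor
  · have e : {x | ∃ w ∈ L, ∃ c, w c = x} = ⋃ c, (fun w : Fin r → X => w c) '' L := by
      ext x
      simp only [Set.mem_ofPred_eq, Set.mem_iUnion, Set.mem_image]
      exact ⟨fun ⟨w, hw, c, h⟩ => ⟨c, w, hw, h⟩, fun ⟨c, w, hw, h⟩ => ⟨w, hw, c, h⟩⟩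
    rw [e]
    exact isCompact_iUnion fun c => hL.image (continuous_apply c)
  · rintro x ⟨w0, hw0, c0, rfl⟩
    obtain ⟨ε, hε, hinj⟩ := hloc (w0 c0) ((hLs w0 hw0).1 c0)
    have hF : IsClosed (⋃ c, (fun w : Fin r → X => w c) '' {w | w ∈ L ∧ band (w c) ≠ band (w0 c0)}) :=
      (isCompact_iUnion fun c => (hcl c _).image (continuous_apply c)).isClosed
    have hx : w0 c0 ∈ (⋃ c, (fun w : Fin r → X => w c) '' {w | w ∈ L ∧ band (w c) ≠ band (w0 c0)})ᶜ := by
      intro h
      obtain ⟨c, w, hw, h1⟩ := Set.mem_iUnion.1 h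
      exact hw.2 (congrArg band h1)
    obtain ⟨ε1, hε1, hball⟩ := Metric.isOpen_iff.1 hF.isOpen_compl _ hx
    have key : ∀ w ∈ L, ∀ c, dist (w c) (w0 c0) < min ε ε1 → band (w c) = band (w0 c0) := by
      intro w hw c hd
      by_contra hne
      exact hball (hd.trans_le (min_le_right _ _)) (Set.mem_iUnion.2 ⟨c, w, ⟨hw, hne⟩, rfl⟩)
    refine ⟨min ε ε1, lt_min hε hε1, ?_⟩
    rintro x' ⟨w', hw', c', rfl⟩ x'' ⟨w'', hw'', c'', rfl⟩ d1 d2 hff
    exact hinj _ ((hLs w' hw').1 c') _ ((hLs w'' hw'').1 c'') (d1.trans_le (min_le_left _ _))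
      (d2.trans_le (min_le_left _ _)) (key w' hw' c' d1) (key w'' hw'' c'' d2) hff

end Pool.Agent.P.MP_9ca318_co.BL
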