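import Pool.Agent.P.MP_9ca318_co.BL.Iface

set_option autoImplicit false

namespace Pool.Agent.P.MP_9ca318_co.BL

open Finset

theorem s_bands (h : S_SUPP) : S_BANDS := by
  classical
  intro u i n D f hi hn hD hf
  obtain ⟨w, hw⟩ : ∃ w, w = i - u := ⟨_, rfl⟩
  rw [← hw]
  have hw0 : 0 < w := by omega
  have hsp : ∀ x ∈ Sig n (i + 1), sp x + (i + 1) ≤ 3 * n := by
    intro x hx
    obtain ⟨s, hs, hs'⟩ := hx.2.2.2.2
    have := (h n (i + 1) x hx).1 s hs'
    omega
  refine ⟨fun b => ?_, fun x hx => ?_, fun x hx => ?_⟩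
  · have e : {x : Fin n × Wd → ℝ | sp x / w ≤ b} = {x | sp x ≤ (b + 1) * w - 1} := by
      ext x
      simp only [Set.mem_ofPred_eq]
      rw [← Nat.lt_succ_iff, Nat.div_lt_iff_lt_mul hw0]
      have : 0 < (b + 1) * w := Nat.mul_pos (Nat.succ_pos b) hw0
      simp only [Nat.succ_eq_add_one]
      omega
    rw [e]
    exact isClosed_sp_le _
  · rw [← Nat.lt_succ_iff, Nat.div_lt_iff_lt_mul hw0]
    have := hsp x hx
    omega
  · obtain ⟨ε, hε, hball⟩ := Metric.eventually_nhds_iff.1 (eventually_ne_zero x)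
    refine ⟨ε, hε, fun x' hx' x'' hx'' d1 d2 b1 b2 hff => hf.2.1 x' x'' hx'.1 hx''.1 ?_ hff⟩
    have h1 : sp (x' - x'') ≤ (univ.filter (fun v => x' v ≠ 0) ∪ univ.filter (fun v => x'' v ≠ 0)).card := by
      rw [sp_def]
      refine Finset.card_le_card fun v hv => ?_
      simp only [Finset.mem_filter, Finset.mem_univ, true_and, Finset.mem_union, Pi.sub_apply] at hv ⊢
      by_contra h0
      push Not at h0
      exact hv (by rw [h0.1, h0.2, sub_self])
    have h2 : sp x ≤ (univ.filter (fun v => x' v ≠ 0) ∩ univ.filter (fun v => x'' v ≠ 0)).card := by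
      rw [sp_def]
      refine Finset.card_le_card fun v hv => ?_
      simp only [Finset.mem_filter, Finset.mem_univ, true_and, Finset.mem_inter] at hv ⊢
      exact ⟨hball d1 v hv, hball d2 v hv⟩
    have h3 := Finset.card_union_add_card_inter (univ.filter (fun v => x' v ≠ 0))
      (univ.filter (fun v => x'' v ≠ 0))
    rw [← sp_def, ← sp_def] at h3
    have h4 := Nat.div_add_mod (sp x'') w
    have h5 := Nat.div_add_mod (sp x) w
    have h6 := Nat.mod_lt (sp x'') hw0
    rw [b2] at h4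
    have h7 := hsp x' hx'
    generalize w * (sp x / w) = t at h4 h5
    omega

end Pool.Agent.P.MP_9ca318_co.BL
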