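import Pool.Agent.P.MP_9ca318_co.BL.Iface

/-! A continuous choice of a branch. -/

set_option autoImplicit false

namespace Pool.Agent.P.MP_9ca318_co.BL

open Filter Topology

theorem s_br : S_BR := by
  intro Y P E _ _ _ T F Ω _ _ _ Z U g e π Fix hU _ hπ hZ hc heq hinj hcl hex
  rcases isEmpty_or_nonempty F with hF | hF
  · refine ⟨fun _ _ => Classical.arbitrary Ω, fun q hq => ?_, fun q hq => ?_⟩ <;>
      exact ((hex q hq).elim fun k _ => hF.elim k)
  let Good : F → Y × P → Prop := fun k q => ∃ t ω, q.1 ∈ U t ∧ π k q.2 = e k t ω q.1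
  have hch : ∀ q ∈ Fix, ∀ t, q.1 ∈ U t → ∀ k, (Good k q ↔ ∃ ω, π k q.2 = e k t ω q.1) :=
    fun q hq t ht k => ⟨fun ⟨t₀, ω, h0, h1⟩ =>
      ⟨g t₀ t q.1 ω, h1.trans (heq k t₀ t ω q.1 (hZ q hq) h0 ht).symm⟩,
      fun ⟨ω, h⟩ => ⟨t, ω, ht, h⟩⟩
  let kk : Y × P → F := fun q => Classical.epsilon fun k => Good k q
  let β : T → Y × P → Ω := fun t q => Classical.epsilon fun ω => π (kk q) q.2 = e (kk q) t ω q.1
  have hβ : ∀ q ∈ Fix, ∀ t, q.1 ∈ U t → π (kk q) q.2 = e (kk q) t (β t q) q.1 := fun q hq t ht =>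
    Classical.epsilon_spec ((hch q hq t ht _).1 (Classical.epsilon_spec (hex q hq)))
  refine ⟨β, fun q hq t t' ht ht' => ?_, fun q hq t ht => ?_⟩
  · refine hinj (kk q) t' _ _ q.1 (hZ q hq) ht' ?_
    rw [heq _ t t' _ q.1 (hZ q hq) ht ht', ← hβ q hq t ht, ← hβ q hq t' ht']
  have h0 : ∀ᶠ q' in 𝓝[Fix] q, q' ∈ Fix := self_mem_nhdsWithin
  have h1 : ∀ᶠ q' in 𝓝[Fix] q, q'.1 ∈ U t :=
    mem_nhdsWithin_of_mem_nhds (((hU t).preimage continuous_fst).mem_nhds ht)
  have t1 : Tendsto Prod.fst (𝓝[Fix] q) (𝓝[Z ∩ U t] q.1) :=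
    tendsto_nhdsWithin_iff.2 ⟨continuous_fst.continuousWithinAt,
      (h0.and h1).mono fun q' h => ⟨hZ q' h.1, h.2⟩⟩
  have h2 : ∀ k ω, ∀ᶠ q' in 𝓝[Fix] q, (π k q'.2 = e k t ω q'.1 ↔ π k q.2 = e k t ω q.1) := by
    intro k ω
    have hd : Tendsto (fun q' : Y × P => dist (π k q'.2) (e k t ω q'.1)) (𝓝[Fix] q)
        (𝓝 (dist (π k q.2) (e k t ω q.1))) :=
      Tendsto.dist ((hπ k).comp continuous_snd).continuousWithinAt
        ((hc k t ω q.1 ⟨hZ q hq, ht⟩).tendsto.comp t1)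
    by_cases h : π k q.2 = e k t ω q.1
    · have h3 : dist (π k q.2) (e k t ω q.1) < 1 / 16 := by
        rw [h, dist_self]
        norm_num
      filter_upwards [h0, h1, hd.eventually_lt_const h3] with q' a b c
      exact iff_of_true (hcl q' a k t ω b c.le) h
    · filter_upwards [hd.eventually_ne (dist_ne_zero.2 h)] with q' c
      exact iff_of_false (dist_ne_zero.1 c) h
  filter_upwards [h0, h1, eventually_all.2 fun k => eventually_all.2 (h2 k)] with q' a b c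
  have h3 : kk q' = kk q := congrArg Classical.epsilon (funext fun k => propext (by
    rw [hch q' a t b, hch q hq t ht]
    exact exists_congr (c k)))
  refine congrArg Classical.epsilon (funext fun ω => propext ?_)
  rw [h3]
  exact c _ ω

end Pool.Agent.P.MP_9ca318_co.BL
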