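import Pool.Agent.P.MP_9ca318_co.BL.Iface

set_option autoImplicit false

namespace Pool.Agent.P.MP_9ca318_co.BL

namespace TCHARTA

theorem exists_sep {X : Type} [MetricSpace X] {m : ℕ} (x : Fin m → X)
    (hx : Function.Injective x) :
    ∃ ε : ℝ, 0 < ε ∧ ∀ a b, dist (x a) (x b) < 3 * ε → a = b := by
  have h : ∀ p : Fin m × Fin m, ∀ᶠ ε : ℝ in nhdsWithin 0 (Set.Ioi 0),
      dist (x p.1) (x p.2) < 3 * ε → p.1 = p.2 := by
    intro p
    by_cases hp : p.1 = p.2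
    · exact Filter.Eventually.of_forall fun _ _ => hp
    · have hd : 0 < dist (x p.1) (x p.2) / 3 := by
        have := dist_pos.2 (hx.ne hp)
        positivity
      filter_upwards [mem_nhdsWithin_of_mem_nhds (Iio_mem_nhds hd)] with ε hε h
      have : ε < dist (x p.1) (x p.2) / 3 := hε
      exfalso
      linarith
  obtain ⟨ε, h1, h2⟩ := ((Filter.eventually_all.2 h).and self_mem_nhdsWithin).exists
  exact ⟨ε, h2, fun a b => h1 (a, b)⟩

end TCHARTA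

theorem s_chart (h1 : S_USC) (h2 : S_RANK) : S_CHART := by
  intro X Y _ _ f Q G Z m G0 hf hQ hG hloc hfr z0 hz0
  obtain ⟨x0, hx0⟩ := hfr z0 hz0
  obtain ⟨ε0, hε0, hsep⟩ := TCHARTA.exists_sep x0 hx0.1
  obtain ⟨δ, hδ, hU⟩ := h1 X Y f Q G z0 m x0 ε0 hf hQ hG hloc (fun a => (hx0.2.1 a).1)
    hx0.2.2.1 hε0
  have key : ∀ z, ∃ x : Fin m → X, z ∈ Z → z ∈ Metric.ball z0 δ →
      Frame f Q G z G0 x ∧ ∀ a, dist (x a) (x0 a) < ε0 := by
    intro z
    by_cases hz : z ∈ Z ∧ z ∈ Metric.ball z0 δ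
    swap
    · exact ⟨x0, fun a b => absurd ⟨a, b⟩ hz⟩
    obtain ⟨x', hx'⟩ := hfr z hz.1
    obtain ⟨j, hj, hd, hg⟩ := hU z hz.2 m x' hx'.1 hx'.2.1
    obtain ⟨hb, he⟩ := (h2 m m G0 G0 j hj fun a b hab =>
      (hx0.2.2.2 _ _).1 (hg a b ((hx'.2.2.2 a b).2 hab))).resolve_left (lt_irrefl _)
    let e := Equiv.ofBijective j hb
    have hje : ∀ a, j (e.symm a) = a := fun a => e.apply_symm_apply a
    refine ⟨fun a => x' (e.symm a), fun _ _ => ⟨⟨hx'.1.comp e.symm.injective,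
      fun a => hx'.2.1 _, fun y hy hy' => ?_, fun a b => ?_⟩, fun a => ?_⟩⟩
    · obtain ⟨a, ha⟩ := hx'.2.2.1 y hy hy'
      exact ⟨e a, by simp [ha]⟩
    · rw [hx'.2.2.2, ← he, hje, hje]
    · have := hd (e.symm a)
      rwa [hje] at this
  choose x hx using key
  refine ⟨Metric.ball z0 δ, x, Metric.isOpen_ball, Metric.mem_ball_self hδ,
    fun z hz hz' => (hx z hz hz').1, ?_⟩
  rw [Metric.continuousOn_iff]
  intro z1 hz1 ε hε
  obtain ⟨hf1, hd1⟩ := hx z1 hz1.1 hz1.2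
  obtain ⟨δ1, hδ1, hU1⟩ := h1 X Y f Q G z1 m (x z1) (min ε ε0) hf hQ hG hloc
    (fun a => (hf1.2.1 a).1) hf1.2.2.1 (lt_min hε hε0)
  refine ⟨δ1, hδ1, fun z hz hzd => ?_⟩
  obtain ⟨hf2, hd2⟩ := hx z hz.1 hz.2
  obtain ⟨j, -, hd, -⟩ := hU1 z hzd m (x z) hf2.1 hf2.2.1
  rw [dist_pi_lt_iff hε]
  intro a
  have h3 := (hd a).trans_le (min_le_right _ _)
  have h4 : a = j a := by
    refine hsep a (j a) ?_
    have h5 := dist_triangle4 (x0 a) (x z a) (x z1 (j a)) (x0 (j a))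
    have h6 := hd2 a
    have h7 := hd1 (j a)
    rw [dist_comm] at h6
    linarith
  have := (hd a).trans_le (min_le_left _ _)
  rwa [← h4] at this

end Pool.Agent.P.MP_9ca318_co.BL
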