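import Pool.Agent.P.MP_9ca318_co.BL.Iface

set_option autoImplicit false

namespace Pool.Agent.P.MP_9ca318_co.BL

open Finset

namespace TCOCA

open Classical in
/-- Change of enumeration. -/
noncomputable def gt {X : Type} {m : ℕ} (u v : Fin m → X) (a : Fin m) : Fin m :=
  if h : ∃ a', v a' = u a then h.choose else a

theorem gt_spec {X Y : Type} {f : X → Y} {Q : Set X} {G : X → X → Prop} {z : Y} {m : ℕ}
    {G0 : Fin m → Fin m → Prop} {u v : Fin m → X} (hu : Frame f Q G z G0 u)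
    (hv : Frame f Q G z G0 v) (a : Fin m) : v (gt u v a) = u a := by
  have h : ∃ a', v a' = u a := hv.2.2.1 _ (hu.2.1 a).1 (hu.2.1 a).2
  rw [gt, dif_pos h]
  exact h.choose_spec

theorem gt_bij {X Y : Type} {f : X → Y} {Q : Set X} {G : X → X → Prop} {z : Y} {m : ℕ}
    {G0 : Fin m → Fin m → Prop} {u v : Fin m → X} (hu : Frame f Q G z G0 u)
    (hv : Frame f Q G z G0 v) : Function.Bijective (gt u v) := by
  refine Finite.injective_iff_bijective.1 fun a b e => hu.1 ?_
  rw [← gt_spec hu hv a, ← gt_spec hu hv b, e]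

theorem gt_rel {X Y : Type} {f : X → Y} {Q : Set X} {G : X → X → Prop} {z : Y} {m : ℕ}
    {G0 : Fin m → Fin m → Prop} {u v : Fin m → X} (hu : Frame f Q G z G0 u)
    (hv : Frame f Q G z G0 v) (a b : Fin m) : G0 (gt u v a) (gt u v b) ↔ G0 a b := by
  rw [← hv.2.2.2, gt_spec hu hv, gt_spec hu hv, hu.2.2.2]

theorem cwa {X Y : Type} [MetricSpace X] [MetricSpace Y] {m : ℕ} {Z U : Set Y}
    {x : Y → Fin m → X} (hU : IsOpen U) (hx : ContinuousOn x (Z ∩ U)) {z : Y} (hz : z ∈ Z)
    (hzU : z ∈ U) (a : Fin m) :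
    Filter.Tendsto (fun z' => x z' a) (nhdsWithin z Z) (nhds (x z a)) := by
  have h1 : ContinuousWithinAt x Z z :=
    (continuousWithinAt_inter (hU.mem_nhds hzU)).1 (hx z ⟨hz, hzU⟩)
  exact ((continuous_apply a).tendsto _).comp h1

end TCOCA

open TCOCA in
theorem s_coc (h : S_LS) : S_COC := by
  intro X Y _ _ r f Q G Z m G0 T _ U x hZ hU hcov hF hx hW
  obtain ⟨W, hW1, hW2, hW3⟩ := hW
  have hc : Cocy Z U (fun t t' z (l : Fin m → Fin m) => l ∘ gt (x t' z) (x t z)) := by
    refine ⟨fun t z hz ht l => ?_, fun t t' t'' z hz ht ht' ht'' l => ?_,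
      fun t t' z hz ht ht' l => ?_⟩
    · funext a
      show l (gt (x t z) (x t z) a) = l a
      rw [(hF t z hz ht).1 (gt_spec (hF t z hz ht) (hF t z hz ht) a)]
    · funext a
      show l (gt (x t' z) (x t z) (gt (x t'' z) (x t' z) a)) = l (gt (x t'' z) (x t z) a)
      refine congrArg l ((hF t z hz ht).1 ?_)
      rw [gt_spec (hF t' z hz ht') (hF t z hz ht), gt_spec (hF t'' z hz ht'') (hF t' z hz ht'),
        gt_spec (hF t'' z hz ht'') (hF t z hz ht)]
    · have h1 : ∀ᶠ z' in nhdsWithin z Z, ∀ a b, b ≠ gt (x t' z) (x t z) a → x t z' b ≠ x t' z' a := by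
        refine Filter.eventually_all.2 fun a => Filter.eventually_all.2 fun b => ?_
        by_cases hb : b = gt (x t' z) (x t z) a
        · exact Filter.Eventually.of_forall fun _ h' => absurd hb h'
        · have h2 : x t z b ≠ x t' z a := by
            rw [← gt_spec (hF t' z hz ht') (hF t z hz ht) a]
            exact fun e => hb ((hF t z hz ht).1 e)
          have h3 := ((cwa (hU t) (hx t) hz ht b).prodMk_nhds (cwa (hU t') (hx t') hz ht' a)).eventually
            (isOpen_ne_fun continuous_fst continuous_snd |>.mem_nhds h2)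
          exact h3.mono fun _ h4 _ => h4
      have h2 : ∀ᶠ z' in nhdsWithin z Z, z' ∈ U t :=
        mem_nhdsWithin_of_mem_nhds ((hU t).mem_nhds ht)
      have h3 : ∀ᶠ z' in nhdsWithin z Z, z' ∈ U t' :=
        mem_nhdsWithin_of_mem_nhds ((hU t').mem_nhds ht')
      filter_upwards [h1, h2, h3, self_mem_nhdsWithin] with z' h4 h5 h6 h7
      funext a
      show l (gt (x t' z') (x t z') a) = l (gt (x t' z) (x t z) a)
      refine congrArg l ?_
      by_contra hne
      exact h4 a _ hne (gt_spec (hF t' z' h7 h6) (hF t z' h7 h5) a)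
  obtain ⟨μ, i1, φ, R, β, h1, h2, h3, h4⟩ := h Y T (Fin m → Fin m) Z U _ W hZ hU hcov hc hW3
    (fun t t' l z hz ht ht' => hW2 _ (gt_bij (hF t' z hz ht') (hF t z hz ht))
      (gt_rel (hF t' z hz ht') (hF t z hz ht)) l)
  refine ⟨μ, i1, φ, R, β, h1, h2, fun t q => hW1 _ (h4 t q), fun q hz hq t t' ht ht' a a' e => ?_,
    fun q hz hq t ht => h3.lc q ⟨hz, hq⟩ t ht⟩
  rw [h3.eqv q ⟨hz, hq⟩ t t' ht ht']
  show β t q a = β t q (gt (x t' q.1) (x t q.1) a')
  refine congrArg (β t q) ((hF t q.1 hz ht).1 ?_)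
  rw [gt_spec (hF t' q.1 hz ht') (hF t q.1 hz ht), e]

end Pool.Agent.P.MP_9ca318_co.BL
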