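import Pool.Agent.P.MP_9ca318_co.BL.Iface

set_option autoImplicit false

namespace Pool.Agent.P.MP_9ca318_co.BL

open Finset

namespace TDENSA

variable {ι : Type} {r : ℕ}

theorem net_cont {g : (ι → Fin r → ℝ) → ℝ} (h : Net g) : Continuous g := by
  induction h with
  | zero => exact continuous_const
  | coord j i => exact (continuous_apply i).comp (continuous_apply j)
  | add _ _ h1 h2 => exact h1.add h2
  | smul a _ h1 => exact continuous_const.mul h1
  | relu _ _ _ _ _ _ _ h1 => exact h1.max continuous_const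

theorem net_congr {g g' : (ι → Fin r → ℝ) → ℝ} (h : Net g) (e : ∀ x, g' x = g x) : Net g' := by
  have : g' = g := funext e
  rw [this]; exact h

theorem net_sub {g g' : (ι → Fin r → ℝ) → ℝ} (h : Net g) (h' : Net g') :
    Net (fun x => g x - g' x) :=
  net_congr (h.add (h'.smul (-1))) fun x => by ring

theorem net_sum {α : Type} (s : Finset α) (g : α → (ι → Fin r → ℝ) → ℝ)
    (h : ∀ a ∈ s, Net (g a)) : Net (fun x => ∑ a ∈ s, g a x) := by
  classical
  induction s using Finset.induction_on with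
  | empty => exact net_congr Net.zero fun x => by simp
  | insert a s ha ih =>
    exact net_congr ((h a (mem_insert_self a s)).add
      (ih fun b hb => h b (mem_insert_of_mem hb))) fun x => by rw [sum_insert ha]

/-- Networks that vanish where the coordinate `(j, i)` vanishes. -/
def NN (j : ι) (i : Fin r) (g : (ι → Fin r → ℝ) → ℝ) : Prop :=
  Net g ∧ ∀ x, (∀ k l, 0 ≤ x k l) → x j i = 0 → g x = 0

variable {j : ι} {i : Fin r} {g g' : (ι → Fin r → ℝ) → ℝ}

theorem NN.congr (h : NN j i g) (e : ∀ x, g' x = g x) : NN j i g' := by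
  have : g' = g := funext e
  rw [this]; exact h

theorem NN.add (h : NN j i g) (h' : NN j i g') : NN j i (fun x => g x + g' x) :=
  ⟨h.1.add h'.1, fun x hx h0 => by simp [h.2 x hx h0, h'.2 x hx h0]⟩

theorem NN.smul (a : ℝ) (h : NN j i g) : NN j i (fun x => a * g x) :=
  ⟨h.1.smul a, fun x hx h0 => by simp [h.2 x hx h0]⟩

theorem NN.sub (h : NN j i g) (h' : NN j i g') : NN j i (fun x => g x - g' x) :=
  (h.add (h'.smul (-1))).congr fun x => by ring

theorem NN.pos (h : NN j i g) (x : ι → Fin r → ℝ) (hx : ∀ k l, 0 ≤ x k l) (h0 : g x ≠ 0) :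
    0 < x j i :=
  lt_of_le_of_ne (hx j i) fun e => h0 (h.2 x hx e.symm)

theorem NN.relu (h : NN j i g) : NN j i (fun x => max (g x) 0) :=
  ⟨h.1.relu j i j i (fun x hx h0 => h.pos x hx h0.ne') (fun x hx h0 => h.pos x hx h0.ne),
    fun x hx h0 => by simp [h.2 x hx h0]⟩

theorem NN.max' (h : NN j i g) (h' : NN j i g') : NN j i (fun x => max (g x) (g' x)) :=
  (h.add (h'.sub h).relu).congr fun x => by
    rcases le_total (g x) (g' x) with e | e
    · rw [max_eq_right e, max_eq_left (sub_nonneg.2 e)]; ring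
    · rw [max_eq_left e, max_eq_right (sub_nonpos.2 e)]; ring

theorem NN.min' (h : NN j i g) (h' : NN j i g') : NN j i (fun x => min (g x) (g' x)) :=
  (h.sub (h.sub h').relu).congr fun x => by
    rcases le_total (g x) (g' x) with e | e
    · rw [min_eq_left e, max_eq_right (sub_nonpos.2 e)]; ring
    · rw [min_eq_right e, max_eq_left (sub_nonneg.2 e)]; ring

theorem nn_coord (j : ι) (i : Fin r) : NN j i (fun x => x j i) :=
  ⟨Net.coord j i, fun _ _ h => h⟩

theorem nn_sum {α : Type} (s : Finset α) (g : α → (ι → Fin r → ℝ) → ℝ)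
    (h : ∀ a ∈ s, NN j i (g a)) : NN j i (fun x => ∑ a ∈ s, g a x) :=
  ⟨net_sum s g fun a ha => (h a ha).1, fun x hx h0 => sum_eq_zero fun a ha => (h a ha).2 x hx h0⟩

theorem nn_cut (j : ι) (i : Fin r) (k : ι) (l : Fin r) {M : ℝ} (hM : 0 ≤ M) :
    NN j i (fun x => min (x k l) (M * x j i)) := by
  refine ⟨?_, fun x hx h0 => by simp [h0, hx k l]⟩
  have h1 : Net (fun x : ι → Fin r → ℝ => x k l - M * x j i) :=
    net_sub (Net.coord k l) ((Net.coord j i).smul M)
  have h2 := h1.relu k l j i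
    (fun x hx h0 => by have := mul_nonneg hM (hx j i); linarith)
    (fun x hx h0 => by
      refine lt_of_le_of_ne (hx j i) fun e => ?_
      rw [← e] at h0
      have := hx k l
      linarith)
  refine net_congr (net_sub (Net.coord k l) h2) fun x => ?_
  rcases le_total (x k l) (M * x j i) with e | e
  · rw [min_eq_left e, max_eq_right (sub_nonpos.2 e)]; ring
  · rw [min_eq_right e, max_eq_left (sub_nonneg.2 e)]; ring

variable [Fintype ι]

theorem cont_tot : Continuous (fun x : ι → Fin r → ℝ => tot x) := by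
  unfold tot
  fun_prop

theorem coord_le {x : ι → Fin r → ℝ} (hx : ∀ k l, 0 ≤ x k l) (h1 : tot x = 1) (k : ι) (l : Fin r) :
    x k l ≤ 1 := by
  rw [← h1]
  exact (single_le_sum (f := fun l => x k l) (fun l _ => hx k l) (mem_univ l)).trans
    (single_le_sum (f := fun k => ∑ l, x k l) (fun k _ => sum_nonneg fun l _ => hx k l)
      (mem_univ k))

theorem compact_K (j : ι) (i : Fin r) (η : ℝ) :
    IsCompact {x : ι → Fin r → ℝ | (∀ k l, 0 ≤ x k l) ∧ tot x = 1 ∧ η ≤ x j i} := by
  refine (isCompact_Icc (a := (0 : ι → Fin r → ℝ)) (b := 1)).of_isClosed_subset ?_ ?_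
  · have h1 : IsClosed {x : ι → Fin r → ℝ | ∀ k l, 0 ≤ x k l} :=
      isClosed_Ici (a := (0 : ι → Fin r → ℝ))
    have h2 : IsClosed {x : ι → Fin r → ℝ | tot x = 1} := isClosed_eq cont_tot continuous_const
    have h3 : IsClosed {x : ι → Fin r → ℝ | η ≤ x j i} :=
      isClosed_le continuous_const ((continuous_apply i).comp (continuous_apply j))
    exact h1.inter (h2.inter h3)
  · exact fun x hx => ⟨fun k l => hx.1 k l, fun k l => coord_le hx.1 hx.2.1 k l⟩

theorem approx_K (j : ι) (i : Fin r) {η : ℝ} (hη : 0 < η) (F : (ι → Fin r → ℝ) → ℝ)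
    (hF : Continuous F) {ε : ℝ} (hε : 0 < ε) :
    ∃ g, NN j i g ∧ ∀ x, (∀ k l, 0 ≤ x k l) → tot x = 1 → η ≤ x j i → |g x - F x| ≤ ε := by
  set K := {x : ι → Fin r → ℝ | (∀ k l, 0 ≤ x k l) ∧ tot x = 1 ∧ η ≤ x j i} with hK
  have : CompactSpace K := isCompact_iff_compactSpace.1 (compact_K j i η)
  let L : Set C(K, ℝ) := {h | ∃ g, NN j i g ∧ ∀ x : K, h x = g x.1}
  have mk : ∀ g, NN j i g → ∃ h ∈ L, ∀ x : K, h x = g x.1 := fun g hg =>
    ⟨⟨fun x => g x.1, (net_cont hg.1).comp continuous_subtype_val⟩, ⟨g, hg, fun _ => rfl⟩,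
      fun _ => rfl⟩
  have hM : 0 ≤ 1 / η := by positivity
  have hc : ∀ (x : K) k l, min (x.1 k l) (1 / η * x.1 j i) = x.1 k l := fun x k l => by
    refine min_eq_left ((coord_le x.2.1 x.2.2.1 k l).trans ?_)
    rw [one_div, inv_mul_eq_div, le_div_iff₀ hη, one_mul]
    exact x.2.2.2
  have hone : NN j i (fun x => ∑ k, ∑ l, min (x k l) (1 / η * x j i)) :=
    nn_sum _ _ fun k _ => nn_sum _ _ fun l _ => nn_cut j i k l hM
  have hone' : ∀ x : K, ∑ k, ∑ l, min (x.1 k l) (1 / η * x.1 j i) = 1 := fun x => by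
    simp only [hc]
    exact x.2.2.1
  have hL : closure L = ⊤ := by
    refine ContinuousMap.sublattice_closure_eq_top L ?_ ?_ ?_ ?_
    · obtain ⟨h, hh, -⟩ := mk _ hone
      exact ⟨h, hh⟩
    · rintro f ⟨g, hg, e⟩ f' ⟨g', hg', e'⟩
      exact ⟨_, hg.min' hg', fun x => by simp [e, e']⟩
    · rintro f ⟨g, hg, e⟩ f' ⟨g', hg', e'⟩
      exact ⟨_, hg.max' hg', fun x => by simp [e, e']⟩
    · intro v x y
      by_cases hxy : x = y
      · obtain ⟨h, hh, e⟩ := mk _ (hone.smul (v x))
        exact ⟨h, hh, by rw [e, hone', mul_one], by rw [e, hone', mul_one, hxy]⟩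
      · obtain ⟨k, l, hkl⟩ : ∃ k l, x.1 k l ≠ y.1 k l := by
          by_contra hcon
          push Not at hcon
          exact hxy (Subtype.ext (funext fun k => funext fun l => hcon k l))
        have hne : x.1 k l - y.1 k l ≠ 0 := sub_ne_zero.2 hkl
        obtain ⟨h, hh, e⟩ := mk _
          ((hone.smul (v x - (v x - v y) / (x.1 k l - y.1 k l) * x.1 k l)).add
            ((nn_cut j i k l hM).smul ((v x - v y) / (x.1 k l - y.1 k l))))
        refine ⟨h, hh, ?_, ?_⟩
        · rw [e, hone', hc]; ring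
        · rw [e, hone', hc]; field_simp; ring
  let F' : C(K, ℝ) := ⟨fun x => F x.1, hF.comp continuous_subtype_val⟩
  have hmem : F' ∈ closure L := by rw [hL]; trivial
  obtain ⟨h, ⟨g, hg, e⟩, hd⟩ := Metric.mem_closure_iff.1 hmem ε hε
  refine ⟨g, hg, fun x h1 h2 h3 => ?_⟩
  have := (ContinuousMap.dist_apply_le_dist (f := F') (g := h) (⟨x, h1, h2, h3⟩ : K)).trans hd.le
  rw [e, dist_comm, Real.dist_eq] at this
  exact this

theorem approx_D (j : ι) (i : Fin r) (f : (ι → Fin r → ℝ) → ℝ) (hf : Continuous f) {ε : ℝ}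
    (hε : 0 < ε) :
    ∃ g, Net g ∧ ∀ x, (∀ k l, 0 ≤ x k l) → tot x = 1 → |g x - x j i * f x| ≤ ε := by
  obtain ⟨C, hC⟩ := (compact_K j i 0).exists_bound_of_continuousOn hf.continuousOn
  set B := max C 1 with hB
  have hB0 : 0 < B := lt_of_lt_of_le one_pos (le_max_right _ _)
  obtain ⟨g, hg, h⟩ := approx_K j i (η := ε / (2 * B)) (by positivity) (fun x => x j i * f x)
    (by fun_prop) hε
  refine ⟨_, (((nn_coord j i).smul (-B)).max' (((nn_coord j i).smul B).min' hg)).1,
    fun x h1 h2 => ?_⟩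
  have hb : |f x| ≤ B := (hC x ⟨h1, h2, h1 j i⟩).trans (le_max_left _ _)
  have hx := h1 j i
  obtain ⟨hb1, hb2⟩ := abs_le.1 hb
  have h3 : x j i * f x ≤ B * x j i := by nlinarith
  have h4 : -B * x j i ≤ x j i * f x := by nlinarith
  have h5 : 0 ≤ B * x j i := by positivity
  by_cases hη : ε / (2 * B) ≤ x j i
  · obtain ⟨h6, h7⟩ := abs_le.1 (h x h1 h2 hη)
    rw [abs_le]
    constructor
    · have : x j i * f x - ε ≤ min (B * x j i) (g x) := le_min (by linarith) (by linarith)
      have := le_max_right (-B * x j i) (min (B * x j i) (g x))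
      linarith
    · have : max (-B * x j i) (min (B * x j i) (g x)) ≤ x j i * f x + ε :=
        max_le (by linarith) ((min_le_right _ _).trans (by linarith))
      linarith
  · have h6 : 2 * B * x j i ≤ ε := by
      have := (lt_div_iff₀ (by positivity : 0 < 2 * B)).1 (not_le.1 hη)
      linarith
    rw [abs_le]
    constructor
    · have := le_max_left (-B * x j i) (min (B * x j i) (g x))
      linarith
    · have : max (-B * x j i) (min (B * x j i) (g x)) ≤ B * x j i :=
        max_le (by linarith) (min_le_left _ _)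
      linarith

end TDENSA

theorem s_dens : S_DENS := by
  intro r ι _ f ε hf hε
  have hN : (0 : ℝ) < Fintype.card ι * r + 1 := by positivity
  choose g hg h using fun (j : ι) (i : Fin r) =>
    TDENSA.approx_D j i f hf (ε := ε / (Fintype.card ι * r + 1)) (by positivity)
  refine ⟨fun x => ∑ j, ∑ i, g j i x,
    TDENSA.net_sum _ _ fun j _ => TDENSA.net_sum _ _ fun i _ => hg j i, fun x h1 h2 => ?_⟩
  have e : (∑ j, ∑ i, g j i x) - f x = ∑ j, ∑ i, (g j i x - x j i * f x) := by
    have : f x = ∑ j, ∑ i, x j i * f x := by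
      simp only [← sum_mul]
      rw [show ∑ j, ∑ i, x j i = tot x from rfl, h2, one_mul]
    simp only [sum_sub_distrib]
    rw [← this]
  rw [e]
  calc |∑ j, ∑ i, (g j i x - x j i * f x)| ≤ ∑ j, ∑ i, |g j i x - x j i * f x| :=
        (abs_sum_le_sum_abs _ _).trans (sum_le_sum fun j _ => abs_sum_le_sum_abs _ _)
    _ ≤ ∑ _j : ι, ∑ _i : Fin r, ε / (Fintype.card ι * r + 1) :=
        sum_le_sum fun j _ => sum_le_sum fun i _ => h j i x h1 h2
    _ = (Fintype.card ι * r) * (ε / (Fintype.card ι * r + 1)) := by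
        simp [mul_assoc]
    _ ≤ ε := by
        rw [← mul_div_assoc, div_le_iff₀ hN]
        nlinarith

end Pool.Agent.P.MP_9ca318_co.BL
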