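import Pool.Agent.P.MP_9ca318_co.BL.Iface

/-! Equivariant embedding of a finite cover. -/

set_option autoImplicit false

namespace Pool.Agent.P.MP_9ca318_co.BL

open Finset

namespace TEMBA

/-- Cut-off functions subordinate to a finite open cover of a closed set. -/
theorem exists_chi {Y : Type} [MetricSpace Y] {T : Type} (Z : Set Y) (U : T → Set Y)
    (hZ : IsClosed Z) (hU : ∀ t, IsOpen (U t)) (hc : ∀ z ∈ Z, ∃ t, z ∈ U t) :
    ∃ χ : T → Y → ℝ, (∀ t, Continuous (χ t)) ∧ (∀ t z, 0 ≤ χ t z ∧ χ t z ≤ 1) ∧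
      (∀ t, tsupport (χ t) ⊆ U t) ∧ ∀ z ∈ Z, ∃ t, χ t z = 1 := by
  obtain ⟨f, hf⟩ := BumpCovering.exists_isSubordinate hZ U hU (fun z hz => by
    obtain ⟨t, ht⟩ := hc z hz
    exact Set.mem_iUnion.2 ⟨t, ht⟩)
  refine ⟨fun t => f t, fun t => (f t).continuous, fun t z => ⟨f.nonneg t z, f.le_one t z⟩,
    fun t => hf t, fun z hz => ?_⟩
  obtain ⟨t, ht⟩ := f.eventuallyEq_one' z hz
  exact ⟨t, ht.self_of_nhds⟩

theorem cont_key {Y T Ω : Type} [MetricSpace Y] {Z : Set Y} {U : T → Set Y}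
    {g : T → T → Y → Ω → Ω} (hg : Cocy Z U g) (a : Ω → ℕ) (χ : Y → ℝ) (hχ : Continuous χ)
    (t t' : T) (hs : tsupport χ ⊆ U t') (ω : Ω) :
    ContinuousOn (fun z => χ z * (a (g t t' z ω) : ℝ)) (Z ∩ U t) := by
  intro z hz
  by_cases h : z ∈ U t'
  · have h1 : ContinuousWithinAt (fun z' => χ z' * (a (g t t' z ω) : ℝ)) (Z ∩ U t) z :=
      (hχ.mul continuous_const).continuousWithinAt
    refine h1.congr_of_eventuallyEq ?_ rfl
    have h2 := hg.lc t t' z hz.1 hz.2 h ω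
    have h3 : ∀ᶠ z' in nhdsWithin z (Z ∩ U t), g t t' z' ω = g t t' z ω :=
      h2.filter_mono (nhdsWithin_mono z Set.inter_subset_left)
    exact h3.mono fun z' hz' => by simp only [hz']
  · have h1 : z ∉ tsupport χ := fun h' => h (hs h')
    have h2 : χ =ᶠ[nhds z] 0 := notMem_tsupport_iff_eventuallyEq.1 h1
    have h3 : (fun z' => χ z' * (a (g t t' z' ω) : ℝ)) =ᶠ[nhds z] fun _ => 0 :=
      h2.mono fun z' hz' => by
        have : χ z' = 0 := hz'
        simp only [this, zero_mul]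
    exact (continuousAt_const.congr h3.symm).continuousWithinAt

theorem one_le_abs_sub {m n : ℕ} (h : m ≠ n) : (1 : ℝ) ≤ |(m : ℝ) - n| := by
  rcases lt_or_gt_of_ne h with h1 | h1
  · have h2 : (m : ℝ) + 1 ≤ n := by exact_mod_cast h1
    rw [abs_sub_comm, abs_of_nonneg (by linarith)]
    linarith
  · have h2 : (n : ℝ) + 1 ≤ m := by exact_mod_cast h1
    rw [abs_of_nonneg (by linarith)]
    linarith

end TEMBA

theorem s_emb : S_EMB := by
  intro Y _ T Ω _ _ Z U g a hZ hU hc hg ha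
  obtain ⟨χ, hχc, hχb, hχs, hχ1⟩ := TEMBA.exists_chi Z U hZ hU hc
  have hmem : ∀ t z, χ t z ≠ 0 → z ∈ U t := fun t z h => hχs t (subset_tsupport _ h)
  have heq : ∀ t t' t'' ω, ∀ z ∈ Z, z ∈ U t → z ∈ U t' →
      χ t'' z * (a (g t' t'' z (g t t' z ω)) : ℝ) = χ t'' z * (a (g t t'' z ω) : ℝ) := by
    intro t t' t'' ω z hz ht ht'
    by_cases h0 : χ t'' z = 0
    · rw [h0, zero_mul, zero_mul]
    · rw [hg.trans t t' t'' z hz ht ht' (hmem t'' z h0)]
  have hR0 : (0 : ℝ) ≤ ∑ ω, (a ω : ℝ) := Finset.sum_nonneg fun ω _ => Nat.cast_nonneg _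
  have hbd : ∀ t z ω, |χ t z * (a ω : ℝ)| ≤ ∑ ω, (a ω : ℝ) := by
    intro t z ω
    have h1 : (a ω : ℝ) ≤ ∑ ω, (a ω : ℝ) :=
      Finset.single_le_sum (f := fun ω => (a ω : ℝ)) (fun ω _ => Nat.cast_nonneg _) (Finset.mem_univ ω)
    have h2 : (0 : ℝ) ≤ a ω := Nat.cast_nonneg _
    rw [abs_of_nonneg (mul_nonneg (hχb t z).1 h2)]
    nlinarith [(hχb t z).1, (hχb t z).2]
  have hsep : ∀ t t' ω ω', ∀ z ∈ Z, z ∈ U t → z ∈ U t' → ω ≠ ω' →
      (1 : ℝ) ≤ |(a (g t t' z ω) : ℝ) - a (g t t' z ω')| := by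
    intro t t' ω ω' z hz ht ht' hne
    exact TEMBA.one_le_abs_sub fun h => hne ((hg.bij hz ht ht').1 (ha h))
  refine ⟨fun k t ω z => (fun t' => (1 - χ k z) * (χ t' z * (a (g t t' z ω) : ℝ)),
    χ k z * (a (g t k z ω) : ℝ)), ∑ ω, (a ω : ℝ), ?_, ?_, ?_, ?_, ?_⟩
  · intro k t ω
    refine ContinuousOn.prodMk (continuousOn_pi.2 fun t' => ?_) ?_
    · exact (continuous_const.sub (hχc k)).continuousOn.mul
        (TEMBA.cont_key hg a (χ t') (hχc t') t t' (hχs t') ω)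
    · exact TEMBA.cont_key hg a (χ k) (hχc k) t k (hχs k) ω
  · intro k t t' ω z hz ht ht'
    refine Prod.ext (funext fun t'' => ?_) ?_
    · simp only [heq t t' t'' ω z hz ht ht']
    · simp only [heq t t' k ω z hz ht ht']
  · intro k t ω z
    rw [Prod.norm_def]
    refine max_le ((pi_norm_le_iff_of_nonneg hR0).2 fun t' => ?_) ?_
    · show ‖(1 - χ k z) * (χ t' z * (a (g t t' z ω) : ℝ))‖ ≤ _
      rw [Real.norm_eq_abs, abs_mul, abs_of_nonneg (sub_nonneg.2 (hχb k z).2)]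
      have h1 := hbd t' z (g t t' z ω)
      have h2 := abs_nonneg (χ t' z * (a (g t t' z ω) : ℝ))
      nlinarith [(hχb k z).1, (hχb k z).2]
    · show ‖χ k z * (a (g t k z ω) : ℝ)‖ ≤ _
      rw [Real.norm_eq_abs]
      exact hbd k z _
  · intro k t ω ω' z hz ht hne
    rw [Prod.dist_eq]
    by_cases hk : 1 / 2 ≤ χ k z
    · refine le_trans ?_ (le_max_right _ _)
      have hk0 : χ k z ≠ 0 := by intro h0; rw [h0] at hk; norm_num at hk
      have h1 := hsep t k ω ω' z hz ht (hmem k z hk0) hne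
      show 1 / 2 ≤ dist (χ k z * (a (g t k z ω) : ℝ)) (χ k z * (a (g t k z ω') : ℝ))
      rw [Real.dist_eq, ← mul_sub, abs_mul, abs_of_nonneg (hχb k z).1]
      nlinarith
    · refine le_trans ?_ (le_max_left _ _)
      obtain ⟨t', ht'⟩ := hχ1 z hz
      have ht0 : χ t' z ≠ 0 := by rw [ht']; exact one_ne_zero
      have h1 := hsep t t' ω ω' z hz ht (hmem t' z ht0) hne
      refine le_trans ?_ (dist_le_pi_dist _ _ t')
      show 1 / 2 ≤ dist ((1 - χ k z) * (χ t' z * (a (g t t' z ω) : ℝ)))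
        ((1 - χ k z) * (χ t' z * (a (g t t' z ω') : ℝ)))
      rw [Real.dist_eq, ht', one_mul, one_mul, ← mul_sub, abs_mul,
        abs_of_nonneg (sub_nonneg.2 (hχb k z).2)]
      push Not at hk
      nlinarith
  · intro z hz
    obtain ⟨k, hk⟩ := hχ1 z hz
    have hk0 : χ k z ≠ 0 := by rw [hk]; exact one_ne_zero
    refine ⟨k, hmem k z hk0, fun ω => ?_⟩
    refine Prod.ext (funext fun t' => ?_) ?_
    · show (1 - χ k z) * (χ t' z * (a (g k t' z ω) : ℝ)) = 0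
      rw [hk, sub_self, zero_mul]
    · show χ k z * (a (g k k z ω) : ℝ) = a ω
      rw [hk, one_mul, hg.refl k z hz (hmem k z hk0)]

end Pool.Agent.P.MP_9ca318_co.BL
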