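import Pool.Agent.P.MP_9ca318_co.BL.Iface

/-! Algebraically independent families of reals and counting by transcendence degree. -/

set_option autoImplicit false

namespace Pool.Agent.P.MP_9ca318_co.BL

open Cardinal Polynomial

theorem s_g1 : S_G1 := by
  intro J _
  obtain ⟨s, hs⟩ := exists_isTranscendenceBasis ℚ ℝ
  have : Infinite s := by
    by_contra hf
    have : Finite s := not_infinite_iff_finite.1 hf
    have := hs.isAlgebraic
    have h1 := Algebra.IsAlgebraic.cardinalMk_le_max
      (Algebra.adjoin ℚ (Set.range ((↑) : s → ℝ))) ℝ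
    rw [← mk_congr hs.1.aevalEquiv.toEquiv, mk_real] at h1
    have h2 : #(MvPolynomial s ℚ) ≤ ℵ₀ :=
      MvPolynomial.cardinalMk_le_max.trans (max_le (max_le mk_le_aleph0 mk_le_aleph0) le_rfl)
    exact absurd (h1.trans (max_le h2 le_rfl)) aleph0_lt_continuum.not_ge
  let e : J ↪ s :=
    (Fintype.equivFin J).toEmbedding.trans (Fin.valEmbedding.trans (Infinite.natEmbedding s))
  exact ⟨_, hs.1.comp e e.injective⟩

theorem s_g4 : S_G4 := by
  intro J _ G S hG h
  have h1 : (AlgebraicIndependent.matroid ℚ ℝ).Indep (Set.range G) := hG.to_subtype_range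
  have h2 : Set.range G ⊆ (AlgebraicIndependent.matroid ℚ ℝ).closure S := by
    rintro _ ⟨j, rfl⟩
    obtain ⟨a, b, ha, hb, h0, e⟩ := h j
    rw [AlgebraicIndependent.matroid_closure_eq, SetLike.mem_coe, Subalgebra.mem_algebraicClosure]
    refine ⟨C ⟨a, ha⟩ * X - C ⟨b, hb⟩, fun h3 => h0 ?_, ?_⟩
    · have h4 := congrArg (coeff · 1) h3
      simp only [coeff_sub, coeff_C_mul, coeff_X_one, mul_one, coeff_C_succ, sub_zero,
        coeff_zero] at h4
      exact congrArg Subtype.val h4
    · rw [map_sub, map_mul, aeval_C, aeval_C, aeval_X]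
      exact sub_eq_zero.2 e
  have h3 := (h1.encard_le_eRk_of_subset h2).trans
    (((AlgebraicIndependent.matroid ℚ ℝ).eRk_closure_eq _).le.trans (Matroid.eRk_le_encard _ _))
  rw [← Set.image_univ, hG.injective.encard_image, Set.encard_univ, ENat.card_eq_coe_fintype_card,
    Set.encard_coe_eq_coe_finsetCard] at h3
  exact_mod_cast h3

end Pool.Agent.P.MP_9ca318_co.BL
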