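import Pool.Agent.P.MP_9ca318_co.BL.Iface

/-! Separation by monomials and maximal minors. -/

set_option autoImplicit false

namespace Pool.Agent.P.MP_9ca318_co.BL

open Finset

namespace TG23A

theorem aux {V : Type} [Fintype V] (Q : ℕ) : ∀ (S : Finset (V → ℝ)) (c : (V → ℝ) → ℝ),
    S.card ≤ Q + 1 → (∀ α : V → ℕ, (∀ v, α v ≤ Q) → ∑ x ∈ S, c x * ∏ v, x v ^ α v = 0) →
    ∀ x ∈ S, c x = 0 := by
  classical
  have fin : ∀ (Q : ℕ) (S : Finset (V → ℝ)) (c : (V → ℝ) → ℝ) (b : V → ℝ), b ∈ S →
      (∀ α : V → ℕ, (∀ v, α v ≤ Q) → ∑ x ∈ S, c x * ∏ v, x v ^ α v = 0) →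
      (∀ x ∈ S.erase b, c x = 0) → c b = 0 := fun Q S c b hb h h0 => by
    have := h 0 fun _ => Nat.zero_le _
    rw [← add_sum_erase _ _ hb, sum_eq_zero fun x hx => by rw [h0 x hx, zero_mul]] at this
    simpa using this
  induction Q with
  | zero =>
    intro S c hS h b hb
    refine fin 0 S c b hb h fun x hx => ?_
    exact absurd (card_le_one.1 hS x (mem_of_mem_erase hx) b hb) (ne_of_mem_erase hx)
  | succ Q ih =>
    intro S c hS h b hb
    refine fin _ S c b hb h fun x hx => ?_
    obtain ⟨v0, hv⟩ := Function.ne_iff.1 (ne_of_mem_erase hx)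
    have := ih (S.erase b) (fun x => c x * (x v0 - b v0)) (by rw [card_erase_of_mem hb]; omega)
      (fun α hα => by
        have h1 := h α fun v => (hα v).trans (Nat.le_succ Q)
        have h2 := h (fun v => α v + if v = v0 then 1 else 0) fun v => by
          have := hα v
          split_ifs <;> omega
        rw [sum_erase _ (by simp)]
        simp only [pow_add, prod_mul_distrib, pow_ite, pow_one, pow_zero, prod_ite_eq', mem_univ,
          if_true] at h2
        rw [← sub_zero 0]
        nth_rewrite 1 [← h2]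
        rw [← mul_zero (b v0), ← h1, mul_sum, ← sum_sub_distrib]
        exact sum_congr rfl fun y _ => by ring) x hx
    exact (mul_eq_zero.1 this).resolve_right (sub_ne_zero.2 hv)

end TG23A

theorem s_g2 : S_G2 := fun _ _ Q S c hS h =>
  TG23A.aux Q S c hS fun α hα => h fun v => ⟨α v, Nat.lt_succ_of_le (hα v)⟩

theorem s_g3 : S_G3 := by
  intro m J M h
  have h1 : Submodule.span ℝ (Set.range fun α e => M e α) = ⊤ := by
    by_contra hne
    obtain ⟨f, hf, hk⟩ := Submodule.exists_le_ker_of_lt_top _ (lt_top_iff_ne_top.2 hne)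
    have h2 := h (fun e => f fun j => if e = j then 1 else 0) fun α => by
      have := hk (Submodule.subset_span (Set.mem_range_self α))
      rw [LinearMap.mem_ker, LinearMap.pi_apply_eq_sum_univ] at this
      simpa [mul_comm] using this
    refine hf (LinearMap.ext fun x => ?_)
    rw [LinearMap.pi_apply_eq_sum_univ]
    exact sum_eq_zero fun e _ => by rw [congrFun h2 e]; simp
  obtain ⟨κ, a, ha, h2, h3⟩ := exists_linearIndependent' ℝ fun α e => M e α
  have : Finite κ := h3.finite
  have := Fintype.ofFinite κ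
  have h4 := finrank_span_eq_card h3
  rw [h2, h1, finrank_top, Module.finrank_fin_fun] at h4
  let e := Fintype.equivFinOfCardEq h4.symm
  refine ⟨a ∘ e.symm, ha.comp e.symm.injective, IsUnit.ne_zero ?_⟩
  rw [← Matrix.isUnit_iff_isUnit_det, ← Matrix.linearIndependent_cols_iff_isUnit]
  exact h3.comp e.symm e.symm.injective

end Pool.Agent.P.MP_9ca318_co.BL
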