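import Pool.Agent.P.MP_9ca318_co.BL.Iface

set_option autoImplicit false

namespace Pool.Agent.P.MP_9ca318_co.BL

open Finset

namespace TG5A

theorem cramer_mem {m : ℕ} (B : Subalgebra ℚ ℝ) (M : Matrix (Fin m) (Fin m) ℝ) (g rhs : Fin m → ℝ)
    (hM : ∀ e k, M e k ∈ B) (hr : ∀ e, rhs e ∈ B) (h : M.mulVec g = rhs) (k : Fin m) :
    M.det ∈ B ∧ M.det * g k ∈ B := by
  let M' : Matrix (Fin m) (Fin m) B := fun e k => ⟨M e k, hM e k⟩
  have hMM : M = (B.val : B →+* ℝ).mapMatrix M' := by ext e k; rfl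
  have hdet : M.det ∈ B := by
    rw [hMM, ← RingHom.map_det]; exact (M'.det).2
  have hadj : ∀ e k, M.adjugate e k ∈ B := by
    intro e k
    rw [hMM, ← RingHom.map_adjugate]; exact (M'.adjugate e k).2
  refine ⟨hdet, ?_⟩
  have h1 : M.adjugate.mulVec rhs = M.det • g := by
    rw [← h, Matrix.mulVec_mulVec, Matrix.adjugate_mul, Matrix.smul_mulVec, Matrix.one_mulVec]
  have h2 : M.det * g k = ∑ e, M.adjugate k e * rhs e := by
    have := congrFun h1 k
    simp only [Pi.smul_apply, smul_eq_mul] at this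
    rw [← this]; rfl
  rw [h2]
  exact B.sum_mem fun e _ => B.mul_mem (hadj k e) (hr e)

end TG5A

open TG5A in
theorem s_g5 (h2 : S_G2) (h3 : S_G3) (h4 : S_G4) : S_G5 := by
  classical
  intro V _ D Q L ε G hε hG S z hS hz
  set m := S.card with hm
  let x : Fin m → (V → ℝ) := fun e => (S.equivFin.symm e : V → ℝ)
  have hxS : ∀ e, x e ∈ S := fun e => (S.equivFin.symm e).2
  have hxi : Function.Injective x := fun a b h => S.equivFin.symm.injective (Subtype.ext h)
  have hsum : ∀ F : (V → ℝ) → ℝ, ∑ y ∈ S, F y = ∑ e, F (x e) := by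
    intro F
    rw [← Finset.sum_coe_sort S F]
    exact (Equiv.sum_comp S.equivFin.symm (fun y : S => F y)).symm
  obtain ⟨T, hT, hdet⟩ := h3 m (V → Fin (Q + 1)) (fun e α => ∏ v, x e v ^ (α v).val) (by
    intro c hc
    have h0 := h2 V Q S (fun y => if h : y ∈ S then c (S.equivFin ⟨y, h⟩) else 0) hS (by
      intro α
      rw [hsum]
      refine Eq.trans (Finset.sum_congr rfl fun e _ => ?_) (hc α)
      simp only [hxS e, dif_pos]
      congr 2
      exact S.equivFin.apply_symm_apply e)
    funext e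
    have h1 := h0 (x e) (hxS e)
    simp only [hxS e, dif_pos] at h1
    rw [← S.equivFin.apply_symm_apply e]
    exact h1)
  let Fr : Finset (V → Fin (Q + 1)) := univ \ univ.image T
  let S' : Finset ℝ := (S.biUnion fun y => (univ.filter fun v => y v ≠ 0).image y) ∪
    (univ.image z ∪ ((univ : Finset (Fin D)) ×ˢ Fr).image G)
  let B := Algebra.adjoin ℚ (S' : Set ℝ)
  have hS'B : ∀ a ∈ S', a ∈ B := fun a ha => Algebra.subset_adjoin ha
  have hxB : ∀ e v, x e v ∈ B := by
    intro e v
    by_cases h0 : x e v = 0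
    · rw [h0]; exact B.zero_mem
    · refine hS'B _ (Finset.mem_union_left _ (Finset.mem_biUnion.2 ⟨x e, hxS e, ?_⟩))
      exact Finset.mem_image.2 ⟨v, by simpa using h0, rfl⟩
  have hzB : ∀ s, z s ∈ B := fun s => hS'B _ (Finset.mem_union_right _ (Finset.mem_union_left _
    (Finset.mem_image.2 ⟨s, Finset.mem_univ _, rfl⟩)))
  have hGB : ∀ s, ∀ α ∈ Fr, G (s, α) ∈ B := fun s α hα => hS'B _ (Finset.mem_union_right _
    (Finset.mem_union_right _ (Finset.mem_image.2 ⟨(s, α), Finset.mem_product.2 ⟨Finset.mem_univ _, hα⟩, rfl⟩)))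
  have hqB : ∀ q : ℚ, (q : ℝ) ∈ B := fun q => B.algebraMap_mem q
  have hmon : ∀ e (α : V → Fin (Q + 1)), ∏ v, x e v ^ (α v).val ∈ B := fun e α =>
    B.prod_mem fun v _ => B.pow_mem (hxB e v) _
  have hcard := h4 (Fin D × (V → Fin (Q + 1))) G S' hG (by
    rintro ⟨s, α⟩
    by_cases hα : α ∈ Fr
    · exact ⟨1, G (s, α), B.one_mem, hGB s α hα, one_ne_zero, one_mul _⟩
    · have : α ∈ univ.image T := by
        by_contra h0
        exact hα (Finset.mem_sdiff.2 ⟨Finset.mem_univ _, h0⟩)
      obtain ⟨k, -, rfl⟩ := Finset.mem_image.1 this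
      have hc := cramer_mem B (Matrix.of fun e k => ∏ v, x e v ^ (T k v).val) (fun k => G (s, T k))
        (fun e => ((ε⁻¹ : ℚ) : ℝ) * (z s - ∑ v, (L s v : ℝ) * x e v) -
          ∑ α ∈ Fr, G (s, α) * ∏ v, x e v ^ (α v).val)
        (fun e k => hmon e (T k))
        (fun e => B.sub_mem (B.mul_mem (hqB _) (B.sub_mem (hzB s)
          (B.sum_mem fun v _ => B.mul_mem (hqB _) (hxB e v))))
          (B.sum_mem fun α hα => B.mul_mem (hGB s α hα) (hmon e α)))
        (by
          funext e
          have h1 := hz (x e) (hxS e) s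
          have hε' : (ε : ℝ) ≠ 0 := by exact_mod_cast hε
          have h5 : ∑ α : V → Fin (Q + 1), G (s, α) * ∏ v, x e v ^ (α v).val =
              ∑ α ∈ Fr, G (s, α) * ∏ v, x e v ^ (α v).val +
              ∑ k, (∏ v, x e v ^ (T k v).val) * G (s, T k) := by
            rw [← Finset.sum_sdiff (Finset.subset_univ (univ.image T)),
              Finset.sum_image (fun a _ b _ h => hT h)]
            congr 1
            exact Finset.sum_congr rfl fun k _ => mul_comm _ _
          have h6 : (Matrix.of fun e k => ∏ v, x e v ^ (T k v).val).mulVec (fun k => G (s, T k)) e =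
              ∑ k, (∏ v, x e v ^ (T k v).val) * G (s, T k) := rfl
          rw [h6, ← h1]
          have h7 : (∑ α : V → Fin (Q + 1), G (s, α) * ∏ v, x e v ^ (α v).val) =
              ∑ α ∈ Fr, G (s, α) * ∏ v, x e v ^ (α v).val +
              ∑ k, (∏ v, x e v ^ (T k v).val) * G (s, T k) := h5
          push_cast
          rw [add_sub_cancel_left, ← mul_assoc, inv_mul_cancel₀ hε', one_mul]
          convert (eq_sub_of_add_eq' h7.symm) using 2) k
      exact ⟨_, _, hc.1, hc.2, hdet, rfl⟩)
  have hN : m ≤ Fintype.card (V → Fin (Q + 1)) := by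
    simpa using Fintype.card_le_of_injective T hT
  have hFr : Fr.card = Fintype.card (V → Fin (Q + 1)) - m := by
    rw [Finset.card_sdiff_of_subset (Finset.subset_univ _), Finset.card_image_of_injective _ hT]
    simp
  have hS'c : S'.card ≤ ∑ y ∈ S, sp y + (D + D * Fr.card) := by
    refine (Finset.card_union_le _ _).trans (Nat.add_le_add ?_ ((Finset.card_union_le _ _).trans
      (Nat.add_le_add ?_ ?_)))
    · refine Finset.card_biUnion_le.trans (Finset.sum_le_sum fun y _ => ?_)
      refine Finset.card_image_le.trans (le_of_eq ?_)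
      rw [sp_def]
    · simpa using Finset.card_image_le (s := univ) (f := z)
    · simpa using Finset.card_image_le (s := (univ : Finset (Fin D)) ×ˢ Fr) (f := G)
  rw [Fintype.card_prod, Fintype.card_fin] at hcard
  obtain ⟨k, hk⟩ := Nat.exists_eq_add_of_le hN
  rw [hFr, hk, Nat.add_sub_cancel_left] at hS'c
  rw [hk, Nat.mul_add] at hcard
  omega

end Pool.Agent.P.MP_9ca318_co.BL
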