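import Pool.Agent.P.MP_9ca318_co.BL.Iface

/-! A rational linear map bounded below on vectors of small support. -/

set_option autoImplicit false

namespace Pool.Agent.P.MP_9ca318_co.BL

open Finset

namespace TG6A

theorem vand {V : Type} [Fintype V] {D : ℕ} (f : V → ℝ) (hf : Function.Injective f) (x : V → ℝ)
    (hx : sp x ≤ D) (h : ∀ s : Fin D, ∑ v, f v ^ (s : ℕ) * x v = 0) : x = 0 := by
  classical
  rw [sp_def] at hx
  set S := univ.filter (fun v => x v ≠ 0) with hS
  have h1 := Matrix.eq_zero_of_forall_pow_sum_mul_pow_eq_zero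
    (f := fun j => f (S.equivFin.symm j)) (v := fun j => x (S.equivFin.symm j))
    (hf.comp (Subtype.val_injective.comp S.equivFin.symm.injective)) fun i => by
      rw [Equiv.sum_comp S.equivFin.symm fun a : S => x a * f a ^ (i : ℕ),
        Finset.sum_coe_sort S fun a => x a * f a ^ (i : ℕ), ← h ⟨i, i.2.trans_le hx⟩]
      refine (Finset.sum_filter _ _).trans (Finset.sum_congr rfl fun v _ => ?_)
      split_ifs with h2
      · exact mul_comm _ _
      · rw [not_not.1 h2, mul_zero]
  funext v
  by_contra h2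
  have h3 := congrFun h1 (S.equivFin ⟨v, by simpa [hS] using h2⟩)
  simp only [Equiv.symm_apply_apply] at h3
  exact h2 h3

end TG6A

theorem s_g6 : S_G6 := by
  classical
  intro V _ D
  let L : Fin D → V → ℚ := fun s v => ((Fintype.equivFin V v : ℕ) : ℚ) ^ (s : ℕ)
  let F : (V → ℝ) → Fin D → ℝ := fun x s => ∑ v, (L s v : ℝ) * x v
  have hF : Continuous F := by fun_prop
  obtain ⟨c, hc, h⟩ := IsCompact.exists_forall_le' (f := fun x => ‖F x‖) (a := 0)
    ((isCompact_sphere (0 : V → ℝ) 1).inter_left (isClosed_sp_le D)) hF.norm.continuousOn (by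
      rintro x ⟨h1, h2⟩
      refine norm_pos_iff.2 fun h0 => ?_
      have h3 := TG6A.vand (fun v => ((Fintype.equivFin V v : ℕ) : ℝ))
        (fun a b h => (Fintype.equivFin V).injective (Fin.ext (Nat.cast_injective h))) x h1
        fun s => by simpa [F, L] using congrFun h0 s
      simp [h3] at h2)
  refine ⟨L, c, hc, fun x hx => ?_⟩
  rcases eq_or_ne x 0 with rfl | h0
  · simp
  have h1 : 0 < ‖x‖ := norm_pos_iff.2 h0
  have h2 := h (‖x‖⁻¹ • x) ⟨le_trans (b := sp x) (by
    rw [sp_def, sp_def]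
    refine Finset.card_le_card fun v hv => ?_
    simp only [Finset.mem_filter, Finset.mem_univ, true_and] at hv ⊢
    exact fun h3 => hv (by simp [h3])) hx, by simp [norm_smul, h1.ne']⟩
  have h3 : F (‖x‖⁻¹ • x) = ‖x‖⁻¹ • F x := by
    funext s
    simp only [F, Pi.smul_apply, smul_eq_mul, Finset.mul_sum, mul_left_comm]
  rw [h3, norm_smul, norm_inv, norm_norm, inv_mul_eq_div, le_div_iff₀ h1] at h2
  exact h2

end Pool.Agent.P.MP_9ca318_co.BL
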