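import Pool.Agent.P.MP_9ca318_co.BL.Iface

/-! The combinatorial property of the fibres of a generic map. -/

set_option autoImplicit false

namespace Pool.Agent.P.MP_9ca318_co.BL

open Finset

namespace TGAMA

theorem key {V : Type} [Fintype V] {D : ℕ} {f : (V → ℝ) → Fin D → ℝ} (hf : GenOK D 274 f)
    {m : ℕ} {x : Fin m → V → ℝ} {z : Fin D → ℝ} (hx : Function.Injective x)
    (hz : ∀ a, f (x a) = z) (O : Finset (Fin m)) (hO : O.card ≤ 274) :
    D * O.card ≤ ∑ a ∈ O, sp (x a) + D := by
  classical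
  have h1 := hf.2.2 (O.image x) z (by rw [card_image_of_injective _ hx]; exact hO) (by
    intro y hy
    obtain ⟨a, -, rfl⟩ := mem_image.1 hy
    exact hz a)
  rw [card_image_of_injective _ hx, sum_image (fun a _ b _ e => hx e)] at h1
  exact h1

/-- A largest fibre of a colouring with 91 colours. -/
theorem fibre {m : ℕ} (O : Finset (Fin m)) (c : Fin m → Fin 91) :
    ∃ j : Fin 91, O.card ≤ 91 * (O.filter (fun a => c a = j)).card := by
  classical
  obtain ⟨j, -, hj⟩ := Finset.exists_max_image (univ : Finset (Fin 91))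
    (fun j => (O.filter (fun a => c a = j)).card) ⟨0, mem_univ _⟩
  refine ⟨j, ?_⟩
  rw [Finset.card_eq_sum_card_fiberwise (f := c) (s := O) (t := univ) (fun a _ => mem_univ _)]
  calc ∑ j' : Fin 91, (O.filter (fun a => c a = j')).card
      ≤ ∑ _j' : Fin 91, (O.filter (fun a => c a = j)).card :=
        Finset.sum_le_sum fun j' _ => hj j' (mem_univ _)
    _ = 91 * (O.filter (fun a => c a = j)).card := by simp

end TGAMA

theorem s_gam (h : S_SUPP) : S_GAM := by
  classical
  intro u i n D f hu hn hD hf m x z hx hxz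
  have key := TGAMA.key hf hx (fun a => (hxz a).2)
  have hm : m ≤ 273 := by
    by_contra hm
    obtain ⟨O, -, hO⟩ := Finset.exists_subset_card_eq (s := (univ : Finset (Fin m))) (n := 274)
      (by rw [card_univ, Fintype.card_fin]; omega)
    have h1 := key O hO.le
    have h2 : ∀ a, sp (x a) + (i + 1) ≤ 3 * n := fun a => by
      obtain ⟨s, hs, hs'⟩ := (hxz a).1.2.2.2.2
      have := (h n (i + 1) (x a) (hxz a).1).1 s hs'
      omega
    have h3 : ∑ a ∈ O, (sp (x a) + (i + 1)) ≤ ∑ _a ∈ O, 3 * n := Finset.sum_le_sum fun a _ => h2 a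
    rw [Finset.sum_add_distrib, Finset.sum_const, Finset.sum_const, hO, smul_eq_mul, smul_eq_mul] at h3
    rw [hO] at h1
    omega
  refine ⟨hm, fun a b ha hb => ?_, fun O => ?_⟩
  · by_contra hne
    have h1 := key {a, b} (by rw [card_pair hne]; omega)
    rw [card_pair hne, sum_pair hne] at h1
    have h2 := (h n (i + 1) (x a) (hxz a).1).2 ha
    have h3 := (h n (i + 1) (x b) (hxz b).1).2 hb
    omega
  · have hO : O.card ≤ 273 := by
      have := Finset.card_le_univ O
      rw [Fintype.card_fin] at this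
      omega
    have h1 := key O (by omega)
    have h2 : ∀ a, sp (x a) + (univ.filter (fun b : Fin n => NoH (x a) b)).card ≤ 3 * n := fun a =>
      (h n (i + 1) (x a) (hxz a).1).1 _ fun b hb => (mem_filter.1 hb).2
    have h3 : ∑ a ∈ O, (sp (x a) + (univ.filter (fun b : Fin n => NoH (x a) b)).card)
        ≤ ∑ _a ∈ O, 3 * n := Finset.sum_le_sum fun a _ => h2 a
    rw [Finset.sum_add_distrib, Finset.sum_const, smul_eq_mul] at h3
    have h4 : ∑ a ∈ O, (univ.filter (fun b : Fin n => NoH (x a) b)).card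
        = ∑ b : Fin n, (O.filter (fun a => NoH (x a) b)).card := by
      simp only [Finset.card_filter]
      exact Finset.sum_comm
    have h5 : O.card * (3 * n) = D * O.card + (u + 2) * O.card := by rw [← hD]; ring
    have h6 : (u + 2) * O.card ≤ (u + 2) * 273 := Nat.mul_le_mul_left _ hO
    have h7 : ∑ b : Fin n, (O.filter (fun a => NoH (x a) b)).card < ∑ _b : Fin n, 4 := by
      rw [← h4, Finset.sum_const, card_univ, Fintype.card_fin, smul_eq_mul]
      omega
    obtain ⟨b, -, hb⟩ := Finset.exists_lt_of_sum_lt h7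
    have h8 : ∀ a, ∃ τ : Fin 3 → Fin 91, ¬ NoH (x a) b → x a (b, .inr (.inr τ)) ≠ 0 := fun a => by
      by_cases hN : NoH (x a) b
      · exact ⟨fun _ => 0, fun h' => absurd hN h'⟩
      · have hN' := hN
        unfold NoH at hN'
        push Not at hN'
        obtain ⟨τ, hτ⟩ := hN'
        exact ⟨τ, fun _ => hτ⟩
    choose τ hτ using h8
    obtain ⟨j, hj⟩ := TGAMA.fibre (O.filter (fun a => ¬ NoH (x a) b)) (fun a => τ a 0)
    refine ⟨(O.filter (fun a => ¬ NoH (x a) b)).filter (fun a => τ a 0 = j),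
      (filter_subset _ _).trans (filter_subset _ _), fun a ha a' ha' _ hC => ?_, ?_⟩
    · simp only [mem_filter] at ha ha'
      exact hC b 0 j ⟨Or.inr ⟨τ a, ha.2, hτ a ha.1.2⟩, Or.inr ⟨τ a', ha'.2, hτ a' ha'.1.2⟩⟩
    · have h9 := Finset.card_filter_add_card_filter_not (s := O) (fun a => NoH (x a) b)
      omega

end Pool.Agent.P.MP_9ca318_co.BL
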