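import Pool.Agent.P.MP_9ca318_co.BL.Iface

set_option autoImplicit false

namespace Pool.Agent.P.MP_9ca318_co.BL

namespace TGATEA

theorem inv_bounds {L t C δ : ℝ} (hC : 0 ≤ C) (hδ : 0 < δ) (hL : 0 ≤ L) (ht : 0 ≤ t)
    (h1 : L + δ * t = 1) (h2 : t ≤ C * L) : 0 < L ∧ L ≤ 1 ∧ 1 ≤ L⁻¹ ∧ L⁻¹ ≤ 1 + δ * C := by
  have h3 : δ * t ≤ δ * (C * L) := mul_le_mul_of_nonneg_left h2 hδ.le
  have h4 : 0 ≤ δ * t := mul_nonneg hδ.le ht
  have h5 : 0 < L := by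
    refine lt_of_le_of_ne hL fun e => ?_
    rw [← e] at h1 h3
    simp only [mul_zero] at h3
    linarith
  refine ⟨h5, by linarith, (one_le_inv₀ h5).2 (by linarith), ?_⟩
  rw [inv_eq_one_div, div_le_iff₀ h5]
  nlinarith

end TGATEA

theorem s_gate (h : S_APPROX) : S_GATE := by
  intro r ι _ A _ _ _ hr ⟨f, hf, hcex⟩
  obtain ⟨η, hη, hm⟩ := margin f hf hcex
  obtain ⟨F, ⟨σ, hσ, A', B, a, b, C, hC, hR⟩, hhom, happ⟩ := h r ι A f (η / 4) hr hf (by positivity)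
  set δ : ℝ := η / (4 * (C ^ 2 + 1)) with hδ
  have hδ0 : 0 < δ := by positivity
  have hδC : δ * C * C ≤ η / 4 := by
    have : δ * (C ^ 2 + 1) = η / 4 := by rw [hδ]; field_simp
    nlinarith
  let p1 : (ι ⊕ σ → Fin r → ℝ) →ₗ[ℝ] (ι → Fin r → ℝ) := LinearMap.funLeft ℝ _ Sum.inl
  let p2 : (ι ⊕ σ → Fin r → ℝ) →ₗ[ℝ] (σ → Fin r → ℝ) := δ⁻¹ • LinearMap.funLeft ℝ _ Sum.inr
  refine ⟨σ, hσ, LinearMap.prod (a ∘ₗ p1 + b ∘ₗ p2) (A' ∘ₗ p1 + B ∘ₗ p2), fun y hy => ?_⟩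
  by_contra hcon
  push Not at hcon
  let x : Fin r → ι → Fin r → ℝ := fun c j => y c (.inl j)
  let z : Fin r → σ → Fin r → ℝ := fun c => δ⁻¹ • fun s => y c (.inr s)
  have hx : Raw x := hy.1.comp Sum.inl
  have hz : Raw z := (hy.1.comp Sum.inr).scale (fun _ => δ⁻¹) fun _ => by positivity
  have e1 : ∀ c c', a (x c) + b (z c) = a (x c') + b (z c') := fun c c' =>
    congrArg Prod.fst (hcon c c')
  have e2 : ∀ c c', A' (x c) + B (z c) = A' (x c') + B (z c') := fun c c' =>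
    congrArg Prod.snd (hcon c c')
  have hF := hR x z hx hz e2
  have hb : ∀ c, 0 < tot (x c) ∧ tot (x c) ≤ 1 ∧ 1 ≤ (tot (x c))⁻¹ ∧
      (tot (x c))⁻¹ ≤ 1 + δ * C := fun c => by
    refine TGATEA.inv_bounds hC hδ0 (tot_nonneg (hx.nn c)) (tot_nonneg (hz.nn c)) ?_ (hF c).2.1
    have h1 := tot_sum (y c)
    rw [hy.2 c] at h1
    have h2 : tot (z c) = δ⁻¹ * tot (fun s => y c (.inr s)) := tot_smul _ _
    rw [h2, mul_inv_cancel_left₀ hδ0.ne']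
    exact h1.symm
  have hT : Tup (fun c => (tot (x c))⁻¹ • x c) :=
    ⟨hx.scale _ fun c => (inv_pos.2 (hb c).1).le, fun c => by
      rw [tot_smul, inv_mul_cancel₀ (hb c).1.ne']⟩
  obtain ⟨c, c', hcc⟩ := hm _ hT
  have h1 := happ _ (hT.1.nn c) (hT.2 c)
  have h2 := happ _ (hT.1.nn c') (hT.2 c')
  have e3 : F (x c') = F (x c) := by rw [← (hF c).1, ← (hF c').1, e1 c c']
  rw [hhom _ _ (inv_pos.2 (hb c).1).le] at h1
  rw [hhom _ _ (inv_pos.2 (hb c').1).le, e3] at h2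
  have h3 : ‖F (x c)‖ ≤ C := (hF c).2.2.trans (mul_le_of_le_one_right hC (hb c).2.1)
  have h4 : ‖(tot (x c))⁻¹ • F (x c) - (tot (x c'))⁻¹ • F (x c)‖ ≤ δ * C * C := by
    rw [← sub_smul, norm_smul, Real.norm_eq_abs]
    refine mul_le_mul (abs_le.2 ⟨?_, ?_⟩) h3 (norm_nonneg _) (by positivity)
    · linarith [(hb c).2.2.1, (hb c').2.2.2]
    · linarith [(hb c').2.2.1, (hb c).2.2.2]
  have h5 := dist_triangle4 (f ((tot (x c))⁻¹ • x c)) ((tot (x c))⁻¹ • F (x c))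
    ((tot (x c'))⁻¹ • F (x c)) (f ((tot (x c'))⁻¹ • x c'))
  rw [dist_comm (f _) ((tot (x c))⁻¹ • F (x c))] at h5
  simp only [dist_eq_norm] at h5
  linarith

end Pool.Agent.P.MP_9ca318_co.BL
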