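import Pool.Agent.P.MP_9ca318_co.BL.Iface

/-! Existence of a generic map of the cube. -/

set_option autoImplicit false

namespace Pool.Agent.P.MP_9ca318_co.BL

open Finset

theorem s_gen (h1 : S_G1) (h5 : S_G5) (h6 : S_G6) : S_GEN := by
  classical
  intro V _ D Q
  obtain ⟨L, c, hc, hL⟩ := h6 V D
  obtain ⟨G, hG⟩ := h1 (Fin D × (V → Fin (Q + 1)))
  let P : (V → ℝ) → Fin D → ℝ := fun x s => ∑ α, G (s, α) * ∏ v, x v ^ (α v).val
  have hP : ContDiff ℝ 1 P := by
    refine contDiff_pi.2 fun s => ContDiff.sum fun α _ => contDiff_const.mul ?_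
    exact contDiff_prod fun v _ => (contDiff_apply ℝ ℝ v).pow _
  obtain ⟨K, hK⟩ := (hP.locallyLipschitz.locallyLipschitzOn (s := Set.Icc (0 : V → ℝ) 1)
    ).exists_lipschitzOnWith_of_compact isCompact_Icc
  have hK1 : (0 : ℝ) < K + 1 := by positivity
  obtain ⟨ε, e0, e1⟩ := exists_rat_btwn (div_pos hc hK1)
  have e2 : (ε : ℝ) * K < c := by
    rw [lt_div_iff₀ hK1] at e1
    nlinarith
  refine ⟨fun x s => ∑ v, (L s v : ℝ) * x v + (ε : ℝ) * P x s, ?_, fun x x' hx hx' hs e => ?_,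
    fun S z hS hz => h5 V D Q L ε G (by exact_mod_cast e0.ne') hG S z (by omega)
      fun x hx s => congrFun (hz x hx) s⟩
  · refine continuous_pi fun s => Continuous.add (by fun_prop) (continuous_const.mul ?_)
    exact (continuous_apply s).comp hP.continuous
  · have m1 : x ∈ Set.Icc (0 : V → ℝ) 1 := ⟨fun v => (hx v).1, fun v => (hx v).2⟩
    have m2 : x' ∈ Set.Icc (0 : V → ℝ) 1 := ⟨fun v => (hx' v).1, fun v => (hx' v).2⟩
    have a1 := hK.dist_le_mul x' m2 x m1
    have a2 := hL (x - x') hs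
    have a3 : (fun s => ∑ v, (L s v : ℝ) * (x - x') v) = (ε : ℝ) • (P x' - P x) := by
      funext s
      have := congrFun e s
      simp only [Pi.sub_apply, mul_sub, Finset.sum_sub_distrib, Pi.smul_apply, smul_eq_mul] at this ⊢
      linarith
    rw [a3, norm_smul, Real.norm_eq_abs, abs_of_pos e0] at a2
    rw [dist_eq_norm, dist_eq_norm, norm_sub_rev x'] at a1
    have a4 : ‖x - x'‖ ≤ 0 := by
      by_contra h
      have h' : 0 < ‖x - x'‖ := lt_of_not_ge h
      nlinarith [mul_le_mul_of_nonneg_left a1 e0.le, mul_lt_mul_of_pos_right e2 h']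
    exact sub_eq_zero.1 (norm_le_zero_iff.1 a4)

end Pool.Agent.P.MP_9ca318_co.BL
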