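import Pool.Agent.P.MP_9ca318_co.BL.Iface

set_option autoImplicit false

namespace Pool.Agent.P.MP_9ca318_co.BL

open Finset

namespace TIMPA

/-- The normalising factor. -/
noncomputable def mm {r : ℕ} {ι σ : Type} [Fintype ι] (L0 : ℝ) (y : ι ⊕ σ → Fin r → ℝ) : ℝ :=
  max (tot (fun j => y (.inl j))) L0

theorem mm_pos {r : ℕ} {ι σ : Type} [Fintype ι] {L0 : ℝ} (h : 0 < L0) (y : ι ⊕ σ → Fin r → ℝ) :
    0 < mm L0 y := lt_of_lt_of_le h (le_max_right _ _)

theorem continuous_mm {r : ℕ} {ι σ : Type} [Fintype ι] (L0 : ℝ) :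
    Continuous (mm L0 : (ι ⊕ σ → Fin r → ℝ) → ℝ) := by
  unfold mm
  exact (continuous_tot.comp (by fun_prop)).max continuous_const

/-- The second component. -/
noncomputable def Yv {r : ℕ} {ι E : Type} [Fintype ι] (L0 : ℝ)
    (y : ι ⊕ (ι × Fin r × E) → Fin r → ℝ) : E → ℝ :=
  fun s => (∑ j, ∑ i, sg (y (.inr (j, i, s)))) / mm L0 y

theorem continuous_Yv {r : ℕ} {ι E : Type} [Fintype ι] {L0 : ℝ} (h : 0 < L0) :
    Continuous (Yv L0 : (ι ⊕ (ι × Fin r × E) → Fin r → ℝ) → E → ℝ) := by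
  refine continuous_pi fun s => ?_
  unfold Yv
  refine Continuous.div ?_ (continuous_mm L0) fun y => (mm_pos h y).ne'
  refine continuous_finsetSum _ fun j _ => continuous_finsetSum _ fun i _ => ?_
  exact continuous_sg.comp (continuous_apply _)

/-- The normalised first part. -/
noncomputable def xh {r : ℕ} {ι σ : Type} [Fintype ι] (L0 : ℝ) (y : ι ⊕ σ → Fin r → ℝ) :
    ι → Fin r → ℝ := (mm L0 y)⁻¹ • fun j => y (.inl j)

theorem continuous_xh {r : ℕ} {ι σ : Type} [Fintype ι] {L0 : ℝ} (h : 0 < L0) :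
    Continuous (xh L0 : (ι ⊕ σ → Fin r → ℝ) → ι → Fin r → ℝ) := by
  unfold xh
  refine Continuous.smul ((continuous_mm L0).inv₀ fun y => (mm_pos h y).ne') (by fun_prop)

theorem xh_cube {r : ℕ} {ι σ : Type} [Fintype ι] {L0 : ℝ} (h : 0 < L0)
    {y : ι ⊕ σ → Fin r → ℝ} (hy : ∀ j i, 0 ≤ y j i) (j : ι) (i : Fin r) :
    0 ≤ xh L0 y j i ∧ xh L0 y j i ≤ 1 := by
  have hm := mm_pos h y
  have h1 : y (.inl j) i ≤ mm L0 y :=
    (le_tot (x := fun j => y (.inl j)) (fun j i => hy _ i) j i).trans (le_max_left _ _)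
  have e : xh L0 y j i = (mm L0 y)⁻¹ * y (.inl j) i := rfl
  rw [e]
  refine ⟨mul_nonneg (inv_nonneg.2 hm.le) (hy _ i), ?_⟩
  rw [inv_mul_le_iff₀ hm, mul_one]
  exact h1

end TIMPA

open TIMPA in
theorem s_imp : S_IMP := by
  intro r ι _ E _ hr hI
  obtain ⟨h, R, hcont, hb, hne⟩ := hI
  have hR : 0 ≤ R := (norm_nonneg _).trans (hb 0 0 fun _ _ => ⟨le_rfl, zero_le_one⟩)
  have hden : 0 < 1 + R * (Fintype.card E : ℝ) := by positivity
  obtain ⟨L0, hL0⟩ : ∃ L0 : ℝ, L0 = 1 / (1 + R * (Fintype.card E : ℝ)) := ⟨_, rfl⟩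
  have hL : 0 < L0 := by rw [hL0]; positivity
  refine ⟨fun y => (fun q => sg (y (.inr q)) -
      y (.inl q.1) q.2.1 * h (Yv L0 y) (xh L0 y) q.2.2, Yv L0 y), ?_, fun y hy => ?_⟩
  · refine Continuous.prodMk (continuous_pi fun q => ?_) (continuous_Yv hL)
    refine Continuous.sub (continuous_sg.comp (continuous_apply _)) (Continuous.mul (by fun_prop) ?_)
    exact (continuous_apply q.2.2).comp
      (hcont.comp ((continuous_Yv hL).prodMk (continuous_xh hL)))
  · by_contra hcon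
    push Not at hcon
    have c1 : Fin r := ⟨0, by omega⟩
    have hY : ∀ c, Yv L0 (y c) = Yv L0 (y c1) := fun c => congrArg Prod.snd (hcon c c1)
    have h1 : ∀ c q, sg (y c (.inr q)) -
        y c (.inl q.1) q.2.1 * h (Yv L0 (y c)) (xh L0 (y c)) q.2.2 =
        sg (y c1 (.inr q)) -
        y c1 (.inl q.1) q.2.1 * h (Yv L0 (y c1)) (xh L0 (y c1)) q.2.2 :=
      fun c q => congrFun (congrArg Prod.fst (hcon c c1)) q
    have h2 : ∀ c q, sg (y c (.inr q)) =
        y c (.inl q.1) q.2.1 * h (Yv L0 (y c1)) (xh L0 (y c)) q.2.2 := by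
      intro c q
      obtain ⟨θ, hθ⟩ : ∃ θ, θ = sg (y c1 (.inr q)) -
        y c1 (.inl q.1) q.2.1 * h (Yv L0 (y c1)) (xh L0 (y c1)) q.2.2 := ⟨_, rfl⟩
      obtain ⟨c0, hc0⟩ := hy.1.exists_col (.inl q.1) q.2.1
      have h3 : ∀ c', c' ≠ c0 → sg (y c' (.inr q)) = θ := by
        intro c' hc'
        have h4 := h1 c' q
        rw [hc0 c' hc', zero_mul, sub_zero, ← hθ] at h4
        exact h4
      have h0 : θ = 0 := by
        rcases lt_trichotomy θ 0 with h5 | h5 | h5
        · exact (hy.1.pin_neg hr (.inr q) c0 fun c' hc' => by rw [h3 c' hc']; exact h5).elim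
        · exact h5
        · exact (hy.1.pin_pos hr (.inr q) c0 fun c' hc' => by rw [h3 c' hc']; exact h5).elim
      have h4 := h1 c q
      rw [← hθ, h0, hY c] at h4
      exact sub_eq_zero.1 h4
    have h3 : ∀ c s, |h (Yv L0 (y c1)) (xh L0 (y c)) s| ≤ R := by
      intro c s
      have h4 := hb (Yv L0 (y c1)) (xh L0 (y c)) (xh_cube hL (hy.1.nn c))
      exact (le_of_eq (Real.norm_eq_abs _).symm).trans ((norm_le_pi_norm _ s).trans h4)
    have h4 : ∀ c, L0 ≤ tot (fun j => y c (.inl j)) := by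
      intro c
      have h5 := hy.2 c
      rw [tot_sum] at h5
      have h6 : tot (fun q => y c (.inr q)) ≤
          tot (fun j => y c (.inl j)) * (R * (Fintype.card E : ℝ)) := by
        calc tot (fun q => y c (.inr q)) = ∑ q, |sg (y c (.inr q))| :=
              Finset.sum_congr rfl fun q _ => sum_eq_abs_sg (hy.1.nn c _) (hy.1.rb c _)
          _ ≤ ∑ q : ι × Fin r × E, y c (.inl q.1) q.2.1 * R := by
              refine Finset.sum_le_sum fun q _ => ?_
              rw [h2 c q, abs_mul, abs_of_nonneg (hy.1.nn c _ _)]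
              exact mul_le_mul_of_nonneg_left (h3 c _) (hy.1.nn c _ _)
          _ = tot (fun j => y c (.inl j)) * (R * (Fintype.card E : ℝ)) := by
              rw [tot, Fintype.sum_prod_type, Finset.sum_mul]
              refine Finset.sum_congr rfl fun j _ => ?_
              rw [Fintype.sum_prod_type, Finset.sum_mul]
              refine Finset.sum_congr rfl fun i _ => ?_
              simp only [Finset.sum_const, Finset.card_univ, nsmul_eq_mul]
              ring
      rw [hL0, div_le_iff₀ hden]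
      linarith
    have h5 : ∀ c, mm L0 (y c) = tot (fun j => y c (.inl j)) := fun c => max_eq_left (h4 c)
    have h6 : Tup (fun c => xh L0 (y c)) := by
      refine ⟨(hy.1.comp Sum.inl).scale (fun c => (mm L0 (y c))⁻¹)
        fun c => inv_nonneg.2 (mm_pos hL _).le, fun c => ?_⟩
      show tot ((mm L0 (y c))⁻¹ • fun j => y c (.inl j)) = 1
      rw [tot_smul, ← h5 c, inv_mul_cancel₀ (mm_pos hL _).ne']
    obtain ⟨c, hc⟩ := hne _ (Yv L0 (y c1)) h6
    refine hc (funext fun s => ?_)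
    have h7 : Yv L0 (y c1) s = (∑ j, ∑ i, sg (y c (.inr (j, i, s)))) / mm L0 (y c) := by
      rw [← hY c]; rfl
    have h8 : ∑ j, ∑ i, sg (y c (.inr (j, i, s))) =
        mm L0 (y c) * h (Yv L0 (y c1)) (xh L0 (y c)) s := by
      rw [h5 c, tot, Finset.sum_mul]
      refine Finset.sum_congr rfl fun j _ => ?_
      rw [Finset.sum_mul]
      exact Finset.sum_congr rfl fun i _ => h2 c (j, i, s)
    rw [h7, h8, mul_div_cancel_left₀ _ (mm_pos hL _).ne']

end Pool.Agent.P.MP_9ca318_co.BL
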