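import Pool.Agent.P.MP_9ca318_co.BL.Iface

set_option autoImplicit false

namespace Pool.Agent.P.MP_9ca318_co.BL

open Finset

namespace TLSA

/-- Points counted with multiplicity. -/
abbrev Om {Ω : Type} (W : Ω → ℤ) (N : ℕ) : Type := {p : Ω × Fin N // p.2.val < (W p.1).natAbs}

/-- Move the first component when possible. -/
def mv {Ω : Type} (W : Ω → ℤ) (N : ℕ) (ω : Ω) (p : Om W N) : Om W N :=
  if h : p.1.2.val < (W ω).natAbs then ⟨(ω, p.1.2), h⟩ else p

theorem mv_val {Ω : Type} {W : Ω → ℤ} {N : ℕ} {ω : Ω} {p : Om W N} (h : W ω = W p.1.1) :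
    (mv W N ω p).1 = (ω, p.1.2) := by
  have h1 : p.1.2.val < (W ω).natAbs := by rw [h]; exact p.2
  rw [mv, dif_pos h1]

theorem sum_sign {Ω : Type} [Fintype Ω] (W : Ω → ℤ) (N : ℕ) (hN : ∀ ω, (W ω).natAbs ≤ N) :
    ∑ p : Om W N, (W p.1.1).sign = ∑ ω, W ω := by
  classical
  have h1 : ∑ p : Om W N, (W p.1.1).sign =
      ∑ p ∈ (univ : Finset (Ω × Fin N)).filter (fun p => p.2.val < (W p.1).natAbs), (W p.1).sign :=
    (Finset.sum_subtype ((univ : Finset (Ω × Fin N)).filter (fun p => p.2.val < (W p.1).natAbs))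
      (fun p => by simp) (fun p => (W p.1).sign)).symm
  rw [h1, Finset.sum_filter, Fintype.sum_prod_type]
  refine Finset.sum_congr rfl fun ω _ => ?_
  rw [← Finset.sum_filter]
  simp only [Finset.sum_const, nsmul_eq_mul]
  rw [Fin.card_filter_val_lt, min_eq_right (hN ω), mul_comm, Int.sign_mul_natAbs]

end TLSA

open TLSA in
theorem s_ls (h : S_LS1) : S_LS := by
  intro Y _ T Ω _ _ Z U g W hZ hU hcov hc hW hinv
  classical
  obtain ⟨N, hN⟩ : ∃ N : ℕ, ∀ ω, (W ω).natAbs ≤ N :=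
    ⟨∑ ω, (W ω).natAbs, fun ω => Finset.single_le_sum (f := fun ω => (W ω).natAbs)
      (fun _ _ => Nat.zero_le _) (Finset.mem_univ ω)⟩
  have hv : ∀ t t', ∀ z ∈ Z, z ∈ U t → z ∈ U t' → ∀ p : Om W N,
      (mv W N (g t t' z p.1.1) p).1 = (g t t' z p.1.1, p.1.2) :=
    fun t t' z hz ht ht' p => mv_val (hinv t t' _ z hz ht ht')
  have hc' : Cocy Z U (fun t t' z (p : Om W N) => mv W N (g t t' z p.1.1) p) := by
    refine ⟨fun t z hz ht p => Subtype.ext ?_, fun t t' t'' z hz ht ht' ht'' p => Subtype.ext ?_,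
      fun t t' z hz ht ht' p => ?_⟩
    · rw [hv t t z hz ht ht, hc.refl t z hz ht]
    · rw [hv t' t'' z hz ht' ht'', hv t t' z hz ht ht', hv t t'' z hz ht ht'',
        hc.trans t t' t'' z hz ht ht' ht'']
    · exact (hc.lc t t' z hz ht ht' p.1.1).mono fun z' e => by rw [e]
  have hne : ∀ p : Om W N, W p.1.1 ≠ 0 := fun p e => by
    have := p.2
    rw [e] at this
    exact absurd this (Nat.not_lt_zero _)
  obtain ⟨μ, i1, φ, R, β, h1, h2, h3⟩ := h Y T (Om W N) Z U _ (fun p => (W p.1.1).sign) hZ hU hcov hc'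
    (fun p => by
      rcases lt_or_gt_of_ne (hne p) with h4 | h4
      · exact Or.inr (Int.sign_eq_neg_one_of_neg h4)
      · exact Or.inl (Int.sign_eq_one_of_pos h4))
    (by rw [sum_sign W N hN, hW])
    (fun t t' p z hz ht ht' => by
      show (W (mv W N (g t t' z p.1.1) p).1.1).sign = (W p.1.1).sign
      rw [hv t t' z hz ht ht', hinv t t' _ z hz ht ht'])
  refine ⟨μ, i1, φ, R, fun t q => (β t q).1.1, h1, h2, ⟨fun q hq t t' ht ht' => ?_,
    fun q hq t ht => (h3.lc q hq t ht).mono fun q' e => by rw [e]⟩, fun t q => hne _⟩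
  rw [h3.eqv q hq t t' ht ht', hv t t' q.1 hq.1 ht ht']

end Pool.Agent.P.MP_9ca318_co.BL
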