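import Pool.Agent.P.MP_9ca318_co.BL.Iface

set_option autoImplicit false

namespace Pool.Agent.P.MP_9ca318_co.BL

open Finset

theorem s_ls1 (h1 : S_NUM) (h2 : S_EMB) (h3 : S_ZIG) (h4 : S_TUBE) (h5 : S_BR) : S_LS1 := by
  classical
  intro Y _ T Ω _ _ Z U g s hZ hU hcov hg hs hsum hsg
  obtain ⟨k, a, ha1, ha2, ha3, ha4⟩ := h1 Ω s hs hsum
  obtain ⟨e, R, he1, he2, he3, he4, he5⟩ := h2 Y T Ω Z U g a hZ hU hcov hg ha1
  obtain ⟨zig, hz1, hz2, hz3, hz4⟩ := h3 k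
  have : Nonempty Ω := by
    by_contra h0
    rw [not_nonempty_iff] at h0
    simp at hsum
  let ρ : Ω → ((T → ℝ) × ℝ) →L[ℝ] ((T → ℝ) × ℝ) := fun ω =>
    (ContinuousLinearMap.id ℝ (T → ℝ)).prodMap ((s ω : ℝ) • ContinuousLinearMap.id ℝ ℝ)
  have hρ : ∀ ω ξ, ρ ω ξ = (ξ.1, (s ω : ℝ) * ξ.2) := fun ω ξ => rfl
  have hρ0 : ∀ ω ξ, ρ ω ξ = 0 → ξ = 0 := by
    intro ω ξ h
    rw [hρ, Prod.mk_eq_zero] at h
    have hne : (s ω : ℝ) ≠ 0 := by rcases hs ω with h' | h' <;> simp [h']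
    exact Prod.ext h.1 ((mul_eq_zero.1 h.2).resolve_left hne)
  let Ξ : (T → ℝ) × ℝ → (T → ℝ) × ℝ := fun ξ => (ξ.1, zig ξ.2)
  have hΞ : Continuous Ξ := continuous_fst.prodMk (hz1.comp continuous_snd)
  have hT := fun k0 : T => h4 Y T Ω ((T → ℝ) × ℝ) Z U g (e k0) ρ Ξ (max R (2 * k)) hZ hU hcov hg
    (he1 k0) (fun t t' ω z hz ht ht' => ⟨he2 k0 t t' ω z hz ht ht', by
      simp only [ρ, hsg t t' ω z hz ht ht']⟩)
    (fun t ω z => (he3 k0 t ω z).trans (le_max_left _ _)) (he4 k0) hΞ (fun ξ => by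
      refine le_trans ?_ (le_max_right _ _)
      have : ξ - Ξ ξ = (0, ξ.2 - zig ξ.2) := Prod.ext (by simp [Ξ]) rfl
      rw [this, Prod.norm_def]
      refine max_le (by simp) ?_
      rw [Real.norm_eq_abs]
      exact hz2 ξ.2)
  choose φ0 R0 hφc hφb hφ using hT
  let π : T → (T × Option T → ℝ) → (T → ℝ) × ℝ := fun k0 ζ => (fun t => ζ (k0, some t), ζ (k0, none))
  have hπ : ∀ k0, Continuous (π k0) := fun k0 => by fun_prop
  let φ : Y → (T × Option T → ℝ) → (T × Option T → ℝ) := fun z ζ p =>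
    p.2.elim (φ0 p.1 z (π p.1 ζ)).2 (fun t => (φ0 p.1 z (π p.1 ζ)).1 t)
  have hfix : ∀ z ζ, φ z ζ = ζ → ∀ k0, φ0 k0 z (π k0 ζ) = π k0 ζ := by
    intro z ζ h k0
    refine Prod.ext (funext fun t => ?_) ?_
    · exact congrFun h (k0, some t)
    · exact congrFun h (k0, none)
  obtain ⟨β, hβ⟩ := h5 Y (T × Option T → ℝ) ((T → ℝ) × ℝ) T T Ω Z U g e π
    {q | q.1 ∈ Z ∧ φ q.1 q.2 = q.2} hU hg hπ (fun q hq => hq.1) he1 he2
    (fun k0 t ω ω' z hz ht h => by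
      by_contra hne
      have := he4 k0 t ω ω' z hz ht hne
      rw [h, dist_self] at this
      norm_num at this)
    (fun q hq k0 t ω ht hd => by
      have h := (hφ k0 t q.1 hq.1 ht (π k0 q.2)).1 ω hd
      rw [hfix q.1 q.2 hq.2 k0, sub_self] at h
      exact sub_eq_zero.1 (hρ0 ω _ h.symm))
    (fun q hq => by
      obtain ⟨k0, hk0, hek⟩ := he5 q.1 hq.1
      have h := (hφ k0 k0 q.1 hq.1 hk0 (π k0 q.2)).2 (fun ω hd => by
        rw [hek ω] at hd ⊢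
        have hd2 : |(π k0 q.2).2 - (a ω : ℝ)| ≤ 1 / 2 := by
          rw [Prod.dist_eq] at hd
          have := (le_max_right _ _).trans_lt hd
          rw [Real.dist_eq] at this
          linarith
        rw [hρ]
        refine Prod.ext (by simp [Ξ]) ?_
        have h7 : ((s ω : ℤ) : ℝ) = (-1) ^ a ω := by rw [← ha4 ω]; push_cast; rfl
        simp only [Ξ, Prod.snd_sub]
        rw [hz3 (a ω) (ha2 ω) _ hd2, h7])
      rw [hfix q.1 q.2 hq.2 k0, sub_self] at h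
      have h8 : (π k0 q.2).1 = 0 := (congrArg Prod.fst h).symm
      have h9 : zig (π k0 q.2).2 = 0 := (congrArg Prod.snd h).symm
      obtain ⟨n, hn, hn'⟩ := hz4 _ h9
      obtain ⟨ω, rfl⟩ := ha3 n hn
      exact ⟨k0, k0, ω, hk0, by rw [hek ω]; exact Prod.ext h8 hn'⟩)
  refine ⟨T × Option T, inferInstance, φ, ∑ k0, |R0 k0|, β, ?_, fun z ζ => ?_, hβ⟩
  · refine continuous_pi fun p => ?_
    have hc : Continuous fun q : Y × (T × Option T → ℝ) => φ0 p.1 q.1 (π p.1 q.2) :=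
      (hφc p.1).comp (continuous_fst.prodMk ((hπ p.1).comp continuous_snd))
    obtain ⟨k0, _ | t⟩ := p
    · exact continuous_snd.comp hc
    · exact (continuous_apply t).comp (continuous_fst.comp hc)
  · refine (pi_norm_le_iff_of_nonneg (Finset.sum_nonneg fun _ _ => abs_nonneg _)).2 fun p => ?_
    have hb : ‖φ0 p.1 z (π p.1 ζ)‖ ≤ ∑ k0, |R0 k0| :=
      ((hφb p.1 z _).trans (le_abs_self _)).trans
        (Finset.single_le_sum (f := fun k0 => |R0 k0|) (fun _ _ => abs_nonneg _) (Finset.mem_univ p.1))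
    obtain ⟨k0, _ | t⟩ := p
    · exact (norm_snd_le _).trans hb
    · exact ((norm_le_pi_norm _ t).trans (norm_fst_le _)).trans hb

end Pool.Agent.P.MP_9ca318_co.BL
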