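import Pool.Agent.P.MP_9ca318_co.BL.Iface

/-! First properties of the map of one block. -/

set_option autoImplicit false

namespace Pool.Agent.P.MP_9ca318_co.BL

open Finset

namespace TPAA

theorem cTT (j : Fin 3) (β : Bool) : Continuous fun v => TT v j β := by
  unfold TT
  refine continuous_finsetSum _ fun i _ => ?_
  split_ifs <;> fun_prop

theorem TT_nn {v : Fin 3 → Fin 91 → ℝ} (h : ∀ j i, 0 ≤ v j i) (j : Fin 3) (β : Bool) : 0 ≤ TT v j β :=
  sum_nonneg fun i _ => by split_ifs; exacts [h j i, le_rfl]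

theorem TT_le {v : Fin 3 → Fin 91 → ℝ} (h : ∀ j i, 0 ≤ v j i) (j : Fin 3) (β : Bool) :
    TT v j β ≤ tot v :=
  le_trans (sum_le_sum fun i _ => by split_ifs; exacts [le_rfl, h j i]) (row_le_tot h j)

theorem row {v : Fin 3 → Fin 91 → ℝ} {p : Fin 3 × Fin 91} (h : psiB v (.inr (.inl p)) ≠ 0) :
    ∑ i, v (p.1 + 1) i < v p.1 p.2 ∧ ∑ i, v (p.1 + 2) i < v p.1 p.2 := by
  rw [psiB] at h
  rw [← max_lt_iff, ← sub_pos]
  by_contra h1
  exact h (max_eq_left (not_lt.1 h1))

theorem oth : ∀ j j' : Fin 3, j ≠ j' → j' = j + 1 ∨ j' = j + 2 := by decide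

end TPAA

open TPAA

theorem s_pa : S_PA := by
  refine ⟨continuous_pi fun w => ?_, fun v ⟨h0, h1⟩ => ?_⟩
  · rcases w with e | p | τ
    · simp only [psiB]
      split_ifs
      · have := cTT
        fun_prop
      · exact continuous_const
    · simp only [psiB]
      fun_prop
    · simp only [psiB]
      split_ifs <;> fun_prop
  have h2 : ∀ j i, v j i ≤ ∑ i, v j i := fun j i =>
    single_le_sum (f := fun i => v j i) (fun i _ => h0 j i) (mem_univ i)
  have h3 : ∀ p, psiB v (.inr (.inl p)) ≠ 0 → v p.1 p.2 ≠ 0 := fun p h =>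
    (lt_of_le_of_lt (sum_nonneg fun i _ => h0 _ i) (row h).1).ne'
  have h4 : ∀ p, psiB v (.inr (.inl p)) ≠ 0 → ∀ j, p.1 ≠ j → ∀ i, v j i < v p.1 p.2 :=
    fun p h j hj i => by
      rcases oth _ _ hj with rfl | rfl
      exacts [(h2 _ i).trans_lt (row h).1, (h2 _ i).trans_lt (row h).2]
  refine ⟨fun ht w => ?_, fun p p' a b => ?_, h3, fun τ h => ?_⟩
  · have a : ∀ j β, TT v j β ≤ 1 := fun j β => (TT_le h0 j β).trans ht
    have b : ∀ j i, v j i ≤ 1 := fun j i => (le_tot h0 j i).trans ht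
    rcases w with e | p | τ
    · simp only [psiB]
      split_ifs
      · refine ⟨le_max_left _ _, max_le zero_le_one ?_⟩
        refine (sub_le_self _ ((TT_nn h0 _ _).trans (le_max_left _ _))).trans ?_
        exact max_le ((min_le_left _ _).trans (a _ _))
          (max_le ((min_le_left _ _).trans (a _ _)) ((min_le_left _ _).trans (a _ _)))
      · exact ⟨le_rfl, zero_le_one⟩
    · simp only [psiB]
      exact ⟨le_max_left _ _, max_le zero_le_one ((sub_le_self _
        ((sum_nonneg fun i _ => h0 _ i).trans (le_max_left _ _))).trans (b _ _))⟩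
    · simp only [psiB]
      split_ifs
      · exact ⟨le_rfl, zero_le_one⟩
      · exact ⟨le_min (h0 _ _) (le_min (h0 _ _) (h0 _ _)), (min_le_left _ _).trans (b _ _)⟩
  · by_cases e : p.1 = p'.1
    · exact Prod.ext e (h1 p.1 _ _ (h3 p a) (e ▸ h3 p' b))
    · exact absurd (h4 p a _ e p'.2) (h4 p' b _ (Ne.symm e) p.2).not_gt
  · simp only [psiB] at h
    split_ifs at h with e
    · exact absurd rfl h
    · have a := (le_min (h0 _ _) (le_min (h0 _ _) (h0 _ _))).lt_of_ne' h
      simp only [lt_min_iff] at a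
      refine ⟨Bool.eq_false_iff.2 e, fun j => ?_⟩
      fin_cases j
      exacts [a.1.ne', a.2.1.ne', a.2.2.ne']

end Pool.Agent.P.MP_9ca318_co.BL
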