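import Pool.Agent.P.MP_9ca318_co.BL.Iface

/-! Centres of a block and nondegeneracy of the block map. -/

set_option autoImplicit false

namespace Pool.Agent.P.MP_9ca318_co.BL

open Finset

namespace TPBA

theorem TT_nonneg {v : Fin 3 → Fin 91 → ℝ} (h : ∀ j i, 0 ≤ v j i) (j : Fin 3) (β : Bool) :
    0 ≤ TT v j β :=
  Finset.sum_nonneg fun i _ => by split_ifs; exacts [h j i, le_rfl]

theorem all3 {P : Fin 3 → Prop} (h0 : P 0) (h1 : P 1) (h2 : P 2) : ∀ l, P l := by
  intro l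
  fin_cases l
  exacts [h0, h1, h2]

theorem key {v : Fin 3 → Fin 91 → ℝ} {e : Fin 3 → Bool} (h : psiB v (.inl e) ≠ 0) :
    odd3 e = true ∧ ∃ j j' : Fin 3, j ≠ j' ∧ (∀ l, TT v l (!e l) < TT v j (e j)) ∧
      ∀ l, TT v l (!e l) < TT v j' (e j') := by
  by_cases ho : odd3 e = true
  · refine ⟨ho, ?_⟩
    simp only [psiB, ho, if_true] at h
    have h1 : max (TT v 0 (!e 0)) (max (TT v 1 (!e 1)) (TT v 2 (!e 2))) <
        max (min (TT v 0 (e 0)) (TT v 1 (e 1)))
          (max (min (TT v 0 (e 0)) (TT v 2 (e 2))) (min (TT v 1 (e 1)) (TT v 2 (e 2)))) := by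
      by_contra hc
      push Not at hc
      exact h (max_eq_left (by linarith))
    have h2 : ∀ a : ℝ, max (TT v 0 (!e 0)) (max (TT v 1 (!e 1)) (TT v 2 (!e 2))) < a →
        ∀ l, TT v l (!e l) < a := by
      intro a ha
      rw [max_lt_iff, max_lt_iff] at ha
      exact all3 ha.1 ha.2.1 ha.2.2
    rw [lt_max_iff, lt_max_iff, lt_min_iff, lt_min_iff, lt_min_iff] at h1
    rcases h1 with h1 | h1 | h1
    · exact ⟨0, 1, by decide, h2 _ h1.1, h2 _ h1.2⟩
    · exact ⟨0, 2, by decide, h2 _ h1.1, h2 _ h1.2⟩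
    · exact ⟨1, 2, by decide, h2 _ h1.1, h2 _ h1.2⟩
  · simp only [psiB, ho] at h
    exact absurd rfl h

theorem flip (e e' : Fin 3 → Bool) (h : odd3 e = true) (h' : odd3 e' = true) (hne : e ≠ e')
    (j j' : Fin 3) (hj : j ≠ j') : e' j = !e j ∨ e' j' = !e j' := by
  revert e e' j j'
  decide

theorem exists_row {v : Fin 3 → Fin 91 → ℝ} {j : Fin 3} {β : Bool} (h : TT v j β ≠ 0) :
    ∃ i, ty i = β ∧ v j i ≠ 0 := by
  obtain ⟨i, -, hi⟩ := Finset.exists_ne_zero_of_sum_ne_zero h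
  by_cases h2 : ty i = β
  · exact ⟨i, h2, by simpa [h2] using hi⟩
  · simp [h2] at hi

theorem exists_t {v : Fin 3 → Fin 91 → ℝ} (h : BlockOK v) (j : Fin 3) :
    ∃ t, ∀ i, i ≠ t → v j i = 0 := by
  by_cases h1 : ∃ t, v j t ≠ 0
  · obtain ⟨t, ht⟩ := h1
    exact ⟨t, fun i hi => by by_contra h2; exact hi (h.2 j i t h2 ht)⟩
  · push Not at h1
    exact ⟨0, fun i _ => h1 i⟩

theorem odd_update (e : Fin 3 → Bool) (h : ¬ odd3 e = true) (l : Fin 3) :
    odd3 (Function.update e l (!e l)) = true := by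
  revert e l
  decide

end TPBA

theorem s_pb : S_PB := by
  intro v hv
  refine ⟨fun e e' h h' => ?_, fun e h => ?_⟩
  · by_contra hne
    obtain ⟨ho, j, j', hj, h1, h2⟩ := TPBA.key h
    obtain ⟨ho', k, k', hk, h3, h4⟩ := TPBA.key h'
    have hA : ∃ a, e' a = !e a ∧ ∀ l, TT v l (!e l) < TT v a (e a) := by
      rcases TPBA.flip e e' ho ho' hne j j' hj with h5 | h5
      exacts [⟨j, h5, h1⟩, ⟨j', h5, h2⟩]
    have hB : ∃ b, e b = !e' b ∧ ∀ l, TT v l (!e' l) < TT v b (e' b) := by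
      rcases TPBA.flip e' e ho' ho (Ne.symm hne) k k' hk with h5 | h5
      exacts [⟨k, h5, h3⟩, ⟨k', h5, h4⟩]
    obtain ⟨a, ha, ha'⟩ := hA
    obtain ⟨b, hb, hb'⟩ := hB
    have h6 := ha' b
    have h7 := hb' a
    rw [hb, Bool.not_not] at h6
    rw [ha, Bool.not_not] at h7
    exact lt_asymm h6 h7
  · obtain ⟨-, j, j', hj, h1, h2⟩ := TPBA.key h
    have h0 := TPBA.TT_nonneg hv.1 0 (!e 0)
    obtain ⟨i, hi, hi'⟩ := TPBA.exists_row (v := v) (j := j) (β := e j) (h0.trans_lt (h1 0)).ne'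
    obtain ⟨i', hk, hk'⟩ := TPBA.exists_row (v := v) (j := j') (β := e j') (h0.trans_lt (h2 0)).ne'
    exact ⟨j, j', i, i', hj, hi, hk, hi', hk'⟩

theorem s_pc : S_PC := by
  intro v hv hne hz
  choose t ht using TPBA.exists_t hv
  have hL : ∀ j, 0 ≤ v j (t j) := fun j => hv.1 j (t j)
  have hS : ∀ j, ∑ i, v j i = v j (t j) := fun j =>
    Finset.sum_eq_single (t j) (fun i _ hi => ht j i hi) (fun h => absurd (Finset.mem_univ _) h)
  have hT : ∀ j β, TT v j β = if ty (t j) = β then v j (t j) else 0 := fun j β =>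
    Finset.sum_eq_single (t j) (fun i _ hi => by rw [ht j i hi, ite_self])
      (fun h => absurd (Finset.mem_univ _) h)
  have hrow : ∀ j : Fin 3, v j (t j) ≤ max (v (j + 1) (t (j + 1))) (v (j + 2) (t (j + 2))) := by
    intro j
    have h1 : psiB v (.inr (.inl (j, t j))) = 0 := by rw [hz]; rfl
    simp only [psiB, hS] at h1
    have h2 := le_max_right 0 (v j (t j) - max (v (j + 1) (t (j + 1))) (v (j + 2) (t (j + 2))))
    rw [h1] at h2
    linarith
  have hE : ∃ e : Fin 3 → Bool, odd3 e = true ∧ (∀ j, TT v j (e j) = v j (t j)) ∧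
      ∀ j, TT v j (!e j) = 0 := by
    by_cases ho : odd3 (fun j => ty (t j)) = true
    · refine ⟨fun j => ty (t j), ho, fun j => ?_, fun j => ?_⟩
      · rw [hT, if_pos rfl]
      · show TT v j (!ty (t j)) = 0
        rw [hT, if_neg (by cases ty (t j) <;> decide)]
    · have h1 : psiB v (.inr (.inr t)) = 0 := by rw [hz]; rfl
      simp only [psiB, ho] at h1
      have h2 : ∃ l, v l (t l) = 0 := by
        have h3 : min (v 0 (t 0)) (min (v 1 (t 1)) (v 2 (t 2))) = 0 := by simpa using h1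
        rcases min_choice (v 0 (t 0)) (min (v 1 (t 1)) (v 2 (t 2))) with h4 | h4
        · exact ⟨0, h4 ▸ h3⟩
        · rcases min_choice (v 1 (t 1)) (v 2 (t 2)) with h5 | h5
          · exact ⟨1, by rw [← h5, ← h4, h3]⟩
          · exact ⟨2, by rw [← h5, ← h4, h3]⟩
      obtain ⟨l, hl⟩ := h2
      refine ⟨Function.update (fun j => ty (t j)) l (!ty (t l)),
        TPBA.odd_update (fun j => ty (t j)) ho l, fun j => ?_, fun j => ?_⟩
      · by_cases hj : j = l
        · rw [hj, hT, hl, ite_self]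
        · rw [Function.update_of_ne hj, hT, if_pos rfl]
      · by_cases hj : j = l
        · rw [hj, hT, hl, ite_self]
        · rw [Function.update_of_ne hj, hT, if_neg (by cases ty (t j) <;> decide)]
  obtain ⟨e, ho, h1, h2⟩ := hE
  have h3 : psiB v (.inl e) = 0 := by rw [hz]; rfl
  simp only [psiB, ho, if_true, h1, h2, max_self, sub_zero] at h3
  have h4 := le_max_right 0 (max (min (v 0 (t 0)) (v 1 (t 1)))
    (max (min (v 0 (t 0)) (v 2 (t 2))) (min (v 1 (t 1)) (v 2 (t 2)))))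
  rw [h3, max_le_iff, max_le_iff, min_le_iff, min_le_iff, min_le_iff] at h4
  have r0 : v 0 (t 0) ≤ max (v 1 (t 1)) (v 2 (t 2)) := hrow 0
  have r1 : v 1 (t 1) ≤ max (v 2 (t 2)) (v 0 (t 0)) := hrow 1
  have r2 : v 2 (t 2) ≤ max (v 0 (t 0)) (v 1 (t 1)) := hrow 2
  have l0 := hL 0
  have l1 := hL 1
  have l2 := hL 2
  rw [le_max_iff] at r0 r1 r2
  have hall : ∀ j, v j (t j) = 0 := by
    obtain ⟨h5, h6, h7⟩ := h4
    refine TPBA.all3 ?_ ?_ ?_ <;>
    rcases h5 with h5 | h5 <;> rcases h6 with h6 | h6 <;> rcases h7 with h7 | h7 <;>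
    rcases r0 with r0 | r0 <;> rcases r1 with r1 | r1 <;> rcases r2 with r2 | r2 <;> linarith
  refine hne (funext fun j => funext fun i => ?_)
  by_cases hi : i = t j
  · rw [hi]; exact hall j
  · exact ht j i hi

end Pool.Agent.P.MP_9ca318_co.BL
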