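import Pool.Agent.P.MP_9ca318_co.BL.Iface

set_option autoImplicit false

namespace Pool.Agent.P.MP_9ca318_co.BL

open Finset Filter Topology

theorem s_pfun : S_PFUN := by
  classical
  intro X Y _ _ r f Q G Z m G0 T U x μ _ φ R β K hf hQ hZ hU hcov hfr hx hφ hφR hadm hcomp hlc hK
  let Dm : Set (Y × (μ → ℝ) × X) :=
    {q | q.1 ∈ Z ∧ φ q.1 q.2.1 = q.2.1 ∧ q.2.2 ∈ Q ∧ f q.2.2 = q.1}
  have hDm : IsClosed Dm := by
    have h1 : IsClosed {q : Y × (μ → ℝ) × X | q.1 ∈ Z} := hZ.preimage continuous_fst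
    have h2 : IsClosed {q : Y × (μ → ℝ) × X | φ q.1 q.2.1 = q.2.1} :=
      isClosed_eq (hφ.comp (continuous_fst.prodMk continuous_snd.fst)) continuous_snd.fst
    have h3 : IsClosed {q : Y × (μ → ℝ) × X | q.2.2 ∈ Q} := hQ.preimage continuous_snd.snd
    have h4 : IsClosed {q : Y × (μ → ℝ) × X | f q.2.2 = q.1} :=
      isClosed_eq (hf.comp continuous_snd.snd) continuous_fst
    exact h1.inter (h2.inter (h3.inter h4))
  let p0 : Y × (μ → ℝ) × X → ℝ := fun q =>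
    if h : ∃ ta : T × Fin m, q.1 ∈ U ta.1 ∧ x ta.1 q.1 ta.2 = q.2.2 then
      ((β h.choose.1 (q.1, q.2.1) h.choose.2).val : ℝ) else 0
  have hp0 : ∀ q ∈ Dm, ∀ t a, q.1 ∈ U t → x t q.1 a = q.2.2 →
      p0 q = ((β t (q.1, q.2.1) a).val : ℝ) := by
    intro q hq t a ht ha
    have h : ∃ ta : T × Fin m, q.1 ∈ U ta.1 ∧ x ta.1 q.1 ta.2 = q.2.2 := ⟨(t, a), ht, ha⟩
    have e : p0 q = ((β h.choose.1 (q.1, q.2.1) h.choose.2).val : ℝ) := dif_pos h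
    rw [e, hcomp (q.1, q.2.1) hq.1 hq.2.1 h.choose.1 t h.choose_spec.1 ht h.choose.2 a
      (h.choose_spec.2.trans ha.symm)]
  have hb : ∀ q, ‖(fun _ : Unit => p0 q)‖ ≤ (m : ℝ) := by
    intro q
    refine (pi_norm_le_iff_of_nonneg (Nat.cast_nonneg m)).2 fun _ => ?_
    by_cases h : ∃ ta : T × Fin m, q.1 ∈ U ta.1 ∧ x ta.1 q.1 ta.2 = q.2.2
    · have e : p0 q = ((β h.choose.1 (q.1, q.2.1) h.choose.2).val : ℝ) := dif_pos h
      rw [e, Real.norm_natCast]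
      exact_mod_cast (β h.choose.1 (q.1, q.2.1) h.choose.2).isLt.le
    · have e : p0 q = 0 := dif_neg h
      rw [e, norm_zero]
      exact Nat.cast_nonneg m
  have hcont : ContinuousOn (fun q => fun _ : Unit => p0 q) Dm := by
    intro q hq
    obtain ⟨t, ht⟩ := hcov q.1 hq.1
    obtain ⟨a, ha⟩ := (hfr t q.1 hq.1 ht).2.2.1 q.2.2 hq.2.2.1 hq.2.2.2
    have h1 : Tendsto (fun q' : Y × (μ → ℝ) × X => q'.1) (𝓝[Dm] q) (𝓝 q.1) :=
      continuous_fst.continuousWithinAt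
    have e1 : ∀ᶠ q' in 𝓝[Dm] q, q'.1 ∈ U t := h1.eventually ((hU t).mem_nhds ht)
    have e0 : ∀ᶠ q' in 𝓝[Dm] q, q' ∈ Dm := self_mem_nhdsWithin
    have h2 : Tendsto (fun q' : Y × (μ → ℝ) × X => (q'.1, q'.2.1)) (𝓝[Dm] q)
        (𝓝[{q | q.1 ∈ Z ∧ φ q.1 q.2 = q.2}] (q.1, q.2.1)) := by
      refine tendsto_nhdsWithin_iff.2 ⟨?_, ?_⟩
      · exact (continuous_fst.prodMk continuous_snd.fst).continuousWithinAt
      · exact e0.mono fun q' hq' => ⟨hq'.1, hq'.2.1⟩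
    have e2 : ∀ᶠ q' in 𝓝[Dm] q, β t (q'.1, q'.2.1) = β t (q.1, q.2.1) :=
      h2.eventually (hlc (q.1, q.2.1) hq.1 hq.2.1 t ht)
    have h3 : Tendsto (fun q' : Y × (μ → ℝ) × X => q'.1) (𝓝[Dm] q) (𝓝[Z ∩ U t] q.1) :=
      tendsto_nhdsWithin_iff.2 ⟨h1, (e0.and e1).mono fun q' hq' => ⟨hq'.1.1, hq'.2⟩⟩
    have h4 : Tendsto (fun q' : Y × (μ → ℝ) × X => x t q'.1) (𝓝[Dm] q) (𝓝 (x t q.1)) :=
      (hx t q.1 ⟨hq.1, ht⟩).tendsto.comp h3
    have h5 : Tendsto (fun q' : Y × (μ → ℝ) × X => q'.2.2) (𝓝[Dm] q) (𝓝 q.2.2) :=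
      continuous_snd.snd.continuousWithinAt
    have e3 : ∀ᶠ q' in 𝓝[Dm] q, ∀ b, b ≠ a → x t q'.1 b ≠ q'.2.2 := by
      refine Filter.eventually_all.2 fun b => ?_
      by_cases hba : b = a
      · exact Filter.Eventually.of_forall fun _ h => absurd hba h
      · have hne : x t q.1 b ≠ q.2.2 := fun h =>
          hba ((hfr t q.1 hq.1 ht).1 (h.trans ha.symm))
        have h6 : Tendsto (fun q' : Y × (μ → ℝ) × X => (x t q'.1 b, q'.2.2)) (𝓝[Dm] q)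
            (𝓝 (x t q.1 b, q.2.2)) :=
          (((continuous_apply b).tendsto _).comp h4).prodMk_nhds h5
        have h7 : ∀ᶠ pr : X × X in 𝓝 (x t q.1 b, q.2.2), pr.1 ≠ pr.2 :=
          (isOpen_ne_fun continuous_fst continuous_snd).mem_nhds hne
        exact (h6.eventually h7).mono fun q' h _ => h
    have e4 : ∀ᶠ q' in 𝓝[Dm] q, p0 q' = p0 q := by
      filter_upwards [e0, e1, e2, e3] with q' h0 h1' h2' h3'
      obtain ⟨b, hb'⟩ := (hfr t q'.1 h0.1 h1').2.2.1 q'.2.2 h0.2.2.1 h0.2.2.2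
      have hba : b = a := by
        by_contra hba
        exact h3' b hba hb'
      rw [hp0 q' h0 t b h1' hb', hp0 q hq t a ht ha, h2', hba]
    have e5 : (fun q' => fun _ : Unit => p0 q') =ᶠ[𝓝[Dm] q] fun _ => fun _ : Unit => p0 q :=
      e4.mono fun q' h => by simp only [h]
    exact (continuousWithinAt_const.congr_of_eventuallyEq e5 rfl)
  obtain ⟨g, hg, hgb, hge⟩ := tietze hDm (fun q => fun _ : Unit => p0 q) hcont m
    (Nat.cast_nonneg m) (fun q _ => hb q)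
  refine ⟨μ, Unit, inferInstance, inferInstance, φ, fun z ζ y => g (z, ζ, y), max R m, by simp, hφ,
    hg, fun z ζ => (hφR z ζ).trans (le_max_left _ _), fun z ζ y => (hgb _).trans (le_max_right _ _),
    ?_⟩
  intro w hw z ζ hz hζ
  obtain ⟨⟨hwQ, -, hwG, c0, c0', hc0⟩, hwZ⟩ := hK w hw
  have hzZ : z ∈ Z := hz c0 ▸ hwZ c0
  obtain ⟨t, ht⟩ := hcov z hzZ
  have hF := hfr t z hzZ ht
  choose a ha using fun c => hF.2.2.1 (w c) (hwQ c) (hz c)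
  obtain ⟨c, c', hcc⟩ := hadm t (z, ζ) a
    (fun c c' h => (hF.2.2.2 _ _).1 (by rw [ha, ha]; exact hwG c c' h))
    ⟨c0, c0', fun h => hc0 (by rw [← ha, ← ha, h])⟩
  refine ⟨c, c', fun h => hcc ?_⟩
  have hm : ∀ d, ((z, ζ, w d) : Y × (μ → ℝ) × X) ∈ Dm := fun d => ⟨hzZ, hζ, hwQ d, hz d⟩
  have h' := congrFun h ()
  simp only [hge _ (hm c), hge _ (hm c')] at h'
  rw [hp0 _ (hm c) t (a c) ht (ha c), hp0 _ (hm c') t (a c') ht (ha c')] at h'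
  exact Fin.val_injective (Nat.cast_injective h')

end Pool.Agent.P.MP_9ca318_co.BL
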