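import Pool.Agent.P.MP_9ca318_co.BL.Iface

/-! Products of separating systems. -/

set_option autoImplicit false

namespace Pool.Agent.P.MP_9ca318_co.BL

namespace TPRODA

theorem norm_elim {μ μ' : Type} [Fintype μ] [Fintype μ'] {a : μ → ℝ} {b : μ' → ℝ} {R R' : ℝ}
    (ha : ‖a‖ ≤ R) (hb : ‖b‖ ≤ R') : ‖Sum.elim a b‖ ≤ |R| + |R'| := by
  refine (pi_norm_le_iff_of_nonneg (by positivity)).2 ?_
  rintro (i | i)
  · exact ((norm_le_pi_norm a i).trans (ha.trans (le_abs_self R))).trans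
      (le_add_of_nonneg_right (abs_nonneg _))
  · exact ((norm_le_pi_norm b i).trans (hb.trans (le_abs_self R'))).trans
      (le_add_of_nonneg_left (abs_nonneg _))

theorem cont_elim {Z μ μ' : Type} [TopologicalSpace Z] {a : Z → μ → ℝ} {b : Z → μ' → ℝ}
    (ha : Continuous a) (hb : Continuous b) : Continuous fun z => Sum.elim (a z) (b z) := by
  refine continuous_pi ?_
  rintro (i | i)
  exacts [(continuous_apply i).comp ha, (continuous_apply i).comp hb]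

end TPRODA

open TPRODA in
theorem s_prod : S_PROD := by
  intro X Y _ _ r f u u' K K' hr hf hK ⟨μ, υ, _, _, φ, p, R, h1, h2, h3, h4, h5, h6⟩ hL
  let c0 : Fin r := ⟨0, hr⟩
  let M : Set ((Fin r → X) × (μ → ℝ)) := {q | φ (f (q.1 c0)) q.2 = q.2 ∧
    (∀ c, f (q.1 c) = f (q.1 c0)) ∧
    ∀ c c', p (f (q.1 c0)) q.2 (q.1 c) = p (f (q.1 c0)) q.2 (q.1 c')}
  have e1 : ∀ c, Continuous fun q : (Fin r → X) × (μ → ℝ) => f (q.1 c) := fun c => by fun_prop
  have e2 : ∀ c, Continuous fun q : (Fin r → X) × (μ → ℝ) => p (f (q.1 c0)) q.2 (q.1 c) :=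
    fun c => h3.comp ((e1 c0).prodMk (continuous_snd.prodMk
      ((continuous_apply c).comp continuous_fst)))
  have hM : IsClosed M := by
    simp only [M, Set.setOf_and, Set.setOf_forall]
    exact (isClosed_eq (h2.comp ((e1 c0).prodMk continuous_snd)) continuous_snd).inter
      ((isClosed_iInter fun c => isClosed_eq (e1 c) (e1 c0)).inter
        (isClosed_iInter fun c => isClosed_iInter fun c' => isClosed_eq (e2 c) (e2 c')))
  obtain ⟨μ', υ', _, _, φ', p', R', g1, g2, g3, g4, g5, g6⟩ :=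
    hL (Prod.fst '' (K ×ˢ Metric.closedBall 0 R ∩ M))
      (((hK.prod (isCompact_closedBall 0 R)).inter_right hM).image continuous_fst) (by
        rintro _ ⟨q, ⟨hq, a1, a2, a3⟩, rfl⟩
        refine ⟨hq.1, fun hw => ?_⟩
        obtain ⟨c, c', h⟩ := h6 q.1 hw _ q.2 a2 a1
        exact h (a3 c c'))
  refine ⟨μ ⊕ μ', υ ⊕ υ', inferInstance, inferInstance,
    fun z ζ => Sum.elim (φ z (ζ ∘ Sum.inl)) (φ' z (ζ ∘ Sum.inr)),
    fun z ζ x => Sum.elim (p z (ζ ∘ Sum.inl) x) (p' z (ζ ∘ Sum.inr) x), |R| + |R'|,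
    by rw [Fintype.card_sum]; exact add_le_add h1 g1,
    cont_elim (h2.comp (f := fun q : Y × (μ ⊕ μ' → ℝ) => (q.1, q.2 ∘ Sum.inl)) (by fun_prop))
      (g2.comp (f := fun q : Y × (μ ⊕ μ' → ℝ) => (q.1, q.2 ∘ Sum.inr)) (by fun_prop)),
    cont_elim (h3.comp (f := fun q : Y × (μ ⊕ μ' → ℝ) × X => (q.1, q.2.1 ∘ Sum.inl, q.2.2))
        (by fun_prop))
      (g3.comp (f := fun q : Y × (μ ⊕ μ' → ℝ) × X => (q.1, q.2.1 ∘ Sum.inr, q.2.2))
        (by fun_prop)),
    fun z ζ => norm_elim (h4 _ _) (g4 _ _), fun z ζ x => norm_elim (h5 _ _ _) (g5 _ _ _),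
    fun w hw z ζ hz hζ => ?_⟩
  have a1 : φ z (ζ ∘ Sum.inl) = ζ ∘ Sum.inl := funext fun i => congrFun hζ (Sum.inl i)
  have a2 : φ' z (ζ ∘ Sum.inr) = ζ ∘ Sum.inr := funext fun i => congrFun hζ (Sum.inr i)
  by_contra hcon
  push Not at hcon
  obtain ⟨c, c', h⟩ := g6 w ⟨(w, ζ ∘ Sum.inl), ⟨⟨hw, by
      rw [mem_closedBall_zero_iff]
      exact a1 ▸ h4 z _⟩, by rw [hz]; exact a1, fun c => (hz c).trans (hz c0).symm, fun c c' => by
      rw [hz]
      exact funext fun i => congrFun (hcon c c') (Sum.inl i)⟩, rfl⟩ z _ hz a2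
  exact h (funext fun i => congrFun (hcon c c') (Sum.inr i))

end Pool.Agent.P.MP_9ca318_co.BL
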