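import Pool.Agent.P.MP_9ca318_co.BL.Iface

/-! A rectifier gate is realised by one more class. -/

set_option autoImplicit false

namespace Pool.Agent.P.MP_9ca318_co.BL

open Finset

namespace TRELUA

/-- Restriction of the weights to the old classes. -/
def resL {σ : Type} {r : ℕ} : (σ ⊕ Unit → Fin r → ℝ) →ₗ[ℝ] (σ → Fin r → ℝ) where
  toFun z := fun s => z (.inl s)
  map_add' _ _ := rfl
  map_smul' _ _ := rfl

/-- The weights of the new class. -/
def newL {σ : Type} {r : ℕ} : (σ ⊕ Unit → Fin r → ℝ) →ₗ[ℝ] (Fin r → ℝ) where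
  toFun z := z (.inr ())
  map_add' _ _ := rfl
  map_smul' _ _ := rfl

/-- A linear map with one more coordinate. -/
def extL {V σ : Type} [AddCommGroup V] [Module ℝ V] (A : V →ₗ[ℝ] (σ → ℝ)) (a : V →ₗ[ℝ] ℝ) :
    V →ₗ[ℝ] (σ ⊕ Unit → ℝ) where
  toFun x := Sum.elim (A x) (fun _ => a x)
  map_add' x y := by
    funext s
    rcases s with s | s <;> simp
  map_smul' t x := by
    funext s
    rcases s with s | s <;> simp

theorem sgP_add {r : ℕ} (v w : Fin r → ℝ) : sgP (v + w) = sgP v + sgP w := by
  simp only [sgP, ← Finset.sum_add_distrib]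
  refine Finset.sum_congr rfl fun i _ => ?_
  split_ifs <;> simp

theorem sgN_add {r : ℕ} (v w : Fin r → ℝ) : sgN (v + w) = sgN v + sgN w := by
  simp only [sgN, ← Finset.sum_add_distrib]
  refine Finset.sum_congr rfl fun i _ => ?_
  split_ifs <;> simp

theorem sgP_smul {r : ℕ} (t : ℝ) (v : Fin r → ℝ) : sgP (t • v) = t * sgP v := by
  simp only [sgP, Finset.mul_sum]
  refine Finset.sum_congr rfl fun i _ => ?_
  split_ifs <;> simp

theorem sgN_smul {r : ℕ} (t : ℝ) (v : Fin r → ℝ) : sgN (t • v) = t * sgN v := by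
  simp only [sgN, Finset.mul_sum]
  refine Finset.sum_congr rfl fun i _ => ?_
  split_ifs <;> simp

/-- The positive part of the signed weight as a linear form. -/
noncomputable def pL {r : ℕ} : (Fin r → ℝ) →ₗ[ℝ] ℝ where
  toFun := sgP
  map_add' := sgP_add
  map_smul' t v := by simpa using sgP_smul t v

/-- The negative part of the signed weight as a linear form. -/
noncomputable def nL {r : ℕ} : (Fin r → ℝ) →ₗ[ℝ] ℝ where
  toFun := sgN
  map_add' := sgN_add
  map_smul' t v := by simpa using sgN_smul t v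

end TRELUA

open TRELUA in
theorem s_relu : S_RELU := by
  intro r ι _ g j i j' i' hr hg hpos hneg
  obtain ⟨σ, _, A, B, a, b, C, hC, H⟩ := hg
  refine ⟨σ ⊕ Unit, inferInstance, extL A a,
    extL (B.comp resL) (b.comp resL + (pL - nL).comp newL), 0, nL.comp newL, 2 * C,
    by positivity, ?_⟩
  intro x z hx hz hcol
  have hz1 : Raw (fun c s => z c (.inl s)) := hz.comp Sum.inl
  have hcol1 : ∀ c c', A (x c) + B (fun s => z c (.inl s)) = A (x c') + B (fun s => z c' (.inl s)) := by
    intro c c'
    funext s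
    exact congrFun (hcol c c') (.inl s)
  have H1 := H x (fun c s => z c (.inl s)) hx hz1 hcol1
  have hth : ∀ c c', g (x c) + sg (z c (.inr ())) = g (x c') + sg (z c' (.inr ())) := by
    intro c c'
    have h0 : a (x c) + (b (fun s => z c (.inl s)) + (sgP (z c (.inr ())) - sgN (z c (.inr ())))) =
        a (x c') + (b (fun s => z c' (.inl s)) + (sgP (z c' (.inr ())) - sgN (z c' (.inr ())))) :=
      congrFun (hcol c c') (.inr ())
    have h1 := (H1 c).1
    have h2 := (H1 c').1
    simp only [sg]
    linarith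
  have hzero : ∀ c, g (x c) + sg (z c (.inr ())) = 0 := by
    intro c1
    rcases lt_trichotomy (g (x c1) + sg (z c1 (.inr ()))) 0 with h | h | h
    · exfalso
      obtain ⟨c0, hc0⟩ := hx.exists_col j' i'
      refine hz.pin_neg hr (.inr ()) c0 fun c hc => ?_
      have h1 : 0 ≤ g (x c) := by
        by_contra h2
        have h3 := hneg (x c) (hx.nn c) (not_le.1 h2)
        rw [hc0 c hc] at h3
        exact lt_irrefl _ h3
      have h4 := hth c c1
      linarith
    · exact h
    · exfalso
      obtain ⟨c0, hc0⟩ := hx.exists_col j i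
      refine hz.pin_pos hr (.inr ()) c0 fun c hc => ?_
      have h1 : g (x c) ≤ 0 := by
        by_contra h2
        have h3 := hpos (x c) (hx.nn c) (not_le.1 h2)
        rw [hc0 c hc] at h3
        exact lt_irrefl _ h3
      have h4 := hth c c1
      linarith
  intro c
  have hs : - sg (z c (.inr ())) = g (x c) := by linarith [hzero c]
  have hb := (H1 c).2.2
  have ht := (H1 c).2.1
  have htx : 0 ≤ C * tot (x c) := mul_nonneg hC (tot_nonneg (hx.nn c))
  rw [Real.norm_eq_abs] at hb
  refine ⟨?_, ?_, ?_⟩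
  · change (0 : ℝ) + sgN (z c (.inr ())) = max (g (x c)) 0
    rw [zero_add, sgN_eq_max (hz.nn c _) (hz.rb c _), hs]
  · rw [tot_sum]
    have h5 : tot (fun s : Unit => z c (.inr s)) = |g (x c)| := by
      rw [← hs, abs_neg, ← sum_eq_abs_sg (hz.nn c _) (hz.rb c _)]
      simp [tot]
    rw [h5]
    linarith
  · rw [Real.norm_eq_abs, abs_of_nonneg (le_max_right _ _)]
    have h6 := le_abs_self (g (x c))
    refine max_le ?_ ?_ <;> linarith

end Pool.Agent.P.MP_9ca318_co.BL
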