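import Pool.Agent.P.MP_9ca318_co.BL.Iface

/-! Closure properties of realisable maps. -/

set_option autoImplicit false

namespace Pool.Agent.P.MP_9ca318_co.BL

open Finset

namespace TRZA

/-- Two linear maps into function spaces, read as one map into the function space on the sum. -/
def elimL {X : Type} [AddCommGroup X] [Module ℝ X] {σ σ' : Type}
    (A : X →ₗ[ℝ] (σ → ℝ)) (A' : X →ₗ[ℝ] (σ' → ℝ)) : X →ₗ[ℝ] (σ ⊕ σ' → ℝ) where
  toFun x := Sum.elim (A x) (A' x)
  map_add' x y := by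
    ext s
    cases s <;> simp
  map_smul' a x := by
    ext s
    cases s <;> simp

theorem elimL_inl {X : Type} [AddCommGroup X] [Module ℝ X] {σ σ' : Type}
    (A : X →ₗ[ℝ] (σ → ℝ)) (A' : X →ₗ[ℝ] (σ' → ℝ)) (x : X) (s : σ) :
    elimL A A' x (.inl s) = A x s := rfl

theorem elimL_inr {X : Type} [AddCommGroup X] [Module ℝ X] {σ σ' : Type}
    (A : X →ₗ[ℝ] (σ → ℝ)) (A' : X →ₗ[ℝ] (σ' → ℝ)) (x : X) (s : σ') :
    elimL A A' x (.inr s) = A' x s := rfl

/-- Restriction along a map of classes. -/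
def resL {r : ℕ} {σ σ' : Type} (k : σ' → σ) : (σ → Fin r → ℝ) →ₗ[ℝ] (σ' → Fin r → ℝ) where
  toFun z := fun s => z (k s)
  map_add' _ _ := rfl
  map_smul' _ _ := rfl

theorem resL_apply {r : ℕ} {σ σ' : Type} (k : σ' → σ) (z : σ → Fin r → ℝ) :
    resL k z = fun s => z (k s) := rfl

end TRZA

open TRZA

theorem s_rzlin : S_RZLIN := by
  intro r ι _ E _ _ L
  refine ⟨Empty, inferInstance, 0, 0, L, 0, ‖LinearMap.toContinuousLinearMap L‖, norm_nonneg _,
    fun x z hx _ _ c => ⟨by simp, ?_, ?_⟩⟩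
  · have h0 : tot (z c) = 0 := by simp [tot]
    rw [h0]
    exact mul_nonneg (norm_nonneg _) (tot_nonneg (hx.nn c))
  · exact ((LinearMap.toContinuousLinearMap L).le_opNorm (x c)).trans
      (mul_le_mul_of_nonneg_left (norm_le_tot (hx.nn c)) (norm_nonneg _))

theorem s_rzadd : S_RZADD := by
  intro r ι _ E _ _ g g' hg hg'
  obtain ⟨σ, iσ, A, B, a, b, C, hC, h⟩ := hg
  obtain ⟨σ', iσ', A', B', a', b', C', hC', h'⟩ := hg'
  refine ⟨σ ⊕ σ', inferInstance, elimL A A',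
    elimL (B ∘ₗ resL Sum.inl) (B' ∘ₗ resL Sum.inr), a + a',
    b ∘ₗ resL Sum.inl + b' ∘ₗ resL Sum.inr, C + C', add_nonneg hC hC', fun x z hx hz he c => ?_⟩
  have h1 := h x (fun c s => z c (.inl s)) hx (hz.comp Sum.inl) (fun c c' => by
    ext s
    exact congrFun (he c c') (.inl s)) c
  have h2 := h' x (fun c s => z c (.inr s)) hx (hz.comp Sum.inr) (fun c c' => by
    ext s
    exact congrFun (he c c') (.inr s)) c
  refine ⟨?_, ?_, ?_⟩
  · show _ = g (x c) + g' (x c)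
    rw [← h1.1, ← h2.1]
    simp only [LinearMap.add_apply, LinearMap.comp_apply, resL_apply]
    abel
  · rw [tot_sum, add_mul]
    exact add_le_add h1.2.1 h2.2.1
  · rw [add_mul]
    exact (norm_add_le _ _).trans (add_le_add h1.2.2 h2.2.2)

theorem s_rzmap : S_RZMAP := by
  intro r ι _ E _ _ E' _ _ T g hg
  obtain ⟨σ, iσ, A, B, a, b, C, hC, h⟩ := hg
  refine ⟨σ, iσ, A, B, T.toLinearMap ∘ₗ a, T.toLinearMap ∘ₗ b, C * (1 + ‖T‖),
    mul_nonneg hC (by positivity), fun x z hx hz he c => ?_⟩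
  obtain ⟨h1, h2, h3⟩ := h x z hx hz he c
  have h0 : 0 ≤ C * tot (x c) := mul_nonneg hC (tot_nonneg (hx.nn c))
  have hT := norm_nonneg T
  refine ⟨?_, ?_, ?_⟩
  · show T (a (x c)) + T (b (z c)) = T (g (x c))
    rw [← h1, map_add]
  · nlinarith [mul_nonneg h0 hT]
  · have h4 := T.le_opNorm (g (x c))
    have h5 := mul_le_mul_of_nonneg_left h3 hT
    nlinarith

end Pool.Agent.P.MP_9ca318_co.BL
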