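import Pool.Agent.P.MP_9ca318_co.BL.Iface

/-! Closedness and supports of the target complex. -/

set_option autoImplicit false

namespace Pool.Agent.P.MP_9ca318_co.BL

open Finset

namespace TSIGA

theorem cl {V A : Type} (p p' : V) (a a' : A) :
    IsClosed {x : V → ℝ | x p ≠ 0 → x p' ≠ 0 → a = a'} := by
  by_cases h : a = a'
  · simp [h]
  · have e : {x : V → ℝ | x p ≠ 0 → x p' ≠ 0 → a = a'} = {x | x p * x p' = 0} := by
      ext x
      simp only [Set.mem_ofPred_eq, mul_eq_zero, h]
      tauto
    rw [e]
    exact isClosed_eq (by fun_prop) continuous_const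

theorem op {n : ℕ} (b : Fin n) (j : Fin 3) (i : Fin 91) : IsOpen {x : Fin n × Wd → ℝ | Vis x b j i} := by
  simp only [Vis, Set.ofPred_or, Set.ofPred_exists, Set.ofPred_and]
  refine IsOpen.union (isOpen_ne_fun (continuous_apply _) continuous_const)
    (isOpen_iUnion fun τ => IsOpen.inter isOpen_const
      (isOpen_ne_fun (continuous_apply _) continuous_const))

theorem sp_one {A : Type} [Fintype A] {x : A → ℝ} (h : ∀ a a', x a ≠ 0 → x a' ≠ 0 → a = a') :
    sp x ≤ 1 := by
  rw [sp_def]
  exact card_le_one.2 fun a ha a' ha' => h a a' (mem_filter.1 ha).2 (mem_filter.1 ha').2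

theorem sp_zero {A : Type} [Fintype A] {x : A → ℝ} (h : ∀ a, x a = 0) : sp x = 0 := by
  rw [sp_def, card_eq_zero, filter_eq_empty_iff]
  exact fun a _ h' => h' (h a)

theorem sp_sum {A B : Type} [Fintype A] [Fintype B] (x : A ⊕ B → ℝ) :
    sp x = sp (fun a => x (.inl a)) + sp fun b => x (.inr b) := by
  simp only [sp_def, card_filter, Fintype.sum_sum_type]

theorem sp_prod {A B : Type} [Fintype A] [Fintype B] (x : A × B → ℝ) :
    sp x = ∑ a, sp fun b => x (a, b) := by
  simp only [sp_def, card_filter, Fintype.sum_prod_type]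

end TSIGA

open TSIGA

theorem s_sigc : S_SIGC := by
  intro n k
  constructor
  · simp only [Sig, NoH, Set.ofPred_and, Set.ofPred_exists]
    refine IsClosed.inter ?_ (IsClosed.inter ?_ (IsClosed.inter ?_ (IsClosed.inter ?_
      (isClosed_iUnion_of_finite fun s => IsClosed.inter isClosed_const ?_))))
    · rw [Set.ofPred_forall]
      exact isClosed_iInter fun p => IsClosed.inter
        (isClosed_le continuous_const (continuous_apply p))
        (isClosed_le (continuous_apply p) continuous_const)
    iterate 3
      rw [Set.ofPred_forall]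
      refine isClosed_iInter fun b => ?_
      rw [Set.ofPred_forall]
      refine isClosed_iInter fun e => ?_
      rw [Set.ofPred_forall]
      exact isClosed_iInter fun e' => cl _ _ _ _
    simp only [Set.ofPred_forall]
    exact isClosed_iInter fun b => isClosed_iInter fun _ => isClosed_iInter fun τ =>
      isClosed_eq (continuous_apply _) continuous_const
  · simp only [Cmp, Set.ofPred_forall]
    exact isClosed_iInter fun b => isClosed_iInter fun j => isClosed_iInter fun i =>
      IsOpen.isClosed_compl (((op b j i).preimage continuous_fst).inter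
        ((op b j i).preimage continuous_snd))

theorem s_supp : S_SUPP := by
  rintro n k x ⟨-, h1, h2, h3, -⟩
  have a1 := fun b => sp_one (x := fun e => x (b, .inl e)) (h1 b)
  have a2 := fun b => sp_one (x := fun e => x (b, .inr (.inl e))) (h2 b)
  have a3 := fun b => sp_one (x := fun e => x (b, .inr (.inr e))) (h3 b)
  refine ⟨fun s hs => ?_, fun h => ?_⟩
  · have e : s.card = ∑ b, if b ∈ s then 1 else 0 := by simp
    rw [sp_prod, e, ← sum_add_distrib]
    refine (sum_le_card_nsmul _ _ 3 fun b _ => ?_).trans (by simp [mul_comm])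
    rw [sp_sum, sp_sum]
    have b1 := a1 b
    have b2 := a2 b
    have b3 := a3 b
    split_ifs with hb
    · have := sp_zero (x := fun e => x (b, .inr (.inr e))) (hs b hb)
      omega
    · omega
  · rw [sp_prod]
    refine (sum_le_card_nsmul _ _ 1 fun b _ => ?_).trans (by simp)
    rw [sp_sum, sp_sum]
    have b1 := a1 b
    have b2 := sp_zero (x := fun e => x (b, .inr (.inl e))) fun p =>
      by_contra fun e => h b p.1 p.2 ⟨Or.inl e, Or.inl e⟩
    have b3 := sp_zero (x := fun e => x (b, .inr (.inr e))) fun τ =>
      by_contra fun e => h b 0 (τ 0) ⟨Or.inr ⟨τ, rfl, e⟩, Or.inr ⟨τ, rfl, e⟩⟩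
    omega

end Pool.Agent.P.MP_9ca318_co.BL
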