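import Pool.Agent.P.MP_9ca318_co.BL.Iface

/-! Suspension and transport of counterexamples. -/

set_option autoImplicit false

namespace Pool.Agent.P.MP_9ca318_co.BL

open Finset

namespace TSUSA

theorem abs_sg_le {r : ℕ} {v : Fin r → ℝ} (h : ∀ i, 0 ≤ v i ∧ v i ≤ 1) : |sg v| ≤ r := by
  have h1 := sgP_nonneg (fun i => (h i).1)
  have h2 := sgN_nonneg (fun i => (h i).1)
  have h3 := sgP_add_sgN v
  have h4 : ∑ i, v i ≤ ∑ _i : Fin r, (1 : ℝ) := Finset.sum_le_sum fun i _ => (h i).2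
  simp only [Finset.sum_const, Finset.card_univ, Fintype.card_fin, nsmul_eq_mul, mul_one] at h4
  rw [sg, abs_le]
  constructor <;> linarith

end TSUSA

theorem s_sus : S_SUS := by
  intro r ι _ A _ μ _ hr hS
  obtain ⟨F, φ, R, hF, hφ, hFb, hφb, h⟩ := hS
  refine ⟨fun Y x => (F Y.1 Y.2 (fun j => x (.inl j)), φ Y.1 Y.2 - fun m => sg (x (.inr m))),
    R + r, ?_, fun Y x hx => ?_, fun y Y hy => ?_⟩
  · refine Continuous.prodMk ?_ (Continuous.sub ?_ ?_)
    · exact hF.comp (f := fun q : (A × (μ → ℝ)) × (ι ⊕ μ → Fin r → ℝ) =>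
        (q.1.1, q.1.2, fun j => q.2 (.inl j))) (by fun_prop)
    · exact hφ.comp (f := fun q : (A × (μ → ℝ)) × (ι ⊕ μ → Fin r → ℝ) => (q.1.1, q.1.2)) (by fun_prop)
    · exact continuous_pi fun m => continuous_sg.comp (by fun_prop)
  · have hr0 : (0 : ℝ) ≤ r := Nat.cast_nonneg r
    rw [Prod.norm_def]
    refine max_le ?_ ?_
    · have := hFb Y.1 Y.2 (fun j => x (.inl j)) (fun j i => hx (.inl j) i)
      dsimp only
      linarith
    · refine (norm_sub_le _ _).trans (add_le_add (hφb _ _) ?_)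
      refine (pi_norm_le_iff_of_nonneg hr0).2 fun m => ?_
      rw [Real.norm_eq_abs]
      exact TSUSA.abs_sg_le (fun i => hx (.inr m) i)
  · by_contra hcon
    push Not at hcon
    have h1 : ∀ c m, sg (y c (.inr m)) = φ Y.1 Y.2 m - Y.2 m := fun c m => by
      have := congrFun (congrArg Prod.snd (hcon c)) m
      simp only [Pi.sub_apply] at this
      linarith
    have h2 : ∀ m, φ Y.1 Y.2 m - Y.2 m = 0 := fun m => by
      rcases lt_trichotomy (φ Y.1 Y.2 m - Y.2 m) 0 with h0 | h0 | h0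
      · exact (hy.1.pin_neg hr (.inr m) ⟨0, by omega⟩ fun c _ => by rw [h1]; exact h0).elim
      · exact h0
      · exact (hy.1.pin_pos hr (.inr m) ⟨0, by omega⟩ fun c _ => by rw [h1]; exact h0).elim
    have h3 : ∀ c, tot (fun m => y c (.inr m)) = 0 := fun c => by
      refine Finset.sum_eq_zero fun m _ => ?_
      rw [sum_eq_abs_sg (hy.1.nn c (.inr m)) (hy.1.rb c (.inr m)), h1, h2, abs_zero]
    have h4 : Tup (fun c j => y c (.inl j)) := by
      refine ⟨hy.1.comp Sum.inl, fun c => ?_⟩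
      have := hy.2 c
      rw [tot_sum, h3, add_zero] at this
      exact this
    obtain ⟨c, hc⟩ := h _ Y.1 Y.2 h4 (funext fun m => sub_eq_zero.1 (h2 m))
    exact hc (congrArg Prod.fst (hcon c))

theorem s_trans : S_TRANS := by
  intro r ι _ A _ _ _ hI
  obtain ⟨h, R, hc, hb, hh⟩ := hI
  have e : A ≃L[ℝ] (Fin (Module.finrank ℝ A) → ℝ) :=
    ContinuousLinearEquiv.ofFinrankEq (by simp)
  refine ⟨fun Y x => e (h (e.symm Y) x), ‖(e : A →L[ℝ] (Fin (Module.finrank ℝ A) → ℝ))‖ * R, ?_,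
    fun Y x hx => ?_, fun y Y hy => ?_⟩
  · refine e.continuous.comp ?_
    exact hc.comp (f := fun q : (Fin (Module.finrank ℝ A) → ℝ) × (ι → Fin r → ℝ) => (e.symm q.1, q.2))
      (by fun_prop)
  · exact ((e : A →L[ℝ] (Fin (Module.finrank ℝ A) → ℝ)).le_opNorm _).trans
      (mul_le_mul_of_nonneg_left (hb _ x hx) (norm_nonneg _))
  · obtain ⟨c, hc'⟩ := hh y (e.symm Y) hy
    refine ⟨c, fun h0 => hc' ?_⟩
    have h1 : e (h (e.symm Y) (y c)) = Y := h0
    exact (e.symm_apply_apply _).symm.trans (congrArg e.symm h1)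

end Pool.Agent.P.MP_9ca318_co.BL
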