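import Pool.Agent.P.MP_9ca318_co.BL.Iface

set_option autoImplicit false

namespace Pool.Agent.P.MP_9ca318_co.BL

open Finset

namespace TSYSA

/-- A function with closed sublevel sets does not drop near a point. -/
theorem ev_le {X : Type} [TopologicalSpace X] (band : X → ℕ) (h : ∀ b, IsClosed {x | band x ≤ b})
    (x0 : X) : ∀ᶠ x in nhds x0, band x0 ≤ band x := by
  rcases Nat.eq_zero_or_pos (band x0) with h0 | h0
  · exact Filter.Eventually.of_forall fun x => by rw [h0]; exact Nat.zero_le _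
  · have h1 : {x | band x ≤ band x0 - 1}ᶜ ∈ nhds x0 :=
      (h _).isOpen_compl.mem_nhds (by
        intro h2
        have h3 : band x0 ≤ band x0 - 1 := h2
        omega)
    refine Filter.mem_of_superset h1 fun x hx => ?_
    have h3 : ¬ band x ≤ band x0 - 1 := hx
    show band x0 ≤ band x
    omega

theorem isClosed_sum {X : Type} [TopologicalSpace X] {r : ℕ} (band : X → ℕ)
    (h : ∀ b, IsClosed {x | band x ≤ b}) (s : ℕ) :
    IsClosed {w : Fin r → X | ∑ c, band (w c) ≤ s} := by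
  rw [← isOpen_compl_iff, isOpen_iff_mem_nhds]
  intro w0 hw0
  have h1 : ∀ᶠ w : Fin r → X in nhds w0, ∀ c, band (w0 c) ≤ band (w c) :=
    Filter.eventually_all.2 fun c =>
      (continuous_apply c).continuousAt.eventually (ev_le band h (w0 c))
  refine h1.mono fun w hw hle => hw0 ?_
  have h2 : ∑ c, band (w c) ≤ s := hle
  exact (Finset.sum_le_sum fun c _ => hw c).trans h2

end TSYSA

open TSYSA

theorem s_sys (h1 : S_LOOP) (h2 : S_BAND) (h3 : S_SYS1) : S_SYS := by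
  intro r m0 B hr
  obtain ⟨u1, hu1⟩ := h3 r m0 hr
  refine ⟨(r * B + 1) * u1, ?_⟩
  intro X Y _ _ f Sg G band K hf hG hb hB hloc hW hK hwit
  refine h1 X Y r f u1 (r * B + 1) K (fun w => ∑ c, band (w c)) hr hf hK (fun w hw => ?_)
    (fun s => hK.isClosed.inter (isClosed_sum band hb s)) (fun s L hL hs => ?_)
  · refine Nat.lt_succ_of_le ?_
    calc ∑ c, band (w c) ≤ ∑ _c : Fin r, B :=
          Finset.sum_le_sum fun c _ => hB _ ((hwit w hw).1 c)
      _ = r * B := by simp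
  · obtain ⟨hQ, hI⟩ := h2 X Y r f Sg band s L hb hloc hL
      (fun w hw => ⟨(hwit w (hs w hw).1).1, (hs w hw).2⟩)
    refine hu1 X Y f _ G L hf hQ hG hI (fun m x z hx hxz => hW m x z hx fun a => ⟨?_, (hxz a).2⟩) hL
      (fun w hw => ⟨fun c => ⟨w, hw, c, rfl⟩, (hwit w (hs w hw).1).2⟩)
    obtain ⟨w, hw, c, hc⟩ := (hxz a).1
    rw [← hc]
    exact (hwit w (hs w hw).1).1 c

theorem s_asm : S_ASM := by
  intro r ι _ X Y _ _ ψ f Sg u hψ hf hS hhit hP
  obtain ⟨μ, υ, i1, i2, φ, p, R, hcard, hφ, hp, hφR, hpR, hsep⟩ := hP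
  refine ⟨μ, υ, i1, i2, hcard, ?_⟩
  have hc1 : Continuous fun x : ι → Fin r → ℝ => Metric.infDist (ψ x) Sg :=
    (Metric.continuous_infDist_pt Sg).comp hψ
  have hc2 : Continuous fun x : ι → Fin r → ℝ => f (ψ x) := hf.comp hψ
  obtain ⟨R1, hR1⟩ := (isCompact_Icc (a := (0 : ι → Fin r → ℝ)) (b := 1)).exists_bound_of_continuousOn
    hc1.continuousOn
  obtain ⟨R2, hR2⟩ := (isCompact_Icc (a := (0 : ι → Fin r → ℝ)) (b := 1)).exists_bound_of_continuousOn
    hc2.continuousOn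
  refine ⟨fun a ζ x => (Metric.infDist (ψ x) Sg, f (ψ x), p a.2.1 ζ (ψ x)), fun a ζ => φ a.2.1 ζ,
    max R (max R1 R2), ?_, ?_, fun a ζ x hx => ?_, fun a ζ => (hφR _ _).trans (le_max_left _ _),
    fun y a ζ hy hfix => ?_⟩
  · refine (hc1.comp (by fun_prop)).prodMk ((hc2.comp (by fun_prop)).prodMk ?_)
    exact hp.comp (f := fun q : (ℝ × Y × (υ → ℝ)) × (μ → ℝ) × (ι → Fin r → ℝ) =>
      (q.1.2.1, q.2.1, ψ q.2.2)) (by fun_prop)
  · exact hφ.comp (f := fun q : (ℝ × Y × (υ → ℝ)) × (μ → ℝ) => (q.1.2.1, q.2)) (by fun_prop)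
  · have hx' : x ∈ Set.Icc (0 : ι → Fin r → ℝ) 1 :=
      ⟨fun j i => (hx j i).1, fun j i => (hx j i).2⟩
    rw [Prod.norm_def, Prod.norm_def]
    refine max_le ((hR1 x hx').trans ?_) (max_le ((hR2 x hx').trans ?_) ((hpR _ _ _).trans ?_))
    · exact (le_max_left _ _).trans (le_max_right _ _)
    · exact (le_max_right _ _).trans (le_max_right _ _)
    · exact le_max_left _ _
  · by_contra hcon
    push Not at hcon
    obtain ⟨c0, hc0⟩ := hhit y hy
    have e1 : ∀ c, Metric.infDist (ψ (y c)) Sg = a.1 := fun c => congrArg Prod.fst (hcon c)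
    have e2 : ∀ c, f (ψ (y c)) = a.2.1 := fun c => congrArg (fun q => q.2.1) (hcon c)
    have e3 : ∀ c, p a.2.1 ζ (ψ (y c)) = a.2.2 := fun c => congrArg (fun q => q.2.2) (hcon c)
    have e0 : a.1 = 0 := by rw [← e1 c0]; exact Metric.infDist_zero_of_mem hc0
    have hin : ∀ c, ψ (y c) ∈ Sg := fun c =>
      (hS.mem_iff_infDist_zero ⟨_, hc0⟩).2 (by rw [e1, e0])
    obtain ⟨c, c', hne⟩ := hsep (fun c => ψ (y c))
      ⟨y, ⟨hy, hin, fun c c' => by rw [e2, e2]⟩, rfl⟩ a.2.1 ζ e2 hfix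
    exact hne (by rw [e3, e3])

end Pool.Agent.P.MP_9ca318_co.BL
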