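import Pool.Agent.P.MP_9ca318_co.BL.Iface

/-! The images of the columns are compatible and not all equal. -/

set_option autoImplicit false

namespace Pool.Agent.P.MP_9ca318_co.BL

open Finset

namespace TT2A

theorem card_ty (β : Bool) : (univ.filter fun i : Fin 91 => ty i = β).card ≤ 46 := by
  cases β <;> decide +kernel

end TT2A

theorem s_t2 (hA : S_PA) (hB : S_PB) (hC : S_PC) : S_T2 := by
  classical
  intro n y hy
  have hok : ∀ c b, BlockOK fun j => y c (b, j) := fun c b =>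
    ⟨fun j i => hy.1.nn c _ i, fun j i i' => hy.1.rb c _ i i'⟩
  have hvis : ∀ c b j i, Vis (psi (y c)) b j i → y c (b, j) i ≠ 0 := by
    rintro c b j i (h | ⟨τ, rfl, h⟩)
    · exact (hA.2 _ (hok c b)).2.2.1 (j, i) h
    · exact ((hA.2 _ (hok c b)).2.2.2 τ h).2 j
  have hcmp : ∀ c c', c ≠ c' → Cmp (psi (y c)) (psi (y c')) := fun c c' hcc b j i h =>
    hcc (hy.1.dj c c' _ i (hvis c b j i h.1) (hvis c' b j i h.2))
  refine ⟨hcmp, ?_⟩
  by_contra hcon
  push Not at hcon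
  obtain ⟨b, hb⟩ : ∃ b, (fun j => y 0 (b, j)) ≠ 0 := by
    by_contra h
    push Not at h
    have h1 := hy.2 0
    rw [tot, Finset.sum_eq_zero fun p _ => Finset.sum_eq_zero fun i _ =>
      congrFun (congrFun (h p.1) p.2) i] at h1
    exact zero_ne_one h1
  obtain ⟨w, hw⟩ := Function.ne_iff.1 (hC _ (hok 0 b) hb)
  have hw' : ∀ c, psi (y c) (b, w) ≠ 0 := fun c => by
    rw [hcon c 0]
    exact hw
  rcases w with e | p | τ
  · let Cs : Fin 3 → Finset (Fin 91) := fun j =>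
      univ.filter fun c => ∃ i, ty i = e j ∧ y c (b, j) i ≠ 0
    have h1 : ∀ j, (Cs j).card ≤ 46 := fun j =>
      (hy.1.card_le (b, j) (Cs j) (univ.filter fun i => ty i = e j) fun c hc => by
        obtain ⟨i, h1, h2⟩ := (mem_filter.1 hc).2
        exact ⟨i, mem_filter.2 ⟨mem_univ _, h1⟩, h2⟩).trans (TT2A.card_ty _)
    have h2 : ∀ c, 2 ≤ (univ.filter fun j => ∃ i, ty i = e j ∧ y c (b, j) i ≠ 0).card := fun c => by
      obtain ⟨j, j', i, i', a1, a2, a3, a4, a5⟩ := (hB _ (hok c b)).2 e (hw' c)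
      exact one_lt_card.2 ⟨j, mem_filter.2 ⟨mem_univ _, i, a2, a4⟩, j',
        mem_filter.2 ⟨mem_univ _, i', a3, a5⟩, a1⟩
    have h3 : ∑ j, (Cs j).card =
        ∑ c, (univ.filter fun j => ∃ i, ty i = e j ∧ y c (b, j) i ≠ 0).card := by
      simp only [Cs, card_filter]
      exact sum_comm
    have h4 := sum_le_card_nsmul univ (fun j => (Cs j).card) 46 fun j _ => h1 j
    have h5 := card_nsmul_le_sum univ _ 2 fun c _ => h2 c
    rw [← h3, card_univ, Fintype.card_fin] at h5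
    rw [card_univ, Fintype.card_fin] at h4
    have h6 := h5.trans h4
    norm_num at h6
  · exact hcmp 0 1 (by decide) b p.1 p.2 ⟨Or.inl (hw' 0), Or.inl (hw' 1)⟩
  · exact hcmp 0 1 (by decide) b 0 (τ 0) ⟨Or.inr ⟨τ, rfl, hw' 0⟩, Or.inr ⟨τ, rfl, hw' 1⟩⟩

end Pool.Agent.P.MP_9ca318_co.BL
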