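import Pool.Agent.P.MP_9ca318_co.BL.Iface

/-! A bounded map with prescribed form near the sheets of a finite cover. -/

set_option autoImplicit false

namespace Pool.Agent.P.MP_9ca318_co.BL

namespace TTUBEA

/-- A cutoff function. -/
noncomputable def th (s : ℝ) : ℝ := min 1 (max 0 (2 - 16 * s))

theorem th_cont : Continuous th := by
  unfold th
  fun_prop

theorem th_one {s : ℝ} (h : s ≤ 1 / 16) : th s = 1 :=
  min_eq_left (le_max_of_le_right (by linarith))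

theorem th_zero {s : ℝ} (h : 1 / 8 ≤ s) : th s = 0 := by
  rw [th, max_eq_left (by linarith), min_eq_right zero_le_one]

theorem th_abs (s : ℝ) : |th s| ≤ 1 := by
  rw [abs_of_nonneg (le_min zero_le_one (le_max_left _ _))]
  exact min_le_left _ _

variable {Ω E : Type} [Fintype Ω] [NormedAddCommGroup E] [NormedSpace ℝ E]

/-- The interpolated map. -/
noncomputable def kap (ρ : Ω → E →L[ℝ] E) (Ξ : E → E) (x : Ω → E) (ξ : E) : E :=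
  Ξ ξ + ∑ ω, th (dist ξ (x ω)) • (ρ ω (ξ - x ω) - Ξ ξ)

theorem kap_bij (ρ : Ω → E →L[ℝ] E) (Ξ : E → E) {x x' : Ω → E} {g : Ω → Ω}
    (hg : Function.Bijective g) (h : ∀ ω, x' (g ω) = x ω ∧ ρ (g ω) = ρ ω) (ξ : E) :
    kap ρ Ξ x' ξ = kap ρ Ξ x ξ := by
  unfold kap
  rw [← hg.sum_comp]
  simp only [(h _).1, (h _).2]

theorem kap_cont (ρ : Ω → E →L[ℝ] E) {Ξ : E → E} (hΞ : Continuous Ξ) :
    Continuous fun q : (Ω → E) × E => kap ρ Ξ q.1 q.2 := by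
  unfold kap
  have := th_cont
  fun_prop

theorem kap_bound (ρ : Ω → E →L[ℝ] E) {Ξ : E → E} {R0 : ℝ} (h1 : ∀ ξ, ‖ξ - Ξ ξ‖ ≤ R0) {x : Ω → E}
    (h2 : ∀ ω, ‖x ω‖ ≤ R0) (ξ : E) :
    ‖ξ - kap ρ Ξ x ξ‖ ≤ R0 + ∑ ω, (‖ρ ω‖ / 8 + (2 * R0 + 1 / 8)) := by
  have h0 : 0 ≤ R0 := (norm_nonneg _).trans (h1 0)
  rw [kap, ← sub_sub]
  refine (norm_sub_le _ _).trans (add_le_add (h1 ξ) (norm_sum_le_of_le _ fun ω _ => ?_))
  rcases le_or_gt (1 / 8) (dist ξ (x ω)) with h | h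
  · rw [th_zero h, zero_smul, norm_zero]
    positivity
  · rw [dist_eq_norm] at h
    have h3 : ‖ρ ω (ξ - x ω)‖ ≤ ‖ρ ω‖ / 8 :=
      ((ρ ω).le_opNorm_of_le h.le).trans_eq (mul_one_div _ _)
    have h4 : ‖Ξ ξ‖ ≤ 2 * R0 + 1 / 8 := by
      have h5 : Ξ ξ = (ξ - x ω) + x ω - (ξ - Ξ ξ) := by abel
      have h6 := norm_sub_le ((ξ - x ω) + x ω) (ξ - Ξ ξ)
      have h7 := norm_add_le (ξ - x ω) (x ω)
      rw [← h5] at h6
      linarith [h1 ξ, h2 ω]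
    rw [norm_smul, Real.norm_eq_abs]
    exact (mul_le_of_le_one_left (norm_nonneg _) (th_abs _)).trans
      ((norm_sub_le _ _).trans (add_le_add h3 h4))

theorem kap_near (ρ : Ω → E →L[ℝ] E) (Ξ : E → E) {x : Ω → E}
    (hx : ∀ ω ω', ω ≠ ω' → 1 / 2 ≤ dist (x ω) (x ω')) {ξ : E} {ω : Ω}
    (h : dist ξ (x ω) ≤ 1 / 16) : kap ρ Ξ x ξ = ρ ω (ξ - x ω) := by
  rw [kap, Finset.sum_eq_single ω, th_one h, one_smul, add_sub_cancel]
  · intro ω' _ h1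
    have h2 := hx ω' ω h1
    have h3 := dist_triangle_left (x ω') (x ω) ξ
    rw [th_zero (by linarith), zero_smul]
  · simp

theorem kap_far (ρ : Ω → E →L[ℝ] E) (Ξ : E → E) {x : Ω → E} {ξ : E}
    (h : ∀ ω, dist ξ (x ω) < 1 / 8 → ρ ω (ξ - x ω) = Ξ ξ) : kap ρ Ξ x ξ = Ξ ξ := by
  rw [kap, Finset.sum_eq_zero, add_zero]
  intro ω _
  rcases le_or_gt (1 / 8) (dist ξ (x ω)) with h1 | h1
  · rw [th_zero h1, zero_smul]
  · rw [h ω h1, sub_self, smul_zero]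

end TTUBEA

open TTUBEA in
theorem s_tube : S_TUBE := by
  intro Y _ T Ω _ E _ _ _ Z U g e ρ Ξ R0 hZ hU hcov hg he hinv hb hsep hΞ hΞb
  classical
  choose c hc using hcov
  have h0 : 0 ≤ R0 := (norm_nonneg _).trans (hΞb 0)
  let φ0 : Y × E → E := fun q =>
    if h : q.1 ∈ Z then q.2 - kap ρ Ξ (fun ω => e (c q.1 h) ω q.1) q.2 else 0
  have key : ∀ t, ∀ z ∈ Z, z ∈ U t → ∀ ξ, φ0 (z, ξ) = ξ - kap ρ Ξ (fun ω => e t ω z) ξ := by
    intro t z hz ht ξ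
    simp only [φ0, dif_pos hz]
    rw [kap_bij ρ Ξ (hg.bij hz ht (hc z hz)) fun ω => hinv t _ ω z hz ht (hc z hz)]
  have hcont : ContinuousOn φ0 (Z ×ˢ Set.univ) := by
    refine continuousOn_of_locally_continuousOn fun q hq => ?_
    refine ⟨U (c q.1 hq.1) ×ˢ Set.univ, (hU _).prod isOpen_univ, ⟨hc _ hq.1, trivial⟩, ?_⟩
    refine ContinuousOn.congr (f := fun p : Y × E =>
      p.2 - kap ρ Ξ (fun ω => e (c q.1 hq.1) ω p.1) p.2) ?_ fun p hp => key _ _ hp.1.1 hp.2.1 _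
    refine continuousOn_snd.sub ((kap_cont ρ hΞ).comp_continuousOn
      (f := fun p : Y × E => ((fun ω => e (c q.1 hq.1) ω p.1), p.2))
      (ContinuousOn.prodMk (continuousOn_pi.2 fun ω => ?_) continuousOn_snd))
    exact (he _ ω).comp continuousOn_fst fun p hp => ⟨hp.1.1, hp.2.1⟩
  obtain ⟨φ, h1, h2, h3⟩ := tietze (hZ.prod isClosed_univ) φ0 hcont
    (R0 + ∑ ω, (‖ρ ω‖ / 8 + (2 * R0 + 1 / 8))) (by positivity) fun q hq => by
      rw [key _ q.1 hq.1 (hc _ hq.1) q.2]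
      exact kap_bound ρ hΞb (fun ω => hb _ ω _) _
  refine ⟨fun z ξ => φ (z, ξ), _, h1, fun z ξ => h2 _, fun t z hz ht ξ => ?_⟩
  have h4 : ξ - φ (z, ξ) = kap ρ Ξ (fun ω => e t ω z) ξ := by
    rw [h3 (z, ξ) ⟨hz, trivial⟩, key t z hz ht, sub_sub_cancel]
  exact ⟨fun ω h => h4.trans (kap_near ρ Ξ (fun ω ω' => hsep t ω ω' z hz ht) h),
    fun h => h4.trans (kap_far ρ Ξ h)⟩

end Pool.Agent.P.MP_9ca318_co.BL
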