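import Pool.Agent.P.MP_9ca318_co.BL.Iface

set_option autoImplicit false

namespace Pool.Agent.P.MP_9ca318_co.BL

open Finset

namespace TUSCA

/-- Finitely many positive numbers have a positive lower bound. -/
theorem exists_lb {κ : Type} [Fintype κ] (ρ : κ → ℝ) (h : ∀ a, 0 < ρ a) (ε : ℝ) (hε : 0 < ε) :
    ∃ η : ℝ, 0 < η ∧ η ≤ ε ∧ ∀ a, η ≤ ρ a := by
  have h1 : ∀ᶠ η in nhdsWithin (0 : ℝ) (Set.Ioi 0), η ≤ ε ∧ ∀ a, η ≤ ρ a :=
    Filter.Eventually.filter_mono nhdsWithin_le_nhds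
      ((ge_mem_nhds hε : ∀ᶠ η in nhds (0 : ℝ), η ≤ ε).and
        (Filter.eventually_all.2 fun a => (ge_mem_nhds (h a) : ∀ᶠ η in nhds (0 : ℝ), η ≤ ρ a)))
  obtain ⟨η, h2, h3⟩ := (h1.and self_mem_nhdsWithin).exists
  exact ⟨η, h3, h2.1, h2.2⟩

end TUSCA

open TUSCA

theorem s_usc : S_USC := by
  intro X Y _ _ f Q G z0 m0 x0 ε hf hQ hG hL hx0 hfib hε
  choose ρ hρ0 hρ using fun a => hL (x0 a) (hx0 a)
  have hσ : ∀ p : Fin m0 × Fin m0, ∃ σ : ℝ, 0 < σ ∧ ∀ x x', dist x (x0 p.1) < σ →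
      dist x' (x0 p.2) < σ → G x x' → G (x0 p.1) (x0 p.2) := by
    intro p
    by_cases h : G (x0 p.1) (x0 p.2)
    · exact ⟨1, one_pos, fun _ _ _ _ _ => h⟩
    · obtain ⟨σ, h0, h1⟩ := Metric.isOpen_iff.1 hG.isOpen_compl (x0 p.1, x0 p.2) h
      refine ⟨σ, h0, fun x x' h2 h3 h4 => ?_⟩
      have h5 : (x, x') ∈ Metric.ball (x0 p.1, x0 p.2) σ := by
        rw [Metric.mem_ball, Prod.dist_eq]
        exact max_lt h2 h3
      exact absurd h4 (h1 h5)
  choose σ hσ0 hσ using hσ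
  obtain ⟨η1, h10, h11, h12⟩ := exists_lb ρ hρ0 ε hε
  obtain ⟨η, h0, h1, h2⟩ := exists_lb σ hσ0 η1 h10
  have hc : IsCompact (Q \ ⋃ a, Metric.ball (x0 a) η) :=
    hQ.diff (isOpen_iUnion fun a => Metric.isOpen_ball)
  have hcl : IsClosed (f '' (Q \ ⋃ a, Metric.ball (x0 a) η)) := (hc.image hf).isClosed
  have hz : z0 ∈ (f '' (Q \ ⋃ a, Metric.ball (x0 a) η))ᶜ := by
    rintro ⟨y, ⟨hy, hn⟩, hfy⟩
    obtain ⟨a, rfl⟩ := hfib y hy hfy
    exact hn (Set.mem_iUnion.2 ⟨a, Metric.mem_ball_self h0⟩)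
  obtain ⟨δ, hδ, hb⟩ := Metric.isOpen_iff.1 hcl.isOpen_compl z0 hz
  refine ⟨δ, hδ, fun z hzd m x hx hxQ => ?_⟩
  have hj : ∀ a, ∃ j, dist (x a) (x0 j) < η := by
    intro a
    by_contra hcon
    refine hb (Metric.mem_ball.2 hzd) ⟨x a, ⟨(hxQ a).1, fun hu => ?_⟩, (hxQ a).2⟩
    obtain ⟨j, hj⟩ := Set.mem_iUnion.1 hu
    exact hcon ⟨j, hj⟩
  choose j hj using hj
  refine ⟨j, fun a b hab => hx ?_, fun a => (hj a).trans_le (h1.trans h11), fun a b hab => ?_⟩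
  · refine hρ (j a) (x a) (hxQ a).1 (x b) (hxQ b).1 ((hj a).trans_le (h1.trans (h12 _))) ?_
      (by rw [(hxQ a).2, (hxQ b).2])
    rw [hab]
    exact (hj b).trans_le (h1.trans (h12 _))
  · exact hσ (j a, j b) (x a) (x b) ((hj a).trans_le (h2 _)) ((hj b).trans_le (h2 _)) hab

theorem s_rank : S_RANK := by
  classical
  intro m m0 G0 G1 j hj hG
  by_cases hlt : rk G0 < rk G1
  · exact Or.inl hlt
  right
  have hm : m ≤ m0 := by simpa using Fintype.card_le_of_injective j hj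
  have hJ : Function.Injective (Prod.map j j) := hj.prodMap hj
  have hsub : (univ.filter (fun p : Fin m × Fin m => G0 p.1 p.2)).image (Prod.map j j) ⊆
      univ.filter (fun p : Fin m0 × Fin m0 => G1 p.1 p.2) := by
    intro p hp
    obtain ⟨q, hq, rfl⟩ := Finset.mem_image.1 hp
    simp only [Finset.mem_filter, Finset.mem_univ, true_and] at hq ⊢
    exact hG _ _ hq
  have hle := Finset.card_le_card hsub
  have hci := Finset.card_image_of_injective (univ.filter (fun p : Fin m × Fin m => G0 p.1 p.2)) hJ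
  unfold rk at hlt
  have heq := Finset.eq_of_subset_of_card_le hsub (by
    rw [hci]
    rw [hci] at hle
    convert (show (univ.filter (fun p : Fin m0 × Fin m0 => G1 p.1 p.2)).card ≤
      (univ.filter (fun p : Fin m × Fin m => G0 p.1 p.2)).card by omega))
  refine ⟨(Fintype.bijective_iff_injective_and_card j).2 ⟨hj, ?_⟩, fun a b => ⟨fun h => ?_, hG a b⟩⟩
  · rw [hci] at hle
    simp only [Fintype.card_fin]
    omega
  · have h1 : (j a, j b) ∈ univ.filter (fun p : Fin m0 × Fin m0 => G1 p.1 p.2) := by simpa using h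
    rw [← heq] at h1
    obtain ⟨q, hq, h2⟩ := Finset.mem_image.1 h1
    have h3 : q = (a, b) := hJ h2
    subst h3
    simpa using hq

end Pool.Agent.P.MP_9ca318_co.BL
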