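import Pool.Agent.P.MP_9ca318_co.BL.Iface

/-! The clique and coclique bound, and invariant admissible labelings. -/

set_option autoImplicit false

namespace Pool.Agent.P.MP_9ca318_co.BL

open Finset

theorem s_cc : S_CC := by
  classical
  intro m P O K I h1 h2 hK hI h3
  have e1 : ∀ a ∈ O, ∀ b ∈ O,
      (univ.filter fun g : P => g.1 a = b).card * O.card = Fintype.card P := fun a ha b hb => by
    rw [← card_univ, card_eq_sum_card_fiberwise (s := univ) (f := fun g : P => g.1 a) (t := O)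
      (fun g _ => h2 a ha g g.2), mul_comm, ← smul_eq_mul, ← sum_const]
    refine sum_congr (M := ℕ) rfl fun c hc => ?_
    obtain ⟨h, hh, rfl⟩ := h1 b hb c hc
    refine card_equiv (Equiv.mulLeft (⟨h, hh⟩ : P)) fun g => ?_
    simp
  have e2 : ∑ a ∈ K, ∑ b ∈ I, (univ.filter fun g : P => g.1 a = b).card ≤ Fintype.card P := by
    simp only [card_filter]
    rw [sum_congr rfl fun a _ => sum_comm, sum_comm, ← card_univ, card_eq_sum_ones]
    refine sum_le_sum fun g _ => ?_
    simp only [sum_ite_eq]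
    rw [← card_filter]
    exact card_le_one.2 fun a ha b hb => h3 g g.2 a (mem_filter.1 ha).1 b (mem_filter.1 hb).1
      (mem_filter.1 ha).2 (mem_filter.1 hb).2
  have e3 := Nat.mul_le_mul_right O.card e2
  rw [sum_mul, sum_congr rfl fun a ha => (sum_mul _ _ _).trans
    (sum_congr rfl fun b hb => e1 a (hK ha) b (hI hb)), sum_const, sum_const, smul_eq_mul,
    smul_eq_mul, ← mul_assoc, mul_comm (Fintype.card P)] at e3
  exact Nat.le_of_mul_le_mul_right e3 Fintype.card_pos

namespace TWT1A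

theorem two {p k n : ℕ} (hp : p.Prime) (h : n = p ^ k) (a b : ℕ) (ha : a.Prime) (hb : b.Prime)
    (hab : a ≠ b) (h1 : a ∣ n) (h2 : b ∣ n) : False :=
  hab ((Nat.prime_eq_prime_of_dvd_pow ha hp (h ▸ h1)).trans
    (Nat.prime_eq_prime_of_dvd_pow hb hp (h ▸ h2)).symm)

theorem num {p k n i : ℕ} (hp : p.Prime) (h : n = p ^ k) (h1 : 91 * i ≤ n) (h2 : n ≤ 91 * i + 3)
    (h3 : 91 ≤ n) (h4 : n ≤ 273) : False := by
  have t := two hp h
  obtain rfl | rfl | rfl | rfl | rfl | rfl | rfl | rfl | rfl : n = 91 ∨ n = 92 ∨ n = 93 ∨ n = 94 ∨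
    n = 182 ∨ n = 183 ∨ n = 184 ∨ n = 185 ∨ n = 273 := by omega
  exacts [t 7 13 (by norm_num) (by norm_num) (by norm_num) (by norm_num) (by norm_num),
    t 2 23 (by norm_num) (by norm_num) (by norm_num) (by norm_num) (by norm_num),
    t 3 31 (by norm_num) (by norm_num) (by norm_num) (by norm_num) (by norm_num),
    t 2 47 (by norm_num) (by norm_num) (by norm_num) (by norm_num) (by norm_num),
    t 2 7 (by norm_num) (by norm_num) (by norm_num) (by norm_num) (by norm_num),
    t 3 61 (by norm_num) (by norm_num) (by norm_num) (by norm_num) (by norm_num),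
    t 2 23 (by norm_num) (by norm_num) (by norm_num) (by norm_num) (by norm_num),
    t 5 37 (by norm_num) (by norm_num) (by norm_num) (by norm_num) (by norm_num),
    t 3 7 (by norm_num) (by norm_num) (by norm_num) (by norm_num) (by norm_num)]

theorem core {m r p : ℕ} {G0 : Fin m → Fin m → Prop} {P : Subgroup (Equiv.Perm (Fin m))}
    (hG : Gam G0) (hp : p.Prime) (hP : IsPGroup p P)
    (hg : ∀ g ∈ P, ∀ a b, G0 (g a) (g b) ↔ G0 a b) (w : Fin r → Fin m)
    (hw : ∀ c c', c ≠ c' → G0 (w c) (w c')) {d d' : Fin r} (hne : w d ≠ w d')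
    (ho : ∀ c c', w c ∈ MulAction.orbit P (w c')) :
    ∃ k n i : ℕ, n = p ^ k ∧ r * i ≤ n ∧ n ≤ 91 * i + 3 ∧ r ≤ n ∧ n ≤ 273 := by
  have hi : Function.Injective w := fun c c' e => by
    by_contra hc
    have h1 : G0 (w c) (w c) := by
      have := hw c c' hc
      rwa [← e] at this
    have h2 : ∀ d, G0 (w d) (w d) := fun d => by
      obtain ⟨g, e'⟩ := ho d c
      rw [← e']
      exact (hg g g.2 _ _).2 h1
    exact hne (hG.2.1 _ _ (h2 d) (h2 d'))
  have := Fact.mk hp
  obtain ⟨k, hk⟩ := hP.card_orbit (w d)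
  obtain ⟨O, hO⟩ := (MulAction.orbit P (w d)).toFinite.exists_finset_coe
  have mO : ∀ a, a ∈ O ↔ a ∈ MulAction.orbit P (w d) := fun a => by rw [← hO, mem_coe]
  rw [← hO, Nat.card_coe_set_eq, Set.ncard_coe_finset] at hk
  obtain ⟨I, i1, i2, i3⟩ := hG.2.2 O
  have hK : univ.image w ⊆ O := fun a ha => by
    obtain ⟨c, -, rfl⟩ := mem_image.1 ha
    exact (mO _).2 (ho c d)
  have cK : (univ.image w).card = r := by
    rw [card_image_of_injective _ hi, card_univ, Fintype.card_fin]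
  have cc := s_cc m P O _ I (fun a ha b hb => by
      obtain ⟨g, rfl⟩ := (mO _).1 ha
      obtain ⟨h, rfl⟩ := (mO _).1 hb
      exact ⟨_, (h * g⁻¹).2, (mul_smul h g⁻¹ _).trans (congrArg _ (inv_smul_smul g _))⟩)
    (fun a ha g h => by
      obtain ⟨u, rfl⟩ := (mO _).1 ha
      exact (mO _).2 ⟨⟨g, h⟩ * u, mul_smul _ _ _⟩) hK i1
    fun g h a ha b hb e1 e2 => by
      obtain ⟨c, -, rfl⟩ := mem_image.1 ha
      obtain ⟨c', -, rfl⟩ := mem_image.1 hb
      by_contra hc
      exact i2 _ e1 _ e2 (g.injective.ne hc) ((hg g h _ _).2 (hw c c' fun e => hc (e ▸ rfl)))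
  rw [cK] at cc
  exact ⟨k, _, _, hk, cc, i3, cK ▸ card_le_card hK,
    ((card_le_univ _).trans_eq (Fintype.card_fin m)).trans hG.1⟩

end TWT1A

theorem s_wt1 : S_WT1 := by
  intro m G0 p P hG hp hP hg
  refine ⟨fun a => (Quotient.mk (MulAction.orbitRel P (Fin m)) a).out, fun w hw hne => ?_,
    fun g h => funext fun a => congrArg Quotient.out (Quotient.sound ⟨⟨g, h⟩, rfl⟩)⟩
  by_contra hn
  obtain ⟨d, d', hne⟩ := hne
  obtain ⟨k, n, i, h0, h1, h2, h3, h4⟩ := TWT1A.core hG hp hP hg w hw hne fun c c' =>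
    MulAction.orbitRel_apply.1 (Quotient.exact (Quotient.out_injective
      (not_not.1 fun e => hn ⟨c, c', e⟩)))
  exact TWT1A.num hp h0 h1 h2 h3 h4

end Pool.Agent.P.MP_9ca318_co.BL
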