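import Pool.Agent.P.MP_9ca318_co.BL.Iface

/-! Invariant weights of total one from labelings fixed by Sylow subgroups. -/

set_option autoImplicit false

namespace Pool.Agent.P.MP_9ca318_co.BL

namespace TWT2A

/-- Labelings. -/
def Lab (m : ℕ) : Type := Fin m → Fin m

instance (m : ℕ) : MulAction (Equiv.Perm (Fin m)) (Lab m) where
  smul g l := fun a => l (g⁻¹ a)
  one_smul _ := rfl
  mul_smul _ _ _ := rfl

variable {m : ℕ} (r : ℕ) (G0 : Fin m → Fin m → Prop)

/-- Automorphisms of the relation. -/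
def Aut : Subgroup (Equiv.Perm (Fin m)) where
  carrier := {g | ∀ a b, G0 (g a) (g b) ↔ G0 a b}
  mul_mem' {g h} hg hh a b := (hg (h a) (h b)).trans (hh a b)
  one_mem' _ _ := Iff.rfl
  inv_mem' {g} hg a b := by simpa using (hg (g⁻¹ a) (g⁻¹ b)).symm

/-- Totals of invariant weights. -/
def Tot : AddSubgroup ℤ where
  carrier := {n | ∃ W : (Fin m → Fin m) → ℤ, (∀ l, W l ≠ 0 → Adm r G0 l) ∧
    (∀ g : Fin m → Fin m, Function.Bijective g → (∀ a b, G0 (g a) (g b) ↔ G0 a b) →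
      ∀ l, W (l ∘ g) = W l) ∧ ∑ l, W l = n}
  add_mem' := by
    rintro _ _ ⟨W, h1, h2, rfl⟩ ⟨W', h3, h4, rfl⟩
    refine ⟨fun l => W l + W' l, fun l hl => ?_, fun g hg hG l => ?_, Finset.sum_add_distrib⟩
    · by_cases h : W l = 0
      · exact h3 l (by simpa [h] using hl)
      · exact h1 l h
    · simp only [h2 g hg hG, h4 g hg hG]
  zero_mem' := ⟨0, fun _ h => absurd rfl h, fun _ _ _ _ => rfl, by simp⟩
  neg_mem' := by
    rintro _ ⟨W, h1, h2, rfl⟩
    exact ⟨fun l => -W l, fun l hl => h1 l (neg_ne_zero.1 hl),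
      fun g hg hG l => by simp only [h2 g hg hG], Finset.sum_neg_distrib _⟩

variable {r G0}

theorem adm_smul {l : Lab m} (h : Adm r G0 l) (g : Aut G0) : Adm r G0 (g • l : Lab m) := by
  intro w h1 ⟨c, c', h2⟩
  exact h (fun c => (g : Equiv.Perm (Fin m))⁻¹ (w c))
    (fun c c' hc => ((Aut G0).inv_mem g.2 _ _).2 (h1 c c' hc))
    ⟨c, c', fun h3 => h2 (Equiv.injective _ h3)⟩

theorem orbit_mem {l : Lab m} (h : Adm r G0 l) :
    (((MulAction.stabilizer (Aut G0) l).index : ℕ) : ℤ) ∈ Tot r G0 := by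
  classical
  refine ⟨fun l' => if (l' : Lab m) ∈ MulAction.orbit (Aut G0) l then 1 else 0,
    fun l' hl => ?_, fun g hg hG l' => ?_, ?_⟩
  · obtain ⟨g, rfl⟩ : (l' : Lab m) ∈ MulAction.orbit (Aut G0) l := by
      by_contra h1
      exact hl (if_neg h1)
    exact adm_smul h g
  · let g' : Aut G0 := ⟨Equiv.ofBijective g hg, hG⟩
    let l'' : Lab m := l'
    refine if_congr (?_ : g'⁻¹ • l'' ∈ _ ↔ l'' ∈ _) rfl rfl
    exact ⟨fun h1 => by simpa using MulAction.mem_orbit_of_mem_orbit g' h1,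
      MulAction.mem_orbit_of_mem_orbit _⟩
  · rw [MulAction.index_stabilizer, Finset.sum_boole, ← Set.ncard_coe_finset]
    congr 2
    ext l'
    simp only [Finset.coe_filter, Finset.mem_univ, true_and, Set.mem_ofPred_eq]
    rfl

end TWT2A

open TWT2A in
theorem s_wt2 : S_WT2 := by
  intro r m G0 h
  obtain ⟨a, ha⟩ := Int.subgroup_cyclic (Tot r G0)
  change (1 : ℤ) ∈ Tot r G0
  by_cases h1 : a.natAbs = 1
  · have h2 : a ∈ Tot r G0 := ha ▸ AddSubgroup.mem_closure_singleton_self a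
    rcases Int.natAbs_eq_iff.1 h1 with h3 | h3
    · simpa [h3] using h2
    · simpa [h3] using h2
  obtain ⟨p, hp, h2⟩ := Nat.exists_prime_and_dvd h1
  have := Fact.mk hp
  obtain ⟨P⟩ : Nonempty (Sylow p (Aut G0)) := inferInstance
  obtain ⟨l, h3, h4⟩ := h p ((P : Subgroup (Aut G0)).map (Aut G0).subtype) hp
    (P.isPGroup'.map _) (by rintro _ ⟨g, -, rfl⟩; exact g.2)
  let l' : Lab m := l
  have h5 : (P : Subgroup (Aut G0)) ≤ MulAction.stabilizer (Aut G0) l' := fun g hg =>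
    h4 _ ⟨g⁻¹, inv_mem hg, rfl⟩
  have h6 := orbit_mem (l := l') h3
  rw [ha, AddSubgroup.mem_closure_singleton] at h6
  obtain ⟨n, hn⟩ := h6
  refine absurd (Dvd.dvd.trans ?_ (Subgroup.index_dvd_of_le h5)) P.not_dvd_index
  rw [← Int.natCast_dvd_natCast, ← hn]
  exact Dvd.dvd.mul_left (Int.natCast_dvd.2 h2) n

end Pool.Agent.P.MP_9ca318_co.BL
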