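import Pool.Agent.P.MP_9ca318_co.BL.Iface

/-! The zigzag function and the numbering of a signed finite set. -/

set_option autoImplicit false

namespace Pool.Agent.P.MP_9ca318_co.BL

open Finset

namespace TZIGA

theorem zig_aux (k : ℕ) : ∃ zig : ℝ → ℝ, Continuous zig ∧
    (∀ η, 0 ≤ η - zig η ∧ η - zig η ≤ 2 * k) ∧
    (∀ a : ℕ, a ≤ 2 * k → ∀ η : ℝ, |η - a| ≤ 1 / 2 → zig η = (-1) ^ a * (η - a)) ∧
    (∀ η : ℝ, 2 * k - 1 / 2 ≤ η → zig η = η - 2 * k) ∧ (∀ η : ℝ, η ≤ 1 / 2 → zig η = η) := by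
  induction k with
  | zero =>
    refine ⟨fun η => η, continuous_id, fun η => by simp, fun a ha η _ => ?_, fun η _ => by simp,
      fun η _ => rfl⟩
    obtain rfl : a = 0 := by omega
    simp
  | succ k ih =>
    obtain ⟨z, hc, hb, hf, hr, hl⟩ := ih
    have hk : (0 : ℝ) ≤ k := Nat.cast_nonneg k
    have c0 : ∀ t : ℝ, t ≤ 0 → max 0 (min 1 t) = 0 := fun t ht =>
      max_eq_left ((min_le_right _ _).trans ht)
    have c1 : ∀ t : ℝ, 1 ≤ t → max 0 (min 1 t) = 1 := fun t ht => by
      rw [min_eq_left ht, max_eq_right zero_le_one]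
    have c2 : ∀ t : ℝ, 0 ≤ t → t ≤ 1 → max 0 (min 1 t) = t := fun t h0 h1 => by
      rw [min_eq_right h1, max_eq_right h0]
    refine ⟨fun η => z η - 2 * max 0 (min 1 (η - 2 * k - 1 / 2)), by fun_prop, fun η => ?_,
      fun a ha η hη => ?_, fun η hη => ?_, fun η hη => ?_⟩
    · have h1 : 0 ≤ max 0 (min 1 (η - 2 * k - 1 / 2)) := le_max_left _ _
      have h2 : max 0 (min 1 (η - 2 * k - 1 / 2)) ≤ 1 := max_le zero_le_one (min_le_left _ _)
      have h3 := hb η
      push_cast
      constructor <;> linarith [h3.1, h3.2]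
    · obtain ⟨h1, h2⟩ := abs_le.1 hη
      by_cases h : a ≤ 2 * k
      · have h3 : (a : ℝ) ≤ 2 * k := by exact_mod_cast h
        show z η - 2 * max 0 (min 1 (η - 2 * k - 1 / 2)) = _
        rw [c0 _ (by linarith), hf a h η hη]
        ring
      · by_cases h' : a = 2 * k + 1
        · subst h'
          push_cast at h1 h2 ⊢
          rw [c2 _ (by linarith) (by linarith), hr η (by linarith), pow_succ, pow_mul]
          norm_num
          ring
        · obtain rfl : a = 2 * (k + 1) := by omega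
          push_cast at h1 h2 ⊢
          rw [c1 _ (by linarith), hr η (by linarith), pow_mul]
          norm_num
          ring
    · push_cast at hη ⊢
      rw [c1 _ (by linarith), hr η (by linarith)]
      ring
    · show z η - 2 * max 0 (min 1 (η - 2 * k - 1 / 2)) = _
      rw [c0 _ (by linarith), hl η hη]
      ring

end TZIGA

open TZIGA in
theorem s_zig : S_ZIG := by
  intro k
  obtain ⟨z, hc, hb, hf, hr, hl⟩ := zig_aux k
  refine ⟨z, hc, fun η => ?_, hf, fun η h0 => ?_⟩
  · rw [abs_of_nonneg (hb η).1]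
    exact (hb η).2
  · by_cases h1 : η ≤ 1 / 2
    · refine ⟨0, Nat.zero_le _, ?_⟩
      rw [hl η h1] at h0
      simpa using h0
    by_cases h2 : 2 * (k : ℝ) - 1 / 2 ≤ η
    · refine ⟨2 * k, le_rfl, ?_⟩
      rw [hr η h2] at h0
      push_cast
      linarith
    push Not at h1 h2
    have h3 := abs_sub_round η
    obtain ⟨h4, h5⟩ := abs_le.1 h3
    have h6 : (0 : ℤ) ≤ round η := by
      have : (0 : ℝ) ≤ (round η : ℤ) := by linarith
      exact_mod_cast this
    obtain ⟨a, ha⟩ := Int.eq_ofNat_of_zero_le h6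
    have h7 : ((round η : ℤ) : ℝ) = (a : ℝ) := by rw [ha]; simp
    rw [h7] at h3 h4 h5
    have h8 : a ≤ 2 * k := by
      have : (a : ℝ) ≤ 2 * k := by linarith
      exact_mod_cast this
    refine ⟨a, h8, ?_⟩
    rw [hf a h8 η h3] at h0
    rcases mul_eq_zero.1 h0 with h9 | h9
    · exact absurd h9 (pow_ne_zero _ (by norm_num))
    · linarith

theorem s_num : S_NUM := by
  classical
  intro Ω _ s hs hsum
  have hneg : ∀ ω, ¬ s ω = 1 → s ω = -1 := fun ω h => (hs ω).resolve_left h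
  have hcard : Fintype.card {ω // s ω = 1} = Fintype.card {ω // ¬ s ω = 1} + 1 := by
    rw [← Finset.sum_filter_add_sum_filter_not univ (fun ω => s ω = 1),
      Finset.sum_congr rfl (fun ω hω => (Finset.mem_filter.1 hω).2),
      Finset.sum_congr (s₁ := univ.filter (fun ω => ¬ s ω = 1)) rfl
        (fun ω hω => hneg ω (Finset.mem_filter.1 hω).2)] at hsum
    simp only [Finset.sum_const, nsmul_eq_mul, mul_one, mul_neg] at hsum
    rw [Fintype.card_subtype, Fintype.card_subtype]
    omega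
  obtain ⟨k, hk⟩ : ∃ k, Fintype.card {ω // ¬ s ω = 1} = k := ⟨_, rfl⟩
  rw [hk] at hcard
  let eP := Fintype.equivFinOfCardEq hcard
  let eN := Fintype.equivFinOfCardEq hk
  refine ⟨k, fun ω => if h : s ω = 1 then 2 * (eP ⟨ω, h⟩).val else 2 * (eN ⟨ω, h⟩).val + 1,
    fun ω ω' e => ?_, fun ω => ?_, fun n hn => ?_, fun ω => ?_⟩
  · by_cases h : s ω = 1 <;> by_cases h' : s ω' = 1 <;> simp only [h, h', dif_pos, dif_neg,
      not_false_eq_true] at e
    · have e1 : eP ⟨ω, h⟩ = eP ⟨ω', h'⟩ := Fin.ext (by omega)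
      exact congrArg Subtype.val (eP.injective e1)
    · omega
    · omega
    · have e1 : eN ⟨ω, h⟩ = eN ⟨ω', h'⟩ := Fin.ext (by omega)
      exact congrArg Subtype.val (eN.injective e1)
  · by_cases h : s ω = 1
    · have := (eP ⟨ω, h⟩).isLt
      simp only [dif_pos h]
      omega
    · have := (eN ⟨ω, h⟩).isLt
      simp only [dif_neg h]
      omega
  · rcases Nat.even_or_odd' n with ⟨m, rfl | rfl⟩
    · refine ⟨(eP.symm ⟨m, by omega⟩).1, ?_⟩
      simp only [dif_pos (eP.symm ⟨m, by omega⟩).2, Subtype.coe_eta, Equiv.apply_symm_apply]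
    · refine ⟨(eN.symm ⟨m, by omega⟩).1, ?_⟩
      simp only [dif_neg (eN.symm ⟨m, by omega⟩).2, Subtype.coe_eta, Equiv.apply_symm_apply]
  · by_cases h : s ω = 1
    · simp only [dif_pos h]
      rw [pow_mul, h]
      norm_num
    · simp only [dif_neg h]
      rw [pow_succ, pow_mul, hneg ω h]
      norm_num

end Pool.Agent.P.MP_9ca318_co.BL
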