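import Pool.Agent.P.MP_9ca318_co.BL.TFIN
import Pool.Agent.P.MP_9ca318_co.BL.TRZ
import Pool.Agent.P.MP_9ca318_co.BL.TRELU
import Pool.Agent.P.MP_9ca318_co.BL.TDENS
import Pool.Agent.P.MP_9ca318_co.BL.TAPPROX
import Pool.Agent.P.MP_9ca318_co.BL.TGATE
import Pool.Agent.P.MP_9ca318_co.BL.TIMP
import Pool.Agent.P.MP_9ca318_co.BL.TSUS
import Pool.Agent.P.MP_9ca318_co.BL.TPA
import Pool.Agent.P.MP_9ca318_co.BL.TPB
import Pool.Agent.P.MP_9ca318_co.BL.TSIG
import Pool.Agent.P.MP_9ca318_co.BL.TT1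
import Pool.Agent.P.MP_9ca318_co.BL.TT2
import Pool.Agent.P.MP_9ca318_co.BL.TG14
import Pool.Agent.P.MP_9ca318_co.BL.TG23
import Pool.Agent.P.MP_9ca318_co.BL.TG5
import Pool.Agent.P.MP_9ca318_co.BL.TG6
import Pool.Agent.P.MP_9ca318_co.BL.TGEN
import Pool.Agent.P.MP_9ca318_co.BL.TGAM
import Pool.Agent.P.MP_9ca318_co.BL.TBANDS
import Pool.Agent.P.MP_9ca318_co.BL.TWT1
import Pool.Agent.P.MP_9ca318_co.BL.TWT2
import Pool.Agent.P.MP_9ca318_co.BL.TPROD
import Pool.Agent.P.MP_9ca318_co.BL.TLOOP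
import Pool.Agent.P.MP_9ca318_co.BL.TBAND
import Pool.Agent.P.MP_9ca318_co.BL.TUSC
import Pool.Agent.P.MP_9ca318_co.BL.TCHART
import Pool.Agent.P.MP_9ca318_co.BL.TZIG
import Pool.Agent.P.MP_9ca318_co.BL.TEMB
import Pool.Agent.P.MP_9ca318_co.BL.TTUBE
import Pool.Agent.P.MP_9ca318_co.BL.TBR
import Pool.Agent.P.MP_9ca318_co.BL.TLS1
import Pool.Agent.P.MP_9ca318_co.BL.TLS
import Pool.Agent.P.MP_9ca318_co.BL.TCOC
import Pool.Agent.P.MP_9ca318_co.BL.TPFUN
import Pool.Agent.P.MP_9ca318_co.BL.TONE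
import Pool.Agent.P.MP_9ca318_co.BL.TSYS

/-! The counterexample with explicit number of parts. -/

set_option autoImplicit false

namespace Pool.Agent.P.MP_9ca318_co.BL

open Finset TFINA

/-- There is a colouring configuration with classes of size `r` without `r` disjoint rainbow sets
whose convex hulls meet. -/
def Expl (r : ℕ) : Prop :=
  ∃ d : ℕ, 0 < d ∧ ∃ C : Fin (d + 1) → Finset (EuclideanSpace ℝ (Fin d)),
    Pairwise (fun i j => Disjoint (C i) (C j)) ∧ (∀ i, (C i).card = r) ∧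
    ¬ ∃ f : Fin r → Fin (d + 1) → EuclideanSpace ℝ (Fin d),
      (∀ j i, f j i ∈ C i) ∧
      Function.Injective (fun p : Fin r × Fin (d + 1) => f p.1 p.2) ∧
      ∃ x : EuclideanSpace ℝ (Fin d), ∀ j, x ∈ convexHull ℝ (Set.range (f j))

theorem fin_expl (r : ℕ) (ι : Type) [Fintype ι] (A : Type) [NormedAddCommGroup A] [NormedSpace ℝ A]
    [FiniteDimensional ℝ A] (h2 : 2 ≤ Fintype.card ι) (hA : Module.finrank ℝ A < Fintype.card ι)
    (hcex : AffCex r ι A) : Expl r := by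
  classical
  obtain ⟨f, hf⟩ := hcex
  obtain ⟨d, hd⟩ : ∃ d, Fintype.card ι = d + 1 := ⟨Fintype.card ι - 1, by omega⟩
  have hd1 : 0 < d := by omega
  let e : ι ≃ Fin (d + 1) := Fintype.equivFinOfCardEq hd
  obtain ⟨J, hJ⟩ := (finrank_le_iff_exists_linearMap (R := ℝ) (M := A)
    (M' := EuclideanSpace ℝ (Fin d))).1 (by rw [finrank_euclideanSpace_fin]; omega)
  let g : (ι → Fin r → ℝ) →ₗ[ℝ] EuclideanSpace ℝ (Fin d) := J ∘ₗ f
  obtain ⟨η, hη, hm⟩ := margin (r := r) (fun x => g x) g.continuous_of_finiteDimensional (fun y hy => by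
    obtain ⟨c, c', hne⟩ := hf y hy
    exact ⟨c, c', fun h => hne (hJ h)⟩)
  let K : ℕ := Fintype.card (ι × Fin r)
  let k : ι × Fin r → ℝ := fun a => ((Fintype.equivFin (ι × Fin r) a : ℕ) : ℝ)
  have hk : Function.Injective k := fun a b h =>
    (Fintype.equivFin (ι × Fin r)).injective (Fin.ext (Nat.cast_injective (R := ℝ) h))
  have hk0 : ∀ a, 0 ≤ k a := fun a => Nat.cast_nonneg _
  have hkK : ∀ a, k a ≤ K := fun a => by
    have := (Fintype.equivFin (ι × Fin r) a).2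
    exact Nat.cast_le.2 this.le
  let e0 : EuclideanSpace ℝ (Fin d) := EuclideanSpace.single ⟨0, hd1⟩ 1
  have hn0 : ‖e0‖ = 1 := by simp [e0]
  have he0 : e0 ≠ 0 := by intro h; rw [h, norm_zero] at hn0; exact zero_ne_one hn0
  let q : ι × Fin r → EuclideanSpace ℝ (Fin d) := fun a => g (Pi.single a.1 (Pi.single a.2 1))
  have hK1 : (0 : ℝ) < K + 1 := by positivity
  obtain ⟨t, ht0, ht1, hinj⟩ := exists_param q k hk e0 he0 (η / (K + 1)) (div_pos hη hK1)
  let p : ι × Fin r → EuclideanSpace ℝ (Fin d) := fun a => q a + (t * k a) • e0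
  have hp : Function.Injective p := hinj
  let C : Fin (d + 1) → Finset (EuclideanSpace ℝ (Fin d)) :=
    fun j => univ.image (fun i => p (e.symm j, i))
  refine ⟨d, hd1, C, (fun j j' hne => by
      refine Finset.disjoint_left.2 ?_
      intro a ha ha'
      obtain ⟨i, -, rfl⟩ := Finset.mem_image.1 ha
      obtain ⟨i', -, h⟩ := Finset.mem_image.1 ha'
      exact hne (e.symm.injective (congrArg Prod.fst (hp h))).symm),
    (fun j => by
      rw [Finset.card_image_of_injective _ (fun i i' h => congrArg Prod.snd (hp h))]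
      simp), ?_⟩
  rintro ⟨F, hFC, hFinj, x, hx⟩
  have hρ : ∀ c (j : ι), ∃ i, p (j, i) = F c (e j) := fun c j => by
    obtain ⟨i, -, h⟩ := Finset.mem_image.1 (hFC c (e j))
    exact ⟨i, by simpa using h⟩
  choose ρ hρ using hρ
  choose w hw0 hw1 hwx using fun c => weights (F c) x (hx c)
  let y : Fin r → ι → Fin r → ℝ := fun c j i => if i = ρ c j then w c (e j) else 0
  have hw1' : ∀ c, ∑ j, w c (e j) = 1 := fun c => by rw [← hw1 c]; exact e.sum_comp (w c)
  have hy : Tup y := by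
    refine ⟨⟨fun c j i => ?_, fun c j i i' h h' => ?_, fun c c' j i h h' => ?_⟩, fun c => ?_⟩
    · simp only [y]; split_ifs; exacts [hw0 _ _, le_rfl]
    · have h1 : i = ρ c j := by by_contra h0; exact h (if_neg h0)
      have h2 : i' = ρ c j := by by_contra h0; exact h' (if_neg h0)
      rw [h1, h2]
    · have h1 : i = ρ c j := by by_contra h0; exact h (if_neg h0)
      have h2 : i = ρ c' j := by by_contra h0; exact h' (if_neg h0)
      have h3 : F c (e j) = F c' (e j) := by rw [← hρ, ← hρ, ← h1, ← h2]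
      exact congrArg Prod.fst (hFinj (a₁ := (c, e j)) (a₂ := (c', e j)) h3)
    · rw [← hw1' c]
      simp [tot, y]
  have hyd : ∀ c, y c = ∑ j, w c (e j) • (Pi.single j (Pi.single (ρ c j) (1 : ℝ)) : ι → Fin r → ℝ) := by
    intro c
    funext j i
    simp only [y, Finset.sum_apply, Pi.smul_apply, smul_eq_mul]
    rw [Finset.sum_eq_single j]
    · simp [Pi.single_apply]
    · intro j' _ hne
      simp [Pi.single_eq_of_ne hne.symm]
    · intro h; exact absurd (Finset.mem_univ _) h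
  let s : Fin r → ℝ := fun c => ∑ j, w c (e j) * k (j, ρ c j)
  have hs0 : ∀ c, 0 ≤ s c := fun c => Finset.sum_nonneg fun j _ => mul_nonneg (hw0 _ _) (hk0 _)
  have hsK : ∀ c, s c ≤ K := fun c => by
    calc s c ≤ ∑ j, w c (e j) * K :=
          Finset.sum_le_sum fun j _ => mul_le_mul_of_nonneg_left (hkK _) (hw0 _ _)
      _ = K := by rw [← Finset.sum_mul, hw1', one_mul]
  have hg : ∀ c, g (y c) = x - (t * s c) • e0 := by
    intro c
    have h1 : x = ∑ j, w c (e j) • p (j, ρ c j) := by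
      rw [← hwx c, ← e.sum_comp (fun j => w c j • F c j)]
      exact Finset.sum_congr rfl fun j _ => by rw [hρ]
    have h2 : (t * s c) • e0 = ∑ j, w c (e j) • ((t * k (j, ρ c j)) • e0) := by
      simp only [s, Finset.mul_sum, Finset.sum_smul, smul_smul]
      exact Finset.sum_congr rfl fun j _ => by congr 1; ring
    rw [hyd c, map_sum, h2]
    conv_rhs => rw [h1]
    rw [← Finset.sum_sub_distrib]
    refine Finset.sum_congr rfl fun j _ => ?_
    rw [map_smul]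
    simp only [p, q, smul_add, add_sub_cancel_right]
  obtain ⟨c, c', hc⟩ := hm y hy
  rw [hg, hg] at hc
  have h3 : x - (t * s c) • e0 - (x - (t * s c') • e0) = (t * (s c' - s c)) • e0 := by module
  rw [h3, norm_smul, hn0, mul_one, Real.norm_eq_abs, abs_mul, abs_of_pos ht0] at hc
  have h4 : |s c' - s c| ≤ K := abs_le.2 ⟨by linarith [hs0 c', hsK c], by linarith [hs0 c, hsK c']⟩
  have h5 : t * (K + 1) < η := (lt_div_iff₀ hK1).1 ht1
  nlinarith [mul_le_mul_of_nonneg_left h4 ht0.le]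

theorem glue_expl (hGATE : S_GATE) (hIMP : S_IMP) (hSUS : S_SUS) (hTRANS : S_TRANS)
    (hPA : S_PA) (hSIGC : S_SIGC) (hT1 : S_T1) (hT2 : S_T2) (hGEN : S_GEN) (hGAM : S_GAM)
    (hBANDS : S_BANDS) (hWT1 : S_WT1) (hWT2 : S_WT2) (hSYS : S_SYS) (hASM : S_ASM) :
    Expl 91 := by
  obtain ⟨u, hu⟩ := hSYS 91 273 274 (by norm_num)
  obtain ⟨i, hi⟩ : ∃ i, i = 1000 * (u + 1) := ⟨_, rfl⟩
  obtain ⟨n, hn⟩ : ∃ n, n = 91 * i + 1 := ⟨_, rfl⟩
  obtain ⟨D, hD⟩ : ∃ D, D + u + 2 = 3 * n := ⟨3 * n - (u + 2), by omega⟩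
  obtain ⟨f, hf⟩ := hGEN (Fin n × Wd) D 274
  have hψ : Continuous (psi : (Fin n × Fin 3 → Fin 91 → ℝ) → Fin n × Wd → ℝ) := by
    refine continuous_pi fun p => ?_
    exact (continuous_apply p.2).comp (hPA.1.comp (continuous_pi fun j => continuous_apply (p.1, j)))
  obtain ⟨hb1, hb2, hb3⟩ := hBANDS u i n D f hi.ge hn hD hf
  have hK : IsCompact ((fun (y : Fin 91 → Fin n × Fin 3 → Fin 91 → ℝ) c => psi (y c)) ''
      {y | Tup y ∧ (∀ c, psi (y c) ∈ Sig n (i + 1)) ∧ ∀ c c', f (psi (y c)) = f (psi (y c'))}) := by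
    refine IsCompact.image ?_ (continuous_pi fun c => hψ.comp (continuous_apply c))
    have e : {y : Fin 91 → Fin n × Fin 3 → Fin 91 → ℝ | Tup y ∧ (∀ c, psi (y c) ∈ Sig n (i + 1)) ∧
        ∀ c c', f (psi (y c)) = f (psi (y c'))} = {y | Tup y} ∩
        ((⋂ c, (fun y => psi (y c)) ⁻¹' Sig n (i + 1)) ∩
          ⋂ c, ⋂ c', {y | f (psi (y c)) = f (psi (y c'))}) := by
      ext y; simp
    rw [e]
    refine isCompact_tup.inter_right (IsClosed.inter ?_ ?_)
    · exact isClosed_iInter fun c => (hSIGC n (i + 1)).1.preimage (hψ.comp (continuous_apply c))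
    · exact isClosed_iInter fun c => isClosed_iInter fun c' =>
        isClosed_eq (hf.1.comp (hψ.comp (continuous_apply c))) (hf.1.comp (hψ.comp (continuous_apply c')))
  have hPP := hu (Fin n × Wd → ℝ) (Fin D → ℝ) f (Sig n (i + 1)) Cmp (fun x => sp x / (i - u)) _
    hf.1 (hSIGC n (i + 1)).2 hb1 hb2 hb3
    (fun m x z hx hxz => by
      have hG := hGAM u i n D f hi.ge hn hD hf m x z hx hxz
      exact ⟨hG.1, hWT2 91 m _ fun p P hp hP hA => hWT1 m _ p P hG hp hP hA⟩)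
    hK (by
      rintro w ⟨y, ⟨hy1, hy2, hy3⟩, rfl⟩
      exact ⟨hy2, hy3, (hT2 n y hy1).1, (hT2 n y hy1).2⟩)
  obtain ⟨μ, υ, i1, i2, hυ, hS⟩ := hASM 91 (Fin n × Fin 3) (Fin n × Wd → ℝ) (Fin D → ℝ) psi f
    (Sig n (i + 1)) u hψ hf.1 (hSIGC n (i + 1)).1 (fun y hy => hT1 i n y hn hy) hPP
  have h1 := hSUS 91 _ _ μ (by norm_num) hS
  have h2 := hTRANS 91 _ _ h1
  have h3 := hIMP 91 _ _ (by norm_num) h2
  obtain ⟨σ, i3, h4⟩ := hGATE 91 _ _ (by norm_num) h3
  refine fin_expl 91 _ _ ?_ ?_ h4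
  · simp only [Fintype.card_sum, Fintype.card_prod, Fintype.card_fin]
    omega
  · simp only [Module.finrank_prod, Module.finrank_fintype_fun_eq_card, Module.finrank_self,
      Fintype.card_sum, Fintype.card_prod, Fintype.card_fin]
    omega

theorem expl91 : Expl 91 :=
  glue_expl (s_gate (s_approx s_rzlin s_rzadd s_rzmap s_relu s_dens)) s_imp s_sus s_trans
    s_pa s_sigc (s_t1 s_pa s_pb) (s_t2 s_pa s_pb s_pc) (s_gen s_g1 (s_g5 s_g2 s_g3 s_g4) s_g6)
    (s_gam s_supp) (s_bands s_supp) s_wt1 s_wt2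
    (s_sys (s_loop s_prod) s_band (s_sys1 (s_loop2 (s_loop s_prod)) s_usc s_rank
      (s_one (s_chart s_usc s_rank) (s_coc (s_ls (s_ls1 s_num s_emb s_zig s_tube s_br))) s_pfun)))
    s_asm

end Pool.Agent.P.MP_9ca318_co.BL
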