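import Pool.Agent.P.MP_9ca318_co.BL.Iface

/-! The top level assembly. -/

set_option autoImplicit false

namespace Pool.Agent.P.MP_9ca318_co.BL

open Finset

theorem glue (hFIN : S_FIN) (hGATE : S_GATE) (hIMP : S_IMP) (hSUS : S_SUS) (hTRANS : S_TRANS)
    (hPA : S_PA) (hSIGC : S_SIGC) (hT1 : S_T1) (hT2 : S_T2) (hGEN : S_GEN) (hGAM : S_GAM)
    (hBANDS : S_BANDS) (hWT1 : S_WT1) (hWT2 : S_WT2) (hSYS : S_SYS) (hASM : S_ASM) :
    ¬ (∀ (r d : ℕ) (C : Fin (d + 1) → Finset (EuclideanSpace ℝ (Fin d))),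
      Pairwise (fun i j => Disjoint (C i) (C j)) →
      (∀ i, r ≤ (C i).card) →
      ∃ f : Fin r → Fin (d + 1) → EuclideanSpace ℝ (Fin d),
        (∀ j i, f j i ∈ C i) ∧
        Function.Injective (fun p : Fin r × Fin (d + 1) => f p.1 p.2) ∧
        ∃ x : EuclideanSpace ℝ (Fin d), ∀ j, x ∈ convexHull ℝ (Set.range (f j))) := by
  obtain ⟨u, hu⟩ := hSYS 91 273 274 (by norm_num)
  obtain ⟨i, hi⟩ : ∃ i, i = 1000 * (u + 1) := ⟨_, rfl⟩
  obtain ⟨n, hn⟩ : ∃ n, n = 91 * i + 1 := ⟨_, rfl⟩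
  obtain ⟨D, hD⟩ : ∃ D, D + u + 2 = 3 * n := ⟨3 * n - (u + 2), by omega⟩
  obtain ⟨f, hf⟩ := hGEN (Fin n × Wd) D 274
  have hψ : Continuous (psi : (Fin n × Fin 3 → Fin 91 → ℝ) → Fin n × Wd → ℝ) := by
    refine continuous_pi fun p => ?_
    exact (continuous_apply p.2).comp (hPA.1.comp (continuous_pi fun j => continuous_apply (p.1, j)))
  obtain ⟨hb1, hb2, hb3⟩ := hBANDS u i n D f hi.ge hn hD hf
  have hK : IsCompact ((fun (y : Fin 91 → Fin n × Fin 3 → Fin 91 → ℝ) c => psi (y c)) ''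
      {y | Tup y ∧ (∀ c, psi (y c) ∈ Sig n (i + 1)) ∧ ∀ c c', f (psi (y c)) = f (psi (y c'))}) := by
    refine IsCompact.image ?_ (continuous_pi fun c => hψ.comp (continuous_apply c))
    have e : {y : Fin 91 → Fin n × Fin 3 → Fin 91 → ℝ | Tup y ∧ (∀ c, psi (y c) ∈ Sig n (i + 1)) ∧
        ∀ c c', f (psi (y c)) = f (psi (y c'))} = {y | Tup y} ∩
        ((⋂ c, (fun y => psi (y c)) ⁻¹' Sig n (i + 1)) ∩
          ⋂ c, ⋂ c', {y | f (psi (y c)) = f (psi (y c'))}) := by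
      ext y; simp
    rw [e]
    refine isCompact_tup.inter_right (IsClosed.inter ?_ ?_)
    · exact isClosed_iInter fun c => (hSIGC n (i + 1)).1.preimage (hψ.comp (continuous_apply c))
    · exact isClosed_iInter fun c => isClosed_iInter fun c' =>
        isClosed_eq (hf.1.comp (hψ.comp (continuous_apply c))) (hf.1.comp (hψ.comp (continuous_apply c')))
  have hPP := hu (Fin n × Wd → ℝ) (Fin D → ℝ) f (Sig n (i + 1)) Cmp (fun x => sp x / (i - u)) _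
    hf.1 (hSIGC n (i + 1)).2 hb1 hb2 hb3
    (fun m x z hx hxz => by
      have hG := hGAM u i n D f hi.ge hn hD hf m x z hx hxz
      exact ⟨hG.1, hWT2 91 m _ fun p P hp hP hA => hWT1 m _ p P hG hp hP hA⟩)
    hK (by
      rintro w ⟨y, ⟨hy1, hy2, hy3⟩, rfl⟩
      exact ⟨hy2, hy3, (hT2 n y hy1).1, (hT2 n y hy1).2⟩)
  obtain ⟨μ, υ, i1, i2, hυ, hS⟩ := hASM 91 (Fin n × Fin 3) (Fin n × Wd → ℝ) (Fin D → ℝ) psi f
    (Sig n (i + 1)) u hψ hf.1 (hSIGC n (i + 1)).1 (fun y hy => hT1 i n y hn hy) hPP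
  have h1 := hSUS 91 _ _ μ (by norm_num) hS
  have h2 := hTRANS 91 _ _ h1
  have h3 := hIMP 91 _ _ (by norm_num) h2
  obtain ⟨σ, i3, h4⟩ := hGATE 91 _ _ (by norm_num) h3
  refine hFIN 91 _ _ ?_ ?_ h4
  · simp only [Fintype.card_sum, Fintype.card_prod, Fintype.card_fin]
    omega
  · simp only [Module.finrank_prod, Module.finrank_fintype_fun_eq_card, Module.finrank_self,
      Fintype.card_sum, Fintype.card_prod, Fintype.card_fin]
    omega

end Pool.Agent.P.MP_9ca318_co.BL
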