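import Pool.Agent.P.MP_9ca318_co.BL.Defs

/-! Statements of the steps of the disproof of the colourful Tverberg conjecture of Barany and Larman. -/

set_option autoImplicit false

namespace Pool.Agent.P.MP_9ca318_co.BL

open Finset

/-! ### From a linear counterexample to point sets -/

def S_FIN : Prop :=
  ∀ (r : ℕ) (ι : Type) [Fintype ι] (A : Type) [NormedAddCommGroup A] [NormedSpace ℝ A]
    [FiniteDimensional ℝ A], 2 ≤ Fintype.card ι → Module.finrank ℝ A < Fintype.card ι → AffCex r ι A →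
    ¬ (∀ (r d : ℕ) (C : Fin (d + 1) → Finset (EuclideanSpace ℝ (Fin d))),
      Pairwise (fun i j => Disjoint (C i) (C j)) →
      (∀ i, r ≤ (C i).card) →
      ∃ f : Fin r → Fin (d + 1) → EuclideanSpace ℝ (Fin d),
        (∀ j i, f j i ∈ C i) ∧
        Function.Injective (fun p : Fin r × Fin (d + 1) => f p.1 p.2) ∧
        ∃ x : EuclideanSpace ℝ (Fin d), ∀ j, x ∈ convexHull ℝ (Set.range (f j)))

/-! ### Gates -/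

def S_RZLIN : Prop :=
  ∀ (r : ℕ) (ι : Type) [Fintype ι] (E : Type) [NormedAddCommGroup E] [NormedSpace ℝ E]
    (L : (ι → Fin r → ℝ) →ₗ[ℝ] E), Realz (fun x => L x)

def S_RZADD : Prop :=
  ∀ (r : ℕ) (ι : Type) [Fintype ι] (E : Type) [NormedAddCommGroup E] [NormedSpace ℝ E]
    (g g' : (ι → Fin r → ℝ) → E), Realz g → Realz g' → Realz (fun x => g x + g' x)

def S_RZMAP : Prop :=
  ∀ (r : ℕ) (ι : Type) [Fintype ι] (E : Type) [NormedAddCommGroup E] [NormedSpace ℝ E]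
    (E' : Type) [NormedAddCommGroup E'] [NormedSpace ℝ E'] (T : E →L[ℝ] E')
    (g : (ι → Fin r → ℝ) → E), Realz g → Realz (fun x => T (g x))

def S_RELU : Prop :=
  ∀ (r : ℕ) (ι : Type) [Fintype ι] (g : (ι → Fin r → ℝ) → ℝ) (j : ι) (i : Fin r) (j' : ι) (i' : Fin r),
    4 ≤ r → Realz g →
    (∀ x, (∀ k l, 0 ≤ x k l) → 0 < g x → 0 < x j i) →
    (∀ x, (∀ k l, 0 ≤ x k l) → g x < 0 → 0 < x j' i') → Realz (fun x => max (g x) 0)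

def S_DENS : Prop :=
  ∀ (r : ℕ) (ι : Type) [Fintype ι] (f : (ι → Fin r → ℝ) → ℝ) (ε : ℝ), Continuous f → 0 < ε →
    ∃ g : (ι → Fin r → ℝ) → ℝ, Net g ∧ ∀ x, (∀ j i, 0 ≤ x j i) → tot x = 1 → |g x - f x| ≤ ε

/-- A realised homogeneous approximation of a continuous map. -/
def S_APPROX : Prop :=
  ∀ (r : ℕ) (ι : Type) [Fintype ι] (A : Type) [NormedAddCommGroup A] [NormedSpace ℝ A]
    [FiniteDimensional ℝ A] (f : (ι → Fin r → ℝ) → A) (ε : ℝ), 4 ≤ r → Continuous f → 0 < ε →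
    ∃ F : (ι → Fin r → ℝ) → A, Realz F ∧ (∀ (t : ℝ) x, 0 ≤ t → F (t • x) = t • F x) ∧
      ∀ x, (∀ j i, 0 ≤ x j i) → tot x = 1 → ‖F x - f x‖ ≤ ε

def S_GATE : Prop :=
  ∀ (r : ℕ) (ι : Type) [Fintype ι] (A : Type) [NormedAddCommGroup A] [NormedSpace ℝ A]
    [FiniteDimensional ℝ A], 4 ≤ r → TopCex r ι A →
    ∃ (σ : Type) (_ : Fintype σ), AffCex r (ι ⊕ σ) (A × (σ → ℝ))

/-! ### Implicit counterexamples -/

def S_IMP : Prop :=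
  ∀ (r : ℕ) (ι : Type) [Fintype ι] (E : Type) [Fintype E], 4 ≤ r → ImpCex r ι (E → ℝ) →
    TopCex r (ι ⊕ (ι × Fin r × E)) (((ι × Fin r × E) → ℝ) × (E → ℝ))

def S_SUS : Prop :=
  ∀ (r : ℕ) (ι : Type) [Fintype ι] (A : Type) [NormedAddCommGroup A] (μ : Type) [Fintype μ],
    4 ≤ r → SusCex r ι A μ → ImpCex r (ι ⊕ μ) (A × (μ → ℝ))

def S_TRANS : Prop :=
  ∀ (r : ℕ) (ι : Type) [Fintype ι] (A : Type) [NormedAddCommGroup A] [NormedSpace ℝ A]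
    [FiniteDimensional ℝ A], ImpCex r ι A → ImpCex r ι (Fin (Module.finrank ℝ A) → ℝ)

/-! ### Blocks -/

def S_PA : Prop :=
  Continuous psiB ∧ ∀ v, BlockOK v →
    ((∑ j, ∑ i, v j i) ≤ 1 → ∀ w, 0 ≤ psiB v w ∧ psiB v w ≤ 1) ∧
    (∀ p p', psiB v (.inr (.inl p)) ≠ 0 → psiB v (.inr (.inl p')) ≠ 0 → p = p') ∧
    (∀ p, psiB v (.inr (.inl p)) ≠ 0 → v p.1 p.2 ≠ 0) ∧
    (∀ τ, psiB v (.inr (.inr τ)) ≠ 0 → odd3 (fun j => ty (τ j)) = false ∧ ∀ j, v j (τ j) ≠ 0)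

def S_PB : Prop :=
  ∀ v, BlockOK v →
    (∀ e e', psiB v (.inl e) ≠ 0 → psiB v (.inl e') ≠ 0 → e = e') ∧
    (∀ e, psiB v (.inl e) ≠ 0 → ∃ j j' i i', j ≠ j' ∧ ty i = e j ∧ ty i' = e j' ∧ v j i ≠ 0 ∧ v j' i' ≠ 0)

def S_PC : Prop := ∀ v, BlockOK v → v ≠ 0 → psiB v ≠ 0

def S_SIGC : Prop :=
  ∀ n k : ℕ, IsClosed (Sig n k) ∧
    IsClosed {q : (Fin n × Wd → ℝ) × (Fin n × Wd → ℝ) | Cmp q.1 q.2}

def S_SUPP : Prop :=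
  ∀ (n k : ℕ) (x : Fin n × Wd → ℝ), x ∈ Sig n k →
    (∀ s : Finset (Fin n), (∀ b ∈ s, NoH x b) → sp x + s.card ≤ 3 * n) ∧ (Cmp x x → sp x ≤ n)

def S_T1 : Prop :=
  ∀ (i n : ℕ) (y : Fin 91 → Fin n × Fin 3 → Fin 91 → ℝ), n = 91 * i + 1 → Tup y →
    ∃ c, psi (y c) ∈ Sig n (i + 1)

def S_T2 : Prop :=
  ∀ (n : ℕ) (y : Fin 91 → Fin n × Fin 3 → Fin 91 → ℝ), Tup y →
    (∀ c c', c ≠ c' → Cmp (psi (y c)) (psi (y c'))) ∧ ∃ c c', psi (y c) ≠ psi (y c')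

/-! ### Generic maps -/

def S_G1 : Prop := ∀ (J : Type) [Fintype J], ∃ G : J → ℝ, AlgebraicIndependent ℚ G

/-- Monomials of degree at most `Q` in each variable separate `Q + 1` points. -/
def S_G2 : Prop :=
  ∀ (V : Type) [Fintype V] (Q : ℕ) (S : Finset (V → ℝ)) (c : (V → ℝ) → ℝ), S.card ≤ Q + 1 →
    (∀ α : V → Fin (Q + 1), ∑ x ∈ S, c x * ∏ v, x v ^ (α v).val = 0) → ∀ x ∈ S, c x = 0

/-- A matrix with independent rows has an invertible maximal minor. -/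
def S_G3 : Prop :=
  ∀ (m : ℕ) (J : Type) (M : Fin m → J → ℝ),
    (∀ c : Fin m → ℝ, (∀ α, ∑ e, c e * M e α = 0) → c = 0) →
    ∃ T : Fin m → J, Function.Injective T ∧ (Matrix.of fun e k => M e (T k)).det ≠ 0

/-- Counting by transcendence degree. -/
def S_G4 : Prop :=
  ∀ (J : Type) [Fintype J] (G : J → ℝ) (S : Finset ℝ), AlgebraicIndependent ℚ G →
    (∀ j, ∃ a b : ℝ, a ∈ Algebra.adjoin ℚ (S : Set ℝ) ∧ b ∈ Algebra.adjoin ℚ (S : Set ℝ) ∧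
      a ≠ 0 ∧ a * G j = b) → Fintype.card J ≤ S.card

open Classical in
/-- Multiple points of a polynomial map with independent coefficients. -/
def S_G5 : Prop :=
  ∀ (V : Type) [Fintype V] (D Q : ℕ) (L : Fin D → V → ℚ) (ε : ℚ) (G : Fin D × (V → Fin (Q + 1)) → ℝ),
    ε ≠ 0 → AlgebraicIndependent ℚ G →
    ∀ (S : Finset (V → ℝ)) (z : Fin D → ℝ), S.card ≤ Q + 1 →
      (∀ x ∈ S, ∀ s, ∑ v, (L s v : ℝ) * x v + (ε : ℝ) * ∑ α, G (s, α) * ∏ v, x v ^ (α v).val = z s) →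
      D * S.card ≤ ∑ x ∈ S, sp x + D

/-- A rational linear map bounded below on vectors of small support. -/
def S_G6 : Prop :=
  ∀ (V : Type) [Fintype V] (D : ℕ), ∃ (L : Fin D → V → ℚ) (c : ℝ), 0 < c ∧
    ∀ x : V → ℝ, sp x ≤ D → c * ‖x‖ ≤ ‖fun s => ∑ v, (L s v : ℝ) * x v‖

def S_GEN : Prop := ∀ (V : Type) [Fintype V] (D Q : ℕ), ∃ f : (V → ℝ) → Fin D → ℝ, GenOK D Q f

def S_GAM : Prop :=
  ∀ (u i n D : ℕ) (f : (Fin n × Wd → ℝ) → Fin D → ℝ), 1000 * (u + 1) ≤ i → n = 91 * i + 1 →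
    D + u + 2 = 3 * n → GenOK D 274 f →
    ∀ (m : ℕ) (x : Fin m → Fin n × Wd → ℝ) (z : Fin D → ℝ), Function.Injective x →
      (∀ a, x a ∈ Sig n (i + 1) ∧ f (x a) = z) → Gam (fun a b => Cmp (x a) (x b))

def S_BANDS : Prop :=
  ∀ (u i n D : ℕ) (f : (Fin n × Wd → ℝ) → Fin D → ℝ), 1000 * (u + 1) ≤ i → n = 91 * i + 1 →
    D + u + 2 = 3 * n → GenOK D 274 f →
    (∀ b, IsClosed {x : Fin n × Wd → ℝ | sp x / (i - u) ≤ b}) ∧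
    (∀ x ∈ Sig n (i + 1), sp x / (i - u) ≤ 274) ∧
    ∀ x ∈ Sig n (i + 1), ∃ ε : ℝ, 0 < ε ∧ ∀ x' ∈ Sig n (i + 1), ∀ x'' ∈ Sig n (i + 1),
      dist x' x < ε → dist x'' x < ε → sp x' / (i - u) = sp x / (i - u) →
      sp x'' / (i - u) = sp x / (i - u) → f x' = f x'' → x' = x''

/-! ### Weights on labelings -/

/-- Clique and coclique bound in an orbit. -/
def S_CC : Prop :=
  ∀ (m : ℕ) (P : Subgroup (Equiv.Perm (Fin m))) (O K I : Finset (Fin m)),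
    (∀ a ∈ O, ∀ b ∈ O, ∃ g ∈ P, g a = b) → (∀ a ∈ O, ∀ g ∈ P, g a ∈ O) → K ⊆ O → I ⊆ O →
    (∀ g ∈ P, ∀ a ∈ K, ∀ b ∈ K, g a ∈ I → g b ∈ I → a = b) → K.card * I.card ≤ O.card

def S_WT1 : Prop :=
  ∀ (m : ℕ) (G0 : Fin m → Fin m → Prop) (p : ℕ) (P : Subgroup (Equiv.Perm (Fin m))),
    Gam G0 → p.Prime → IsPGroup p P → (∀ g ∈ P, ∀ a b, G0 (g a) (g b) ↔ G0 a b) →
    ∃ l : Fin m → Fin m, Adm 91 G0 l ∧ ∀ g ∈ P, l ∘ g = l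

def S_WT2 : Prop :=
  ∀ (r m : ℕ) (G0 : Fin m → Fin m → Prop),
    (∀ (p : ℕ) (P : Subgroup (Equiv.Perm (Fin m))), p.Prime → IsPGroup p P →
      (∀ g ∈ P, ∀ a b, G0 (g a) (g b) ↔ G0 a b) → ∃ l : Fin m → Fin m, Adm r G0 l ∧ ∀ g ∈ P, l ∘ g = l) →
    HasW r G0

/-! ### Separating systems -/

def S_PROD : Prop :=
  ∀ (X Y : Type) [MetricSpace X] [MetricSpace Y] (r : ℕ) (f : X → Y) (u u' : ℕ)
    (K K' : Set (Fin r → X)), 0 < r → Continuous f → IsCompact K → PP f u K' →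
    (∀ L : Set (Fin r → X), IsCompact L → L ⊆ K \ K' → PP f u' L) → PP f (u + u') K

def S_LOOP : Prop :=
  ∀ (X Y : Type) [MetricSpace X] [MetricSpace Y] (r : ℕ) (f : X → Y) (u N : ℕ)
    (K : Set (Fin r → X)) (Φ : (Fin r → X) → ℕ), 0 < r → Continuous f → IsCompact K →
    (∀ w ∈ K, Φ w < N) → (∀ s, IsClosed {w | w ∈ K ∧ Φ w ≤ s}) →
    (∀ (s : ℕ) (L : Set (Fin r → X)), IsCompact L → (∀ w ∈ L, w ∈ K ∧ Φ w = s) → PP f u L) →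
    PP f (N * u) K

def S_LOOP2 : Prop :=
  ∀ (𝒯 : Type) [Fintype 𝒯] (ρ : 𝒯 → ℕ), ∃ N : ℕ,
    ∀ (X Y : Type) [MetricSpace X] [MetricSpace Y] (r : ℕ) (f : X → Y) (u : ℕ)
      (K : Set (Fin r → X)) (A : 𝒯 → Set (Fin r → X)), 0 < r → Continuous f → IsCompact K →
      (∀ w ∈ K, ∃ τ0, w ∈ A τ0 ∧ ∀ᶠ w' in nhdsWithin w K, ∀ τ, w' ∈ A τ → w ∈ A τ ∨ ρ τ < ρ τ0) →
      (∀ (τ : 𝒯) (L : Set (Fin r → X)), IsCompact L → L ⊆ K ∩ A τ → PP f u L) →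
      PP f (N * u) K

def S_BAND : Prop :=
  ∀ (X Y : Type) [MetricSpace X] (r : ℕ) (f : X → Y) (Sg : Set X) (band : X → ℕ) (s : ℕ)
    (L : Set (Fin r → X)), (∀ b, IsClosed {x | band x ≤ b}) →
    (∀ x ∈ Sg, ∃ ε : ℝ, 0 < ε ∧ ∀ x' ∈ Sg, ∀ x'' ∈ Sg, dist x' x < ε → dist x'' x < ε →
      band x' = band x → band x'' = band x → f x' = f x'' → x' = x'') →
    IsCompact L → (∀ w ∈ L, (∀ c, w c ∈ Sg) ∧ ∑ c, band (w c) = s) →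
    IsCompact {x | ∃ w ∈ L, ∃ c, w c = x} ∧ LocInj f {x | ∃ w ∈ L, ∃ c, w c = x}

def S_USC : Prop :=
  ∀ (X Y : Type) [MetricSpace X] [MetricSpace Y] (f : X → Y) (Q : Set X) (G : X → X → Prop)
    (z0 : Y) (m0 : ℕ) (x0 : Fin m0 → X) (ε : ℝ), Continuous f → IsCompact Q →
    IsClosed {q : X × X | G q.1 q.2} → LocInj f Q → (∀ a, x0 a ∈ Q) →
    (∀ y ∈ Q, f y = z0 → ∃ a, x0 a = y) → 0 < ε →
    ∃ δ : ℝ, 0 < δ ∧ ∀ z, dist z z0 < δ → ∀ (m : ℕ) (x : Fin m → X), Function.Injective x →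
      (∀ a, x a ∈ Q ∧ f (x a) = z) →
      ∃ j : Fin m → Fin m0, Function.Injective j ∧ (∀ a, dist (x a) (x0 (j a)) < ε) ∧
        ∀ a b, G (x a) (x b) → G (x0 (j a)) (x0 (j b))

def S_RANK : Prop :=
  ∀ (m m0 : ℕ) (G0 : Fin m → Fin m → Prop) (G1 : Fin m0 → Fin m0 → Prop) (j : Fin m → Fin m0),
    Function.Injective j → (∀ a b, G0 a b → G1 (j a) (j b)) →
    rk G0 < rk G1 ∨ (Function.Bijective j ∧ ∀ a b, G1 (j a) (j b) ↔ G0 a b)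

def S_CHART : Prop :=
  ∀ (X Y : Type) [MetricSpace X] [MetricSpace Y] (f : X → Y) (Q : Set X) (G : X → X → Prop)
    (Z : Set Y) (m : ℕ) (G0 : Fin m → Fin m → Prop), Continuous f → IsCompact Q →
    IsClosed {q : X × X | G q.1 q.2} → LocInj f Q → (∀ z ∈ Z, ∃ x, Frame f Q G z G0 x) →
    ∀ z0 ∈ Z, ∃ (U : Set Y) (x : Y → Fin m → X), IsOpen U ∧ z0 ∈ U ∧
      (∀ z ∈ Z, z ∈ U → Frame f Q G z G0 (x z)) ∧ ContinuousOn x (Z ∩ U)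

def S_ZIG : Prop :=
  ∀ k : ℕ, ∃ zig : ℝ → ℝ, Continuous zig ∧ (∀ η, |η - zig η| ≤ 2 * k) ∧
    (∀ a : ℕ, a ≤ 2 * k → ∀ η : ℝ, |η - a| ≤ 1 / 2 → zig η = (-1) ^ a * (η - a)) ∧
    ∀ η, zig η = 0 → ∃ a : ℕ, a ≤ 2 * k ∧ η = a

def S_NUM : Prop :=
  ∀ (Ω : Type) [Fintype Ω] (s : Ω → ℤ), (∀ ω, s ω = 1 ∨ s ω = -1) → ∑ ω, s ω = 1 →
    ∃ (k : ℕ) (a : Ω → ℕ), Function.Injective a ∧ (∀ ω, a ω ≤ 2 * k) ∧
      (∀ n, n ≤ 2 * k → ∃ ω, a ω = n) ∧ ∀ ω, (-1) ^ a ω = s ω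

def S_EMB : Prop :=
  ∀ (Y : Type) [MetricSpace Y] (T Ω : Type) [Fintype T] [Fintype Ω] (Z : Set Y) (U : T → Set Y)
    (g : T → T → Y → Ω → Ω) (a : Ω → ℕ), IsClosed Z → (∀ t, IsOpen (U t)) → (∀ z ∈ Z, ∃ t, z ∈ U t) →
    Cocy Z U g → Function.Injective a →
    ∃ (e : T → T → Ω → Y → (T → ℝ) × ℝ) (R : ℝ),
      (∀ k t ω, ContinuousOn (e k t ω) (Z ∩ U t)) ∧
      (∀ k t t' ω, ∀ z ∈ Z, z ∈ U t → z ∈ U t' → e k t' (g t t' z ω) z = e k t ω z) ∧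
      (∀ k t ω z, ‖e k t ω z‖ ≤ R) ∧
      (∀ k t ω ω', ∀ z ∈ Z, z ∈ U t → ω ≠ ω' → 1 / 2 ≤ dist (e k t ω z) (e k t ω' z)) ∧
      ∀ z ∈ Z, ∃ k, z ∈ U k ∧ ∀ ω, e k k ω z = (0, (a ω : ℝ))

def S_TUBE : Prop :=
  ∀ (Y : Type) [MetricSpace Y] (T Ω : Type) [Fintype Ω] (E : Type) [NormedAddCommGroup E]
    [NormedSpace ℝ E] [FiniteDimensional ℝ E] (Z : Set Y) (U : T → Set Y) (g : T → T → Y → Ω → Ω)
    (e : T → Ω → Y → E) (ρ : Ω → E →L[ℝ] E) (Ξ : E → E) (R0 : ℝ),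
    IsClosed Z → (∀ t, IsOpen (U t)) → (∀ z ∈ Z, ∃ t, z ∈ U t) → Cocy Z U g →
    (∀ t ω, ContinuousOn (e t ω) (Z ∩ U t)) →
    (∀ t t' ω, ∀ z ∈ Z, z ∈ U t → z ∈ U t' → e t' (g t t' z ω) z = e t ω z ∧ ρ (g t t' z ω) = ρ ω) →
    (∀ t ω z, ‖e t ω z‖ ≤ R0) →
    (∀ t ω ω', ∀ z ∈ Z, z ∈ U t → ω ≠ ω' → 1 / 2 ≤ dist (e t ω z) (e t ω' z)) →
    Continuous Ξ → (∀ ξ, ‖ξ - Ξ ξ‖ ≤ R0) →
    ∃ (φ : Y → E → E) (R : ℝ), Continuous (fun q : Y × E => φ q.1 q.2) ∧ (∀ z ξ, ‖φ z ξ‖ ≤ R) ∧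
      ∀ t, ∀ z ∈ Z, z ∈ U t → ∀ ξ,
        (∀ ω, dist ξ (e t ω z) ≤ 1 / 16 → ξ - φ z ξ = ρ ω (ξ - e t ω z)) ∧
        ((∀ ω, dist ξ (e t ω z) < 1 / 8 → ρ ω (ξ - e t ω z) = Ξ ξ) → ξ - φ z ξ = Ξ ξ)

def S_BR : Prop :=
  ∀ (Y P E : Type) [MetricSpace Y] [TopologicalSpace P] [MetricSpace E] (T F Ω : Type) [Fintype F]
    [Fintype Ω] [Nonempty Ω] (Z : Set Y) (U : T → Set Y) (g : T → T → Y → Ω → Ω)
    (e : F → T → Ω → Y → E) (π : F → P → E) (Fix : Set (Y × P)),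
    (∀ t, IsOpen (U t)) → Cocy Z U g → (∀ k, Continuous (π k)) → (∀ q ∈ Fix, q.1 ∈ Z) →
    (∀ k t ω, ContinuousOn (e k t ω) (Z ∩ U t)) →
    (∀ k t t' ω, ∀ z ∈ Z, z ∈ U t → z ∈ U t' → e k t' (g t t' z ω) z = e k t ω z) →
    (∀ k t ω ω', ∀ z ∈ Z, z ∈ U t → e k t ω z = e k t ω' z → ω = ω') →
    (∀ q ∈ Fix, ∀ k t ω, q.1 ∈ U t → dist (π k q.2) (e k t ω q.1) ≤ 1 / 16 → π k q.2 = e k t ω q.1) →
    (∀ q ∈ Fix, ∃ k t ω, q.1 ∈ U t ∧ π k q.2 = e k t ω q.1) →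
    ∃ β : T → Y × P → Ω, Branch U g Fix β

/-- Stable section of a signed finite cover of total degree one. -/
def S_LS1 : Prop :=
  ∀ (Y : Type) [MetricSpace Y] (T Ω : Type) [Fintype T] [Fintype Ω] (Z : Set Y) (U : T → Set Y)
    (g : T → T → Y → Ω → Ω) (s : Ω → ℤ), IsClosed Z → (∀ t, IsOpen (U t)) → (∀ z ∈ Z, ∃ t, z ∈ U t) →
    Cocy Z U g → (∀ ω, s ω = 1 ∨ s ω = -1) → ∑ ω, s ω = 1 →
    (∀ t t' ω, ∀ z ∈ Z, z ∈ U t → z ∈ U t' → s (g t t' z ω) = s ω) →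
    ∃ (μ : Type) (_ : Fintype μ) (φ : Y → (μ → ℝ) → (μ → ℝ)) (R : ℝ) (β : T → Y × (μ → ℝ) → Ω),
      Continuous (fun q : Y × (μ → ℝ) => φ q.1 q.2) ∧ (∀ z ζ, ‖φ z ζ‖ ≤ R) ∧
      Branch U g {q | q.1 ∈ Z ∧ φ q.1 q.2 = q.2} β

/-- Stable section of a finite cover with invariant integer weights of total one. -/
def S_LS : Prop :=
  ∀ (Y : Type) [MetricSpace Y] (T Ω : Type) [Fintype T] [Fintype Ω] (Z : Set Y) (U : T → Set Y)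
    (g : T → T → Y → Ω → Ω) (W : Ω → ℤ), IsClosed Z → (∀ t, IsOpen (U t)) → (∀ z ∈ Z, ∃ t, z ∈ U t) →
    Cocy Z U g → ∑ ω, W ω = 1 →
    (∀ t t' ω, ∀ z ∈ Z, z ∈ U t → z ∈ U t' → W (g t t' z ω) = W ω) →
    ∃ (μ : Type) (_ : Fintype μ) (φ : Y → (μ → ℝ) → (μ → ℝ)) (R : ℝ) (β : T → Y × (μ → ℝ) → Ω),
      Continuous (fun q : Y × (μ → ℝ) => φ q.1 q.2) ∧ (∀ z ζ, ‖φ z ζ‖ ≤ R) ∧
      Branch U g {q | q.1 ∈ Z ∧ φ q.1 q.2 = q.2} β ∧ ∀ t q, W (β t q) ≠ 0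

/-- Admissible labelings of the fibres along the fixed point set. -/
def S_COC : Prop :=
  ∀ (X Y : Type) [MetricSpace X] [MetricSpace Y] (r : ℕ) (f : X → Y) (Q : Set X) (G : X → X → Prop)
    (Z : Set Y) (m : ℕ) (G0 : Fin m → Fin m → Prop) (T : Type) [Fintype T] (U : T → Set Y)
    (x : T → Y → Fin m → X), IsClosed Z → (∀ t, IsOpen (U t)) → (∀ z ∈ Z, ∃ t, z ∈ U t) →
    (∀ t, ∀ z ∈ Z, z ∈ U t → Frame f Q G z G0 (x t z)) → (∀ t, ContinuousOn (x t) (Z ∩ U t)) →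
    HasW r G0 →
    ∃ (μ : Type) (_ : Fintype μ) (φ : Y → (μ → ℝ) → (μ → ℝ)) (R : ℝ)
      (β : T → Y × (μ → ℝ) → Fin m → Fin m),
      Continuous (fun q : Y × (μ → ℝ) => φ q.1 q.2) ∧ (∀ z ζ, ‖φ z ζ‖ ≤ R) ∧
      (∀ t q, Adm r G0 (β t q)) ∧
      (∀ q : Y × (μ → ℝ), q.1 ∈ Z → φ q.1 q.2 = q.2 → ∀ t t', q.1 ∈ U t → q.1 ∈ U t' →
        ∀ a a', x t q.1 a = x t' q.1 a' → β t q a = β t' q a') ∧
      ∀ q : Y × (μ → ℝ), q.1 ∈ Z → φ q.1 q.2 = q.2 → ∀ t, q.1 ∈ U t →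
        ∀ᶠ q' in nhdsWithin q {q | q.1 ∈ Z ∧ φ q.1 q.2 = q.2}, β t q' = β t q

/-- One separating function from the labelings. -/
def S_PFUN : Prop :=
  ∀ (X Y : Type) [MetricSpace X] [MetricSpace Y] (r : ℕ) (f : X → Y) (Q : Set X) (G : X → X → Prop)
    (Z : Set Y) (m : ℕ) (G0 : Fin m → Fin m → Prop) (T : Type) (U : T → Set Y)
    (x : T → Y → Fin m → X) (μ : Type) [Fintype μ] (φ : Y → (μ → ℝ) → (μ → ℝ)) (R : ℝ)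
    (β : T → Y × (μ → ℝ) → Fin m → Fin m) (K : Set (Fin r → X)),
    Continuous f → IsClosed Q → IsClosed Z → (∀ t, IsOpen (U t)) → (∀ z ∈ Z, ∃ t, z ∈ U t) →
    (∀ t, ∀ z ∈ Z, z ∈ U t → Frame f Q G z G0 (x t z)) → (∀ t, ContinuousOn (x t) (Z ∩ U t)) →
    Continuous (fun q : Y × (μ → ℝ) => φ q.1 q.2) → (∀ z ζ, ‖φ z ζ‖ ≤ R) →
    (∀ t q, Adm r G0 (β t q)) →
    (∀ q : Y × (μ → ℝ), q.1 ∈ Z → φ q.1 q.2 = q.2 → ∀ t t', q.1 ∈ U t → q.1 ∈ U t' →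
      ∀ a a', x t q.1 a = x t' q.1 a' → β t q a = β t' q a') →
    (∀ q : Y × (μ → ℝ), q.1 ∈ Z → φ q.1 q.2 = q.2 → ∀ t, q.1 ∈ U t →
      ∀ᶠ q' in nhdsWithin q {q | q.1 ∈ Z ∧ φ q.1 q.2 = q.2}, β t q' = β t q) →
    (∀ w ∈ K, Wit f Q G w ∧ ∀ c, f (w c) ∈ Z) → PP f 1 K

def S_ONE : Prop :=
  ∀ (X Y : Type) [MetricSpace X] [MetricSpace Y] (r : ℕ) (f : X → Y) (Q : Set X) (G : X → X → Prop)
    (Z : Set Y) (m : ℕ) (G0 : Fin m → Fin m → Prop) (K : Set (Fin r → X)),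
    Continuous f → IsCompact Q → IsClosed {q : X × X | G q.1 q.2} → LocInj f Q → IsCompact Z →
    (∀ z ∈ Z, ∃ x, Frame f Q G z G0 x) → HasW r G0 →
    (∀ w ∈ K, Wit f Q G w ∧ ∀ c, f (w c) ∈ Z) → PP f 1 K

/-- Separation on a compact set on which `f` is locally injective. -/
def S_SYS1 : Prop :=
  ∀ r m0 : ℕ, 0 < r → ∃ u1 : ℕ, ∀ (X Y : Type) [MetricSpace X] [MetricSpace Y] (f : X → Y) (Q : Set X)
    (G : X → X → Prop) (K : Set (Fin r → X)), Continuous f → IsCompact Q →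
    IsClosed {q : X × X | G q.1 q.2} → LocInj f Q →
    (∀ (m : ℕ) (x : Fin m → X) (z : Y), Function.Injective x → (∀ a, x a ∈ Q ∧ f (x a) = z) →
      m ≤ m0 ∧ HasW r (fun a b => G (x a) (x b))) →
    IsCompact K → (∀ w ∈ K, Wit f Q G w) → PP f u1 K

def S_SYS : Prop :=
  ∀ r m0 B : ℕ, 0 < r → ∃ u0 : ℕ, ∀ (X Y : Type) [MetricSpace X] [MetricSpace Y] (f : X → Y)
    (Sg : Set X) (G : X → X → Prop) (band : X → ℕ) (K : Set (Fin r → X)), Continuous f →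
    IsClosed {q : X × X | G q.1 q.2} → (∀ b, IsClosed {x | band x ≤ b}) → (∀ x ∈ Sg, band x ≤ B) →
    (∀ x ∈ Sg, ∃ ε : ℝ, 0 < ε ∧ ∀ x' ∈ Sg, ∀ x'' ∈ Sg, dist x' x < ε → dist x'' x < ε →
      band x' = band x → band x'' = band x → f x' = f x'' → x' = x'') →
    (∀ (m : ℕ) (x : Fin m → X) (z : Y), Function.Injective x → (∀ a, x a ∈ Sg ∧ f (x a) = z) →
      m ≤ m0 ∧ HasW r (fun a b => G (x a) (x b))) →
    IsCompact K → (∀ w ∈ K, Wit f Sg G w) → PP f u0 K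

/-- Assembly of the height, the generic map and the separating system. -/
def S_ASM : Prop :=
  ∀ (r : ℕ) (ι : Type) [Fintype ι] (X Y : Type) [MetricSpace X] [NormedAddCommGroup Y]
    (ψ : (ι → Fin r → ℝ) → X) (f : X → Y) (Sg : Set X) (u : ℕ), Continuous ψ → Continuous f →
    IsClosed Sg → (∀ y, Tup y → ∃ c, ψ (y c) ∈ Sg) →
    PP f u ((fun (y : Fin r → ι → Fin r → ℝ) c => ψ (y c)) ''
      {y | Tup y ∧ (∀ c, ψ (y c) ∈ Sg) ∧ ∀ c c', f (ψ (y c)) = f (ψ (y c'))}) →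
    ∃ (μ υ : Type) (_ : Fintype μ) (_ : Fintype υ), Fintype.card υ ≤ u ∧
      SusCex r ι (ℝ × Y × (υ → ℝ)) μ

end Pool.Agent.P.MP_9ca318_co.BL
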