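import Pool.Agent.P.MP_9ca318_co.BL.Iface

set_option autoImplicit false

namespace Pool.Agent.P.MP_9ca318_co.BL

open Finset

namespace TFINA

/-- Weights of a point of the convex hull of a finite family. -/
theorem weights {κ E : Type} [Fintype κ] [AddCommGroup E] [Module ℝ E] (v : κ → E) (x : E)
    (hx : x ∈ convexHull ℝ (Set.range v)) :
    ∃ w : κ → ℝ, (∀ j, 0 ≤ w j) ∧ ∑ j, w j = 1 ∧ ∑ j, w j • v j = x := by
  classical
  have hc : Convex ℝ {x : E | ∃ w : κ → ℝ, (∀ j, 0 ≤ w j) ∧ ∑ j, w j = 1 ∧ ∑ j, w j • v j = x} := by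
    rintro x ⟨w, h0, h1, rfl⟩ x' ⟨w', h0', h1', rfl⟩ a b ha hb hab
    refine ⟨fun j => a * w j + b * w' j, fun j => add_nonneg (mul_nonneg ha (h0 j)) (mul_nonneg hb (h0' j)),
      ?_, ?_⟩
    · rw [Finset.sum_add_distrib, ← Finset.mul_sum, ← Finset.mul_sum, h1, h1']; linarith
    · simp only [add_smul, mul_smul, Finset.sum_add_distrib, Finset.smul_sum]
  refine convexHull_min ?_ hc hx
  rintro _ ⟨j, rfl⟩
  refine ⟨Pi.single j 1, fun j' => ?_, by simp, ?_⟩
  · by_cases h : j' = j
    · subst h; simp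
    · simp [h]
  · simp [Pi.single_apply]

/-- A small parameter which separates finitely many moving points. -/
theorem exists_param {κ E : Type} [Fintype κ] [AddCommGroup E] [Module ℝ E] (q : κ → E) (k : κ → ℝ)
    (hk : Function.Injective k) (e0 : E) (he : e0 ≠ 0) (δ : ℝ) (hδ : 0 < δ) :
    ∃ t : ℝ, 0 < t ∧ t < δ ∧ Function.Injective (fun a => q a + (t * k a) • e0) := by
  classical
  have hfin : ∀ a b : κ, a ≠ b → Set.Finite {t : ℝ | q a + (t * k a) • e0 = q b + (t * k b) • e0} := by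
    intro a b hab
    refine Set.Subsingleton.finite fun t ht t' ht' => ?_
    have h1 : q a + (t * k a) • e0 = q b + (t * k b) • e0 := ht
    have h2 : q a + (t' * k a) • e0 = q b + (t' * k b) • e0 := ht'
    have h3 : ((t - t') * (k a - k b)) • e0 = 0 := by
      have : ((t - t') * (k a - k b)) • e0 =
          (q a + (t * k a) • e0 - (q b + (t * k b) • e0)) - (q a + (t' * k a) • e0 - (q b + (t' * k b) • e0)) := by
        module
      rw [this, h1, h2]; simp
    rcases smul_eq_zero.1 h3 with h4 | h4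
    · rcases mul_eq_zero.1 h4 with h5 | h5
      · linarith
      · exact absurd (hk (sub_eq_zero.1 h5)) hab
    · exact absurd h4 he
  have hB : Set.Finite (⋃ p : {p : κ × κ // p.1 ≠ p.2},
      {t : ℝ | q p.1.1 + (t * k p.1.1) • e0 = q p.1.2 + (t * k p.1.2) • e0}) :=
    Set.finite_iUnion fun p => hfin _ _ p.2
  obtain ⟨t, ht, hn⟩ := ((Set.Ioo_infinite hδ).sdiff hB).nonempty
  refine ⟨t, ht.1, ht.2, fun a b hab => ?_⟩
  by_contra hne
  exact hn (Set.mem_iUnion.2 ⟨⟨(a, b), hne⟩, hab⟩)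

end TFINA

open TFINA

theorem s_fin : S_FIN := by
  classical
  intro r ι _ A _ _ _ h2 hA hcex hall
  obtain ⟨f, hf⟩ := hcex
  obtain ⟨d, hd⟩ : ∃ d, Fintype.card ι = d + 1 := ⟨Fintype.card ι - 1, by omega⟩
  have hd1 : 0 < d := by omega
  let e : ι ≃ Fin (d + 1) := Fintype.equivFinOfCardEq hd
  obtain ⟨J, hJ⟩ := (finrank_le_iff_exists_linearMap (R := ℝ) (M := A)
    (M' := EuclideanSpace ℝ (Fin d))).1 (by rw [finrank_euclideanSpace_fin]; omega)
  let g : (ι → Fin r → ℝ) →ₗ[ℝ] EuclideanSpace ℝ (Fin d) := J ∘ₗ f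
  obtain ⟨η, hη, hm⟩ := margin (r := r) (fun x => g x) g.continuous_of_finiteDimensional (fun y hy => by
    obtain ⟨c, c', hne⟩ := hf y hy
    exact ⟨c, c', fun h => hne (hJ h)⟩)
  let K : ℕ := Fintype.card (ι × Fin r)
  let k : ι × Fin r → ℝ := fun a => ((Fintype.equivFin (ι × Fin r) a : ℕ) : ℝ)
  have hk : Function.Injective k := fun a b h =>
    (Fintype.equivFin (ι × Fin r)).injective (Fin.ext (Nat.cast_injective (R := ℝ) h))
  have hk0 : ∀ a, 0 ≤ k a := fun a => Nat.cast_nonneg _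
  have hkK : ∀ a, k a ≤ K := fun a => by
    have := (Fintype.equivFin (ι × Fin r) a).2
    exact Nat.cast_le.2 this.le
  let e0 : EuclideanSpace ℝ (Fin d) := EuclideanSpace.single ⟨0, hd1⟩ 1
  have hn0 : ‖e0‖ = 1 := by simp [e0]
  have he0 : e0 ≠ 0 := by intro h; rw [h, norm_zero] at hn0; exact zero_ne_one hn0
  let q : ι × Fin r → EuclideanSpace ℝ (Fin d) := fun a => g (Pi.single a.1 (Pi.single a.2 1))
  have hK1 : (0 : ℝ) < K + 1 := by positivity
  obtain ⟨t, ht0, ht1, hinj⟩ := exists_param q k hk e0 he0 (η / (K + 1)) (div_pos hη hK1)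
  let p : ι × Fin r → EuclideanSpace ℝ (Fin d) := fun a => q a + (t * k a) • e0
  have hp : Function.Injective p := hinj
  let C : Fin (d + 1) → Finset (EuclideanSpace ℝ (Fin d)) :=
    fun j => univ.image (fun i => p (e.symm j, i))
  obtain ⟨F, hFC, hFinj, x, hx⟩ := hall r d C (fun j j' hne => by
      refine Finset.disjoint_left.2 ?_
      intro a ha ha'
      obtain ⟨i, -, rfl⟩ := Finset.mem_image.1 ha
      obtain ⟨i', -, h⟩ := Finset.mem_image.1 ha'
      exact hne (e.symm.injective (congrArg Prod.fst (hp h))).symm)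
    (fun j => by
      rw [Finset.card_image_of_injective _ (fun i i' h => congrArg Prod.snd (hp h))]
      simp)
  have hρ : ∀ c (j : ι), ∃ i, p (j, i) = F c (e j) := fun c j => by
    obtain ⟨i, -, h⟩ := Finset.mem_image.1 (hFC c (e j))
    exact ⟨i, by simpa using h⟩
  choose ρ hρ using hρ
  choose w hw0 hw1 hwx using fun c => weights (F c) x (hx c)
  let y : Fin r → ι → Fin r → ℝ := fun c j i => if i = ρ c j then w c (e j) else 0
  have hw1' : ∀ c, ∑ j, w c (e j) = 1 := fun c => by rw [← hw1 c]; exact e.sum_comp (w c)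
  have hy : Tup y := by
    refine ⟨⟨fun c j i => ?_, fun c j i i' h h' => ?_, fun c c' j i h h' => ?_⟩, fun c => ?_⟩
    · simp only [y]; split_ifs; exacts [hw0 _ _, le_rfl]
    · have h1 : i = ρ c j := by by_contra h0; exact h (if_neg h0)
      have h2 : i' = ρ c j := by by_contra h0; exact h' (if_neg h0)
      rw [h1, h2]
    · have h1 : i = ρ c j := by by_contra h0; exact h (if_neg h0)
      have h2 : i = ρ c' j := by by_contra h0; exact h' (if_neg h0)
      have h3 : F c (e j) = F c' (e j) := by rw [← hρ, ← hρ, ← h1, ← h2]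
      exact congrArg Prod.fst (hFinj (a₁ := (c, e j)) (a₂ := (c', e j)) h3)
    · rw [← hw1' c]
      simp [tot, y]
  have hyd : ∀ c, y c = ∑ j, w c (e j) • (Pi.single j (Pi.single (ρ c j) (1 : ℝ)) : ι → Fin r → ℝ) := by
    intro c
    funext j i
    simp only [y, Finset.sum_apply, Pi.smul_apply, smul_eq_mul]
    rw [Finset.sum_eq_single j]
    · simp [Pi.single_apply]
    · intro j' _ hne
      simp [Pi.single_eq_of_ne hne.symm]
    · intro h; exact absurd (Finset.mem_univ _) h
  let s : Fin r → ℝ := fun c => ∑ j, w c (e j) * k (j, ρ c j)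
  have hs0 : ∀ c, 0 ≤ s c := fun c => Finset.sum_nonneg fun j _ => mul_nonneg (hw0 _ _) (hk0 _)
  have hsK : ∀ c, s c ≤ K := fun c => by
    calc s c ≤ ∑ j, w c (e j) * K :=
          Finset.sum_le_sum fun j _ => mul_le_mul_of_nonneg_left (hkK _) (hw0 _ _)
      _ = K := by rw [← Finset.sum_mul, hw1', one_mul]
  have hg : ∀ c, g (y c) = x - (t * s c) • e0 := by
    intro c
    have h1 : x = ∑ j, w c (e j) • p (j, ρ c j) := by
      rw [← hwx c, ← e.sum_comp (fun j => w c j • F c j)]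
      exact Finset.sum_congr rfl fun j _ => by rw [hρ]
    have h2 : (t * s c) • e0 = ∑ j, w c (e j) • ((t * k (j, ρ c j)) • e0) := by
      simp only [s, Finset.mul_sum, Finset.sum_smul, smul_smul]
      exact Finset.sum_congr rfl fun j _ => by congr 1; ring
    rw [hyd c, map_sum, h2]
    conv_rhs => rw [h1]
    rw [← Finset.sum_sub_distrib]
    refine Finset.sum_congr rfl fun j _ => ?_
    rw [map_smul]
    simp only [p, q, smul_add, add_sub_cancel_right]
  obtain ⟨c, c', hc⟩ := hm y hy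
  rw [hg, hg] at hc
  have h3 : x - (t * s c) • e0 - (x - (t * s c') • e0) = (t * (s c' - s c)) • e0 := by module
  rw [h3, norm_smul, hn0, mul_one, Real.norm_eq_abs, abs_mul, abs_of_pos ht0] at hc
  have h4 : |s c' - s c| ≤ K := abs_le.2 ⟨by linarith [hs0 c', hsK c], by linarith [hs0 c, hsK c']⟩
  have h5 : t * (K + 1) < η := (lt_div_iff₀ hK1).1 ht1
  nlinarith [mul_le_mul_of_nonneg_left h4 ht0.le]

end Pool.Agent.P.MP_9ca318_co.BL
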