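import Pool.Agent.P.MP_9ca318_co.BL.Iface

set_option autoImplicit false

namespace Pool.Agent.P.MP_9ca318_co.BL

open Finset

namespace TLOOPA

/-- An injective bounded key which reverses the strict order of the ranks. -/
theorem exists_key (𝒯 : Type) [Fintype 𝒯] (ρ : 𝒯 → ℕ) :
    ∃ (key : 𝒯 → ℕ) (N : ℕ), Function.Injective key ∧ (∀ τ, key τ < N) ∧
      ∀ τ τ0, ρ τ < ρ τ0 → key τ0 < key τ := by
  classical
  let Rm : ℕ := univ.sup ρ
  have hR : ∀ τ, ρ τ ≤ Rm := fun τ => Finset.le_sup (f := ρ) (Finset.mem_univ τ)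
  let n : ℕ := Fintype.card 𝒯
  let idx : 𝒯 → ℕ := fun τ => (Fintype.equivFin 𝒯 τ : ℕ)
  have hi : ∀ τ, idx τ < n := fun τ => (Fintype.equivFin 𝒯 τ).2
  refine ⟨fun τ => (Rm - ρ τ) * n + idx τ, (Rm + 1) * n, fun τ τ' h => ?_, fun τ => ?_,
    fun τ τ0 h => ?_⟩
  · have h1 : ((Rm - ρ τ) * n + idx τ) % n = ((Rm - ρ τ') * n + idx τ') % n := congrArg (· % n) h
    rw [Nat.mul_add_mod_self_right, Nat.mul_add_mod_self_right, Nat.mod_eq_of_lt (hi τ),
      Nat.mod_eq_of_lt (hi τ')] at h1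
    exact (Fintype.equivFin 𝒯).injective (Fin.ext h1)
  · have h1 : (Rm - ρ τ) * n ≤ Rm * n := Nat.mul_le_mul_right _ (Nat.sub_le _ _)
    have h2 := hi τ
    show (Rm - ρ τ) * n + idx τ < (Rm + 1) * n
    rw [Nat.add_mul, Nat.one_mul]
    omega
  · have h1 : (Rm - ρ τ0 + 1) * n ≤ (Rm - ρ τ) * n :=
      Nat.mul_le_mul_right _ (by have := hR τ0; omega)
    have h2 := hi τ0
    show (Rm - ρ τ0) * n + idx τ0 < (Rm - ρ τ) * n + idx τ
    rw [Nat.add_mul, Nat.one_mul] at h1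
    omega

end TLOOPA

open TLOOPA

theorem s_loop (h : S_PROD) : S_LOOP := by
  intro X Y _ _ r f u N K Φ hr hf hK hN hcl hlev
  have key : ∀ s, PP f (s * u) {w | w ∈ K ∧ Φ w < s} := by
    intro s
    induction s with
    | zero =>
      exact (PP.empty f _).mono le_rfl fun w hw => absurd hw.2 (Nat.not_lt_zero _)
    | succ s ih =>
      have hc : IsCompact {w | w ∈ K ∧ Φ w ≤ s} := hK.of_isClosed_subset (hcl s) fun w hw => hw.1
      have h1 := h X Y r f (s * u) u _ _ hr hf hc ih (fun L hL hsub => hlev s L hL fun w hw => by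
        obtain ⟨h2, h3⟩ := hsub hw
        refine ⟨h2.1, le_antisymm h2.2 ?_⟩
        by_contra h4
        exact h3 ⟨h2.1, not_le.1 h4⟩)
      exact h1.mono (by rw [Nat.succ_mul]) fun w hw => ⟨hw.1, Nat.lt_succ_iff.1 hw.2⟩
  exact (key N).mono le_rfl fun w hw => ⟨hw, hN w hw⟩

theorem s_loop2 (h : S_LOOP) : S_LOOP2 := by
  intro 𝒯 _ ρ
  obtain ⟨key, N, hinj, hN, hlt⟩ := exists_key 𝒯 ρ
  refine ⟨N, ?_⟩
  intro X Y _ _ r f u K A hr hf hK hA hP
  let Φ : (Fin r → X) → ℕ := fun w => sInf {k | ∃ τ, w ∈ A τ ∧ key τ = k}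
  have hle : ∀ w τ, w ∈ A τ → Φ w ≤ key τ := fun w τ hw => Nat.sInf_le ⟨τ, hw, rfl⟩
  have hmem : ∀ w ∈ K, ∃ τ, w ∈ A τ ∧ key τ = Φ w := fun w hw => by
    obtain ⟨τ0, h0, -⟩ := hA w hw
    exact Nat.sInf_mem (s := {k | ∃ τ, w ∈ A τ ∧ key τ = k}) ⟨key τ0, τ0, h0, rfl⟩
  refine h X Y r f u N K Φ hr hf hK (fun w hw => ?_) (fun s => ?_) (fun s L hL hs => ?_)
  · obtain ⟨τ, -, h1⟩ := hmem w hw
    rw [← h1]
    exact hN τ
  · refine isClosed_of_closure_subset fun w hw => ?_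
    have hwK : w ∈ K := hK.isClosed.closure_subset (closure_mono (fun w hw => hw.1) hw)
    obtain ⟨τ0, h0, hev⟩ := hA w hwK
    have hfr := mem_closure_iff_frequently.1 hw
    rw [eventually_nhdsWithin_iff] at hev
    obtain ⟨w', hw', h1⟩ := (hfr.and_eventually hev).exists
    obtain ⟨τ, h2, h3⟩ := hmem w' hw'.1
    refine ⟨hwK, ?_⟩
    have h4 : key τ ≤ s := h3 ▸ hw'.2
    rcases h1 hw'.1 τ h2 with h5 | h5
    · exact (hle w τ h5).trans h4
    · exact (hle w τ0 h0).trans ((hlt τ τ0 h5).le.trans h4)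
  · rcases L.eq_empty_or_nonempty with rfl | ⟨w0, hw0⟩
    · exact PP.empty f u
    · obtain ⟨τ0, -, h1⟩ := hmem w0 (hs w0 hw0).1
      refine hP τ0 L hL fun w hw => ⟨(hs w hw).1, ?_⟩
      obtain ⟨τ, h2, h3⟩ := hmem w (hs w hw).1
      have : τ = τ0 := hinj (by rw [h3, h1, (hs w hw).2, (hs w0 hw0).2])
      exact this ▸ h2

end Pool.Agent.P.MP_9ca318_co.BL
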