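import Pool.Agent.P.MP_9ca318_co.BL.Iface

set_option autoImplicit false

namespace Pool.Agent.P.MP_9ca318_co.BL

open Finset Filter Topology

theorem s_one (h1 : S_CHART) (h2 : S_COC) (h3 : S_PFUN) : S_ONE := by
  classical
  intro X Y _ _ r f Q G Z m G0 K hf hQ hG hloc hZ hfr hW hK
  have hch := h1 X Y f Q G Z m G0 hf hQ hG hloc hfr
  choose U x hUo hUm hUf hUc using fun z0 : Z => hch z0.1 z0.2
  obtain ⟨t, ht⟩ := hZ.elim_finite_subcover U hUo
    (fun z hz => Set.mem_iUnion.2 ⟨⟨z, hz⟩, hUm ⟨z, hz⟩⟩)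
  have hcov : ∀ z ∈ Z, ∃ s : t, z ∈ U s.1 := by
    intro z hz
    obtain ⟨s, hs, hzs⟩ := Set.mem_iUnion₂.1 (ht hz)
    exact ⟨⟨s, hs⟩, hzs⟩
  obtain ⟨μ, iμ, φ, R, β, c1, c2, c3, c4, c5⟩ := h2 X Y r f Q G Z m G0 t (fun s => U s.1)
    (fun s => x s.1) hZ.isClosed (fun s => hUo s.1) hcov (fun s => hUf s.1) (fun s => hUc s.1) hW
  exact h3 X Y r f Q G Z m G0 t (fun s => U s.1) (fun s => x s.1) μ φ R β K hf hQ.isClosed
    hZ.isClosed (fun s => hUo s.1) hcov (fun s => hUf s.1) (fun s => hUc s.1) c1 c2 c3 c4 c5 hK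

namespace TONEA

theorem enum {X : Type} (S : Set X) (m0 : ℕ)
    (h : ∀ (m : ℕ) (x : Fin m → X), Function.Injective x → (∀ a, x a ∈ S) → m ≤ m0) :
    ∃ (m : ℕ) (x : Fin m → X), Function.Injective x ∧ (∀ a, x a ∈ S) ∧ ∀ y ∈ S, ∃ a, x a = y := by
  classical
  have hfin : S.Finite := by
    by_contra hinf
    have hinf' : S.Infinite := hinf
    have := h (m0 + 1) (fun a => (hinf'.natEmbedding S a.val : X))
      (fun a b e => Fin.val_injective ((hinf'.natEmbedding S).injective (Subtype.ext e)))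
      (fun a => (hinf'.natEmbedding S a.val).2)
    omega
  let e := hfin.toFinset.equivFin
  refine ⟨hfin.toFinset.card, fun a => (e.symm a : X),
    fun a b hab => e.symm.injective (Subtype.ext hab),
    fun a => hfin.mem_toFinset.1 (e.symm a).2, fun y hy => ⟨e ⟨y, hfin.mem_toFinset.2 hy⟩, by simp⟩⟩

end TONEA

theorem s_sys1 (h1 : S_LOOP2) (h2 : S_USC) (h3 : S_RANK) (h4 : S_ONE) : S_SYS1 := by
  classical
  intro r m0 hr
  obtain ⟨N, hN⟩ := h1 (Σ m : Fin (m0 + 1), (Fin m.val → Fin m.val → Prop)) (fun τ => rk τ.2)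
  refine ⟨N * 1, ?_⟩
  intro X Y _ _ f Q G K hf hQ hG hloc hfib hK hKw
  let c0 : Fin r := ⟨0, hr⟩
  have hc0 : Continuous (fun w : Fin r → X => f (w c0)) := hf.comp (continuous_apply c0)
  refine hN X Y r f 1 K (fun τ => {w | ∃ x, Frame f Q G (f (w c0)) τ.2 x}) hr hf hK ?_ ?_
  · intro w hw
    obtain ⟨m, x0, hinj, hmem, hsurj⟩ := TONEA.enum {y | y ∈ Q ∧ f y = f (w c0)} m0
      (fun m x hx hxm => (hfib m x (f (w c0)) hx hxm).1)
    have hm : m ≤ m0 := (hfib m x0 (f (w c0)) hinj hmem).1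
    have hsurj' : ∀ y ∈ Q, f y = f (w c0) → ∃ a, x0 a = y := fun y hy hy' => hsurj y ⟨hy, hy'⟩
    refine ⟨⟨⟨m, Nat.lt_succ_of_le hm⟩, fun a b => G (x0 a) (x0 b)⟩,
      ⟨x0, hinj, hmem, hsurj', fun a b => Iff.rfl⟩, ?_⟩
    obtain ⟨δ, hδ, hδ'⟩ := h2 X Y f Q G (f (w c0)) m x0 1 hf hQ hG hloc (fun a => (hmem a).1)
      hsurj' one_pos
    have ev : ∀ᶠ w' in 𝓝[K] w, dist (f (w' c0)) (f (w c0)) < δ :=
      (hc0.continuousWithinAt.tendsto).eventually (Metric.ball_mem_nhds _ hδ)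
    refine ev.mono fun w' hw' τ hτ => ?_
    obtain ⟨x, hx⟩ := hτ
    obtain ⟨j, hj, -, hjG⟩ := hδ' (f (w' c0)) hw' τ.1.val x hx.1 hx.2.1
    rcases h3 τ.1.val m τ.2 (fun a b => G (x0 a) (x0 b)) j hj
      (fun a b hab => hjG a b ((hx.2.2.2 a b).2 hab)) with hlt | ⟨hb, hiff⟩
    · exact Or.inr hlt
    · refine Or.inl ⟨fun a => x0 (j a), hinj.comp hj, fun a => hmem (j a), fun y hy hy' => ?_, hiff⟩
      obtain ⟨a, ha⟩ := hsurj' y hy hy'
      obtain ⟨b, rfl⟩ := hb.2 a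
      exact ⟨b, ha⟩
  · intro τ L hL hLK
    rcases L.eq_empty_or_nonempty with rfl | ⟨w0, hw0⟩
    · exact PP.empty f 1
    obtain ⟨x, hx⟩ := (hLK hw0).2
    have hW : HasW r τ.2 := by
      have e : τ.2 = fun a b => G (x a) (x b) := by
        funext a b
        exact propext (hx.2.2.2 a b).symm
      rw [e]
      exact (hfib _ x _ hx.1 hx.2.1).2
    refine h4 X Y r f Q G ((fun w : Fin r → X => f (w c0)) '' L) τ.1.val τ.2 L hf hQ hG hloc
      (hL.image hc0) ?_ hW ?_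
    · rintro z ⟨w, hw, rfl⟩
      exact (hLK hw).2
    · intro w hw
      have hwit := hKw w (hLK hw).1
      exact ⟨hwit, fun c => ⟨w, hw, hwit.2.1 c0 c⟩⟩

end Pool.Agent.P.MP_9ca318_co.BL
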