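import Pool.Agent.P.MP_9ca318_co.BL.Iface

/-! Some column has many blocks without triple. -/

set_option autoImplicit false

namespace Pool.Agent.P.MP_9ca318_co.BL

open Finset

namespace TT1A

def tb (β : Bool) : ZMod 2 := if β = true then 1 else 0

theorem tb_even (a b c : Bool) (h : xor a (xor b c) = false) : tb a + tb b + tb c = 0 := by
  revert h; cases a <;> cases b <;> cases c <;> decide

theorem tb_sum : ∑ i : Fin 91, tb (ty i) = 1 := by decide +kernel

theorem parity (τ : Fin 91 → Fin 3 → Fin 91) (h : ∀ j, Function.Injective fun c => τ c j)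
    (he : ∀ c, odd3 (fun j => ty (τ c j)) = false) : False := by
  have h1 : ∀ j, ∑ c, tb (ty (τ c j)) = 1 := fun j => by
    rw [← tb_sum]
    exact (Equiv.ofBijective _ (Finite.injective_iff_bijective.1 (h j))).sum_comp
      fun i => tb (ty i)
  have h2 : ∑ c, (tb (ty (τ c 0)) + tb (ty (τ c 1)) + tb (ty (τ c 2))) = 0 :=
    Finset.sum_eq_zero fun c _ => tb_even _ _ _ (he c)
  rw [Finset.sum_add_distrib, Finset.sum_add_distrib, h1, h1, h1] at h2
  revert h2; decide

end TT1A

open TT1A in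
theorem s_t1 (hA : S_PA) (hB : S_PB) : S_T1 := by
  classical
  intro i n y hn hy
  have ok : ∀ c b, BlockOK fun j => y c (b, j) := fun c b =>
    ⟨fun j k => hy.1.nn c _ k, fun j k k' => hy.1.rb c _ k k'⟩
  have le1 : ∀ c b, (∑ j, ∑ k, y c (b, j) k) ≤ 1 := fun c b => by
    rw [← hy.2 c, tot, Fintype.sum_prod_type]
    exact Finset.single_le_sum (f := fun b => ∑ j, ∑ k, y c (b, j) k)
      (fun b _ => Finset.sum_nonneg fun j _ => Finset.sum_nonneg fun k _ => hy.1.nn c _ k)
      (Finset.mem_univ b)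
  have ex : ∀ b, ∃ c, NoH (psi (y c)) b := fun b => by
    by_contra hc
    have h1 : ∀ c, ∃ τ, psi (y c) (b, .inr (.inr τ)) ≠ 0 := fun c => by
      by_contra h2
      exact hc ⟨c, fun τ => by_contra fun h3 => h2 ⟨τ, h3⟩⟩
    choose τ hτ using h1
    have h2 := fun c => (hA.2 _ (ok c b)).2.2.2 (τ c) (hτ c)
    refine parity τ (fun j c c' e => ?_) fun c => (h2 c).1
    have e' : τ c j = τ c' j := e
    exact hy.1.dj c c' (b, j) (τ c j) ((h2 c).2 j) (e' ▸ (h2 c').2 j)
  choose cb hcb using ex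
  obtain ⟨c, hc⟩ := Fintype.exists_lt_card_fiber_of_mul_lt_card (f := cb) (n := i)
    (by simp only [Fintype.card_fin]; omega)
  refine ⟨c, fun p => (hA.2 _ (ok c p.1)).1 (le1 c p.1) p.2, fun b => (hB _ (ok c b)).1,
    fun b => (hA.2 _ (ok c b)).2.1, fun b τ τ' h1 h2 => funext fun j => ?_, _, hc, fun b hb => ?_⟩
  · exact hy.1.rb c (b, j) _ _ (((hA.2 _ (ok c b)).2.2.2 τ h1).2 j)
      (((hA.2 _ (ok c b)).2.2.2 τ' h2).2 j)
  · rw [← (Finset.mem_filter.1 hb).2]
    exact hcb b

end Pool.Agent.P.MP_9ca318_co.BL
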